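import Pool.Agent.Lib.MP_393cd8_nt.Defs

/-!
# Module O: few residues have a large sum of reciprocals of primes
-/

set_option autoImplicit false

namespace SES

open Finset

/-- number of multiples of a divisor `m` of `M` in `range M` -/
private lemma bd_card_dvd {M m : ℕ} (hm : m ∣ M) (hM : 0 < M) :
    (((range M).filter (fun n => m ∣ n)).card : ℝ) = (M : ℝ) / m := by
  have hm0 : 0 < m := Nat.pos_of_dvd_of_pos hm hM
  obtain ⟨q, rfl⟩ := hm
  have h : (range (m * q)).filter (fun n => m ∣ n) = (range q).image (fun j => m * j) := by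
    ext n
    simp only [mem_filter, mem_range, mem_image]
    constructor
    · rintro ⟨h1, j, rfl⟩
      exact ⟨j, Nat.lt_of_mul_lt_mul_left h1, rfl⟩
    · rintro ⟨j, hj, rfl⟩
      exact ⟨Nat.mul_lt_mul_of_pos_left hj hm0, Dvd.intro _ rfl⟩
  rw [h, card_image_of_injective _ (fun a b hab => Nat.eq_of_mul_eq_mul_left hm0 hab), card_range]
  have hm1 : (m : ℝ) ≠ 0 := by positivity
  push_cast
  field_simp

/-- average of a product over the primes dividing `n` -/
private lemma bd_avg {M : ℕ} (hM : 0 < M) (P : Finset ℕ) (hP : ∀ p ∈ P, p.Prime ∧ p ∣ M)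
    (g : ℕ → ℝ) :
    ∑ n ∈ range M, ∏ p ∈ P, (if p ∣ n then 1 + g p else 1) = M * ∏ p ∈ P, (1 + g p / p) := by
  have h1 : ∀ n, ∏ p ∈ P, (if p ∣ n then 1 + g p else 1) =
      ∑ S ∈ P.powerset, (if (∏ p ∈ S, p) ∣ n then ∏ p ∈ S, g p else 0) := by
    intro n
    have e1 : ∏ p ∈ P, (if p ∣ n then 1 + g p else 1) =
        ∏ p ∈ P, (1 + (if p ∣ n then g p else 0)) := by
      refine prod_congr rfl (fun p _ => ?_)
      split_ifs <;> simp
    rw [e1, prod_one_add]
    refine sum_congr rfl (fun S hS => ?_)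
    rw [mem_powerset] at hS
    by_cases h : (∏ p ∈ S, p) ∣ n
    · rw [if_pos h]
      refine prod_congr rfl (fun p hp => ?_)
      rw [if_pos ((dvd_prod_of_mem _ hp).trans h)]
    · rw [if_neg h]
      have h2 : ∃ p ∈ S, ¬ p ∣ n := by
        by_contra hcon
        push_neg at hcon
        exact h (Finset.prod_primes_dvd n (fun p hp => (hP p (hS hp)).1.prime) hcon)
      obtain ⟨p, hp, hpn⟩ := h2
      exact prod_eq_zero hp (by rw [if_neg hpn])
  simp_rw [h1]
  rw [sum_comm, prod_one_add, mul_sum]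
  refine sum_congr rfl (fun S hS => ?_)
  rw [mem_powerset] at hS
  have hdvd : (∏ p ∈ S, p) ∣ M :=
    Finset.prod_primes_dvd M (fun p hp => (hP p (hS hp)).1.prime) (fun p hp => (hP p (hS hp)).2)
  rw [← sum_filter, sum_const, nsmul_eq_mul, bd_card_dvd hdvd hM, prod_div_distrib]
  push_cast
  ring

theorem bad_density {D w : ℕ} (hw : 1 ≤ w) (hwD : w ≤ D) :
    (((range D.factorial).filter (fun n => n.Coprime (primorial w) ∧ 1 / 4 < sp D n)).card : ℝ) ≤
      D.factorial * Real.exp (2 - (w : ℝ) / 4) := by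
  set P : Finset ℕ := (Ioc w D).filter Nat.Prime with hPdef
  have hP : ∀ p ∈ P, p.Prime ∧ p ∣ D.factorial := by
    intro p hp
    rw [hPdef, mem_filter, mem_Ioc] at hp
    exact ⟨hp.2, Nat.dvd_factorial hp.2.pos hp.1.2⟩
  have hM : 0 < D.factorial := Nat.factorial_pos D
  let g : ℕ → ℝ := fun p => Real.exp ((w : ℝ) / p) - 1
  have hg0 : ∀ p, 0 ≤ g p := by
    intro p
    have h : (0 : ℝ) ≤ (w : ℝ) / p := by positivity
    have := Real.add_one_le_exp ((w : ℝ) / p)
    show 0 ≤ Real.exp ((w : ℝ) / p) - 1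
    linarith
  -- pointwise bound
  have hpt : ∀ n, (if (n.Coprime (primorial w) ∧ 1 / 4 < sp D n) then (1 : ℝ) else 0) ≤
      Real.exp (-((w : ℝ) / 4)) * ∏ p ∈ P, (if p ∣ n then 1 + g p else 1) := by
    intro n
    have hprod0 : 0 ≤ ∏ p ∈ P, (if p ∣ n then 1 + g p else 1) := by
      refine prod_nonneg (fun p _ => ?_)
      split_ifs
      · linarith [hg0 p]
      · exact zero_le_one
    split_ifs with h
    · obtain ⟨hco, hsp⟩ := h
      have hsum : (w : ℝ) * sp D n = ∑ p ∈ P, (if p ∣ n then (w : ℝ) / p else 0) := by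
        rw [sp, mul_sum, ← sum_filter]
        refine sum_congr ?_ (fun p _ => by ring)
        ext p
        simp only [hPdef, mem_filter, mem_Icc, mem_Ioc]
        constructor
        · rintro ⟨⟨h1, h2⟩, h3, h4⟩
          refine ⟨⟨⟨?_, h2⟩, h3⟩, h4⟩
          by_contra hcon
          have h5 : p ∣ primorial w := by
            unfold primorial
            refine dvd_prod_of_mem _ ?_
            rw [mem_filter, mem_range]
            exact ⟨by omega, h3⟩
          have h6 := Nat.eq_one_of_dvd_coprimes hco h4 h5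
          exact h3.one_lt.ne' h6
        · rintro ⟨⟨⟨h1, h2⟩, h3⟩, h4⟩
          exact ⟨⟨h3.one_lt.le, h2⟩, h3, h4⟩
      have hexp : ∏ p ∈ P, (if p ∣ n then 1 + g p else 1) = Real.exp ((w : ℝ) * sp D n) := by
        rw [hsum, Real.exp_sum]
        refine prod_congr rfl (fun p _ => ?_)
        split_ifs
        · show 1 + (Real.exp ((w : ℝ) / p) - 1) = _
          ring
        · rw [Real.exp_zero]
      rw [hexp, ← Real.exp_add]
      have hw0 : (0 : ℝ) < w := by exact_mod_cast hw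
      have h1 : 0 ≤ -((w : ℝ) / 4) + (w : ℝ) * sp D n := by nlinarith
      exact Real.one_le_exp h1
    · exact mul_nonneg (Real.exp_pos _).le hprod0
  have hcard : (((range D.factorial).filter
      (fun n => n.Coprime (primorial w) ∧ 1 / 4 < sp D n)).card : ℝ) =
      ∑ n ∈ range D.factorial,
        (if (n.Coprime (primorial w) ∧ 1 / 4 < sp D n) then (1 : ℝ) else 0) := by
    rw [sum_boole]
  rw [hcard]
  refine (sum_le_sum (fun n _ => hpt n)).trans ?_
  rw [← mul_sum, bd_avg hM P hP g]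
  -- the product is at most `exp 2`
  have hprod : ∏ p ∈ P, (1 + g p / p) ≤ Real.exp 2 := by
    have h1 : ∏ p ∈ P, (1 + g p / p) ≤ ∏ p ∈ P, Real.exp (2 * (w : ℝ) * ((p : ℝ) ^ 2)⁻¹) := by
      refine prod_le_prod (fun p _ => ?_) (fun p hp => ?_)
      · have := hg0 p
        positivity
      · rw [hPdef, mem_filter, mem_Ioc] at hp
        have hp0 : (0 : ℝ) < p := by exact_mod_cast hp.2.pos
        have hle : (w : ℝ) / p ≤ 1 := by
          rw [div_le_one hp0]
          exact_mod_cast hp.1.1.le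
        have hnn : (0 : ℝ) ≤ (w : ℝ) / p := by positivity
        have h2 := Real.abs_exp_sub_one_le (x := (w : ℝ) / p) (by rw [abs_of_nonneg hnn]; exact hle)
        rw [abs_of_nonneg hnn] at h2
        have h3 : g p ≤ 2 * ((w : ℝ) / p) := (le_abs_self _).trans h2
        have h4 : 1 + g p / p ≤ 2 * (w : ℝ) * ((p : ℝ) ^ 2)⁻¹ + 1 := by
          have h5 : g p / p ≤ 2 * ((w : ℝ) / p) / p := div_le_div_of_nonneg_right h3 hp0.le
          have h6 : 2 * ((w : ℝ) / p) / p = 2 * (w : ℝ) * ((p : ℝ) ^ 2)⁻¹ := by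
            field_simp
          linarith
        exact h4.trans (Real.add_one_le_exp _)
    refine h1.trans ?_
    rw [← Real.exp_sum]
    refine Real.exp_le_exp.mpr ?_
    rw [← mul_sum]
    have hw0 : (0 : ℝ) < w := by exact_mod_cast hw
    have h2 : ∑ p ∈ P, ((p : ℝ) ^ 2)⁻¹ ≤ (w : ℝ)⁻¹ := by
      calc ∑ p ∈ P, ((p : ℝ) ^ 2)⁻¹ ≤ ∑ i ∈ Ioc w D, ((i : ℝ) ^ 2)⁻¹ :=
            sum_le_sum_of_subset_of_nonneg (filter_subset _ _) (fun i _ _ => by positivity)
        _ ≤ (w : ℝ)⁻¹ - (D : ℝ)⁻¹ := sum_Ioc_inv_sq_le_sub (by omega) hwD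
        _ ≤ (w : ℝ)⁻¹ := by
            have : (0 : ℝ) ≤ (D : ℝ)⁻¹ := by positivity
            linarith
    calc 2 * (w : ℝ) * ∑ p ∈ P, ((p : ℝ) ^ 2)⁻¹ ≤ 2 * (w : ℝ) * (w : ℝ)⁻¹ :=
          mul_le_mul_of_nonneg_left h2 (by positivity)
      _ = 2 := by field_simp
  calc Real.exp (-((w : ℝ) / 4)) * ((D.factorial : ℝ) * ∏ p ∈ P, (1 + g p / p))
      ≤ Real.exp (-((w : ℝ) / 4)) * ((D.factorial : ℝ) * Real.exp 2) := by
        refine mul_le_mul_of_nonneg_left ?_ (Real.exp_pos _).le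
        exact mul_le_mul_of_nonneg_left hprod (Nat.cast_nonneg _)
    _ = D.factorial * Real.exp (2 - (w : ℝ) / 4) := by
        rw [sub_eq_add_neg, Real.exp_add]
        ring

end SES
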