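import Mathlib

/-!
# Module N: Bonferroni inequality on an interval
-/

set_option autoImplicit false

namespace SES

open Finset

private theorem bonf_sum_card {ε : Type*} [DecidableEq ε] (S : Finset ε) (m : ℕ) (f : ℕ → ℝ) :
    ∑ J ∈ S.powerset.filter (fun J => J.card ≤ m), f J.card =
      ∑ j ∈ range (m + 1), (S.card.choose j : ℝ) * f j := by
  have h1 : ∀ J ∈ S.powerset.filter (fun J => J.card ≤ m), J.card ∈ range (m + 1) := by
    intro J hJ
    rw [mem_range]
    have := (mem_filter.1 hJ).2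
    omega
  rw [← sum_fiberwise_of_maps_to h1]
  refine sum_congr rfl fun j hj => ?_
  rw [mem_range] at hj
  have h2 : (S.powerset.filter (fun J => J.card ≤ m)).filter (fun J => J.card = j) =
      powersetCard j S := by
    ext J
    rw [mem_filter, mem_filter, mem_powersetCard, mem_powerset]
    constructor
    · rintro ⟨⟨h3, _⟩, h4⟩
      exact ⟨h3, h4⟩
    · rintro ⟨h3, h4⟩
      exact ⟨⟨h3, by omega⟩, h4⟩
  rw [h2, sum_congr rfl fun J hJ => by rw [(mem_powersetCard.1 hJ).2], sum_const,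
    card_powersetCard, nsmul_eq_mul]

private theorem bonf_card_le {ε : Type*} [DecidableEq ε] (S : Finset ε) (m : ℕ) :
    ((S.powerset.filter (fun J => J.card ≤ m)).card : ℝ) ≤ (1 + (S.card : ℝ)) ^ m := by
  have h1 := bonf_sum_card S m (fun _ => 1)
  simp only [sum_const, nsmul_eq_mul, mul_one] at h1
  rw [h1, show (1 : ℝ) + S.card = S.card + 1 from add_comm _ _, add_pow]
  refine sum_le_sum fun j hj => ?_
  rw [mem_range] at hj
  rw [one_pow, mul_one]
  have h2 : ((S.card.choose j : ℕ) : ℝ) ≤ (S.card : ℝ) ^ j := by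
    exact_mod_cast Nat.choose_le_pow S.card j
  have h3 : (1 : ℝ) ≤ (m.choose j : ℕ) := by
    exact_mod_cast Nat.choose_pos (by omega)
  calc ((S.card.choose j : ℕ) : ℝ) ≤ (S.card : ℝ) ^ j * 1 := by rw [mul_one]; exact h2
    _ ≤ (S.card : ℝ) ^ j * (m.choose j : ℕ) := mul_le_mul_of_nonneg_left h3 (by positivity)

/-- the truncated alternating sum -/
private noncomputable def bonf_T (r z : ℕ) : ℝ :=
  ∑ j ∈ range (2 * r + 1), (z.choose j : ℝ) * (-1) ^ j

private theorem bonf_T_zero (r : ℕ) : bonf_T r 0 = 1 := by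
  unfold bonf_T
  rw [sum_range_succ']
  simp

private theorem bonf_T_succ (r z : ℕ) : bonf_T r (z + 1) = (z.choose (2 * r) : ℕ) := by
  have h1 := @Int.alternating_sum_range_choose_eq_choose z (2 * r)
  have h2 : bonf_T r (z + 1) =
      ((∑ i ∈ range (2 * r + 1), ((-1) ^ i * ((z + 1).choose i : ℤ)) : ℤ) : ℝ) := by
    unfold bonf_T
    push_cast
    refine sum_congr rfl fun j _ => ?_
    ring
  rw [h2, h1]
  rw [pow_mul]
  simp

private theorem bonf_T_ge (r z : ℕ) : (if z = 0 then (1 : ℝ) else 0) ≤ bonf_T r z := by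
  rcases z with _ | z
  · rw [if_pos rfl, bonf_T_zero]
  · rw [if_neg (Nat.succ_ne_zero z), bonf_T_succ]
    positivity

private theorem bonf_T_le (r z : ℕ) :
    bonf_T r z ≤ (if z = 0 then (1 : ℝ) else 0) + (z.choose (2 * r) : ℕ) := by
  rcases z with _ | z
  · rw [if_pos rfl, bonf_T_zero]
    have : (0 : ℝ) ≤ (Nat.choose 0 (2 * r) : ℕ) := by positivity
    linarith
  · rw [if_neg (Nat.succ_ne_zero z), bonf_T_succ, zero_add]
    exact_mod_cast Nat.choose_le_choose (2 * r) (Nat.le_succ z)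

private theorem bonf_swap {ε : Type*} [DecidableEq ε] (E : Finset ε) (H : ℕ → ε → Prop)
    [∀ n e, Decidable (H n e)] (G : ℕ → Prop) [DecidablePred G] (A : Finset ℕ) (r : ℕ) :
    ∑ J ∈ E.powerset.filter (fun J => J.card ≤ 2 * r),
        (-1 : ℝ) ^ J.card * ((A.filter (fun n => G n ∧ ∀ e ∈ J, H n e)).card : ℝ) =
      ∑ n ∈ A.filter G, bonf_T r (E.filter (H n)).card := by
  have h1 : ∀ J : Finset ε, ((A.filter (fun n => G n ∧ ∀ e ∈ J, H n e)).card : ℝ) =
      ∑ n ∈ A.filter G, if ∀ e ∈ J, H n e then (1 : ℝ) else 0 := by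
    intro J
    rw [← filter_filter, ← sum_filter, sum_const, nsmul_eq_mul, mul_one]
  simp only [h1, mul_sum]
  rw [sum_comm]
  refine sum_congr rfl fun n _ => ?_
  have h2 := bonf_sum_card (E.filter (H n)) (2 * r) (fun j => (-1 : ℝ) ^ j)
  unfold bonf_T
  rw [← h2]
  have h3 : (E.filter (H n)).powerset.filter (fun J => J.card ≤ 2 * r) =
      (E.powerset.filter (fun J => J.card ≤ 2 * r)).filter (fun J => ∀ e ∈ J, H n e) := by
    ext J
    rw [mem_filter, mem_filter, mem_filter, mem_powerset, mem_powerset]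
    constructor
    · rintro ⟨h4, h5⟩
      exact ⟨⟨h4.trans (filter_subset _ _), h5⟩, fun e he => (mem_filter.1 (h4 he)).2⟩
    · rintro ⟨⟨h4, h5⟩, h6⟩
      exact ⟨fun e he => mem_filter.2 ⟨h4 he, h6 e he⟩, h5⟩
  rw [h3]
  conv_rhs => rw [sum_filter]
  refine sum_congr rfl fun J _ => ?_
  split_ifs <;> simp

theorem bonf {ε : Type*} [DecidableEq ε] (E : Finset ε) (H : ℕ → ε → Prop)
    [∀ n e, Decidable (H n e)] (G : ℕ → Prop) [DecidablePred G] (M N r : ℕ) (Δ : ℝ)
    (hdisc : ∀ J ⊆ E, |(((range N).filter (fun n => G n ∧ ∀ e ∈ J, H n e)).card : ℝ) -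
      (N : ℝ) / M * ((range M).filter (fun n => G n ∧ ∀ e ∈ J, H n e)).card| ≤ Δ) :
    (((range N).filter (fun n => G n ∧ ∀ e ∈ E, ¬ H n e)).card : ℝ) ≤
      (N : ℝ) / M * ∑ n ∈ (range M).filter G,
        ((if ∀ e ∈ E, ¬ H n e then (1 : ℝ) else 0) + ((E.filter (H n)).card.choose (2 * r) : ℕ)) +
      Δ * (1 + (E.card : ℝ)) ^ (2 * r) := by
  have hz : ∀ n, (∀ e ∈ E, ¬ H n e) ↔ (E.filter (H n)).card = 0 := by
    intro n
    rw [card_eq_zero, filter_eq_empty_iff]
  have hΔ : 0 ≤ Δ := (abs_nonneg _).trans (hdisc ∅ (empty_subset _))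
  have h1 : (((range N).filter (fun n => G n ∧ ∀ e ∈ E, ¬ H n e)).card : ℝ) ≤
      ∑ n ∈ (range N).filter G, bonf_T r (E.filter (H n)).card := by
    rw [← filter_filter, card_filter]
    push_cast
    refine sum_le_sum fun n _ => ?_
    refine le_trans (le_of_eq ?_) (bonf_T_ge r _)
    by_cases h : ∀ e ∈ E, ¬ H n e
    · rw [if_pos h, if_pos ((hz n).1 h)]
    · rw [if_neg h, if_neg (fun h' => h ((hz n).2 h'))]
  have h2 : ∑ n ∈ (range M).filter G, bonf_T r (E.filter (H n)).card ≤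
      ∑ n ∈ (range M).filter G,
        ((if ∀ e ∈ E, ¬ H n e then (1 : ℝ) else 0) +
          ((E.filter (H n)).card.choose (2 * r) : ℕ)) := by
    refine sum_le_sum fun n _ => ?_
    refine (bonf_T_le r _).trans (le_of_eq ?_)
    congr 1
    by_cases h : ∀ e ∈ E, ¬ H n e
    · rw [if_pos h, if_pos ((hz n).1 h)]
    · rw [if_neg h, if_neg (fun h' => h ((hz n).2 h'))]
  have h3 : ∑ n ∈ (range N).filter G, bonf_T r (E.filter (H n)).card ≤
      (N : ℝ) / M * ∑ n ∈ (range M).filter G, bonf_T r (E.filter (H n)).card +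
        Δ * (1 + (E.card : ℝ)) ^ (2 * r) := by
    rw [← bonf_swap E H G (range N) r, ← bonf_swap E H G (range M) r, mul_sum]
    have h4 : ∀ J ∈ E.powerset.filter (fun J => J.card ≤ 2 * r),
        (-1 : ℝ) ^ J.card * (((range N).filter (fun n => G n ∧ ∀ e ∈ J, H n e)).card : ℝ) ≤
        (N : ℝ) / M * ((-1 : ℝ) ^ J.card *
          (((range M).filter (fun n => G n ∧ ∀ e ∈ J, H n e)).card : ℝ)) + Δ := by
      intro J hJ
      have h5 := hdisc J (mem_powerset.1 (mem_filter.1 hJ).1)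
      rw [abs_le] at h5
      rcases neg_one_pow_eq_or ℝ J.card with h6 | h6
      · rw [h6]
        linarith
      · rw [h6]
        linarith
    refine (sum_le_sum h4).trans ?_
    rw [sum_add_distrib, sum_const, nsmul_eq_mul]
    have h7 := mul_le_mul_of_nonneg_left (bonf_card_le E (2 * r)) hΔ
    linarith
  have h8 : (0 : ℝ) ≤ (N : ℝ) / M := by positivity
  have h9 := mul_le_mul_of_nonneg_left h2 h8
  linarith

end SES
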