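import Pool.Agent.Lib.DigitChanges.InertPrimes

/-!
# Module B1: the Mertens sum of a nonprincipal character is bounded
-/

set_option autoImplicit false

namespace SES

open Finset

/-- Abel summation -/
lemma cabel (a : ℕ → ℂ) (g : ℕ → ℝ) (B : ℝ) (hg : ∀ i, g (i + 1) ≤ g i) (hg0 : ∀ i, 0 ≤ g i)
    (hB : ∀ n, ‖∑ i ∈ range n, a i‖ ≤ B) (n : ℕ) :
    ‖∑ i ∈ range n, a i * (g i : ℂ)‖ ≤ B * g 0 := by
  have h1 : ∀ n : ℕ, ∑ i ∈ range n, a i * (g i : ℂ) = (∑ i ∈ range n, a i) * (g n : ℂ) +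
      ∑ i ∈ range n, (∑ j ∈ range (i + 1), a j) * ((g i - g (i + 1) : ℝ) : ℂ) := by
    intro n
    induction n with
    | zero => simp
    | succ n ih =>
      rw [sum_range_succ, ih, sum_range_succ (fun i => (∑ j ∈ range (i + 1), a j) *
        ((g i - g (i + 1) : ℝ) : ℂ)), sum_range_succ a]
      push_cast
      ring
  have h2 : ∑ i ∈ range n, (g i - g (i + 1)) = g 0 - g n := sum_range_sub' g n
  rw [h1]
  refine (norm_add_le _ _).trans ?_
  have h3 : ‖(∑ i ∈ range n, a i) * (g n : ℂ)‖ ≤ B * g n := by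
    rw [norm_mul, Complex.norm_real, Real.norm_eq_abs, abs_of_nonneg (hg0 n)]
    exact mul_le_mul_of_nonneg_right (hB n) (hg0 n)
  have h4 : ‖∑ i ∈ range n, (∑ j ∈ range (i + 1), a j) * ((g i - g (i + 1) : ℝ) : ℂ)‖ ≤
      B * (g 0 - g n) := by
    rw [← h2, mul_sum]
    refine (norm_sum_le _ _).trans (sum_le_sum fun i _ => ?_)
    rw [norm_mul, Complex.norm_real, Real.norm_eq_abs, abs_of_nonneg (by linarith [hg i])]
    exact mul_le_mul_of_nonneg_right (hB (i + 1)) (by linarith [hg i])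
  linarith

variable {k : ℕ} [NeZero k]

lemma sum_period (χ : DirichletCharacter ℂ k) (hχ : χ ≠ 1) (M : ℕ) :
    ∑ i ∈ range k, χ ((M + i : ℕ) : ZMod k) = 0 := by
  have h1 : ∑ i ∈ range k, χ ((M + i : ℕ) : ZMod k) = ∑ a : ZMod k, χ a := by
    refine sum_bij (fun i _ => ((M + i : ℕ) : ZMod k)) (fun _ _ => mem_univ _) ?_ ?_
      (fun _ _ => rfl)
    · intro i hi j hj h
      rw [mem_range] at hi hj
      rw [ZMod.natCast_eq_natCast_iff] at h
      have h2 : i ≡ j [MOD k] := Nat.ModEq.add_left_cancel' M h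
      exact Nat.ModEq.eq_of_lt_of_lt h2 hi hj
    · intro b _
      refine ⟨(b - (M : ZMod k)).val, mem_range.2 (ZMod.val_lt _), ?_⟩
      push_cast
      rw [ZMod.natCast_zmod_val]
      ring
  rw [h1]
  exact MulChar.sum_eq_zero_of_ne_one hχ

lemma char_sum_bound (χ : DirichletCharacter ℂ k) (hχ : χ ≠ 1) (M n : ℕ) :
    ‖∑ i ∈ range n, χ ((M + i : ℕ) : ZMod k)‖ ≤ k := by
  induction n using Nat.strong_induction_on generalizing M with
  | _ n ih =>
    by_cases h : n < k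
    · refine (norm_sum_le _ _).trans ?_
      calc ∑ i ∈ range n, ‖χ ((M + i : ℕ) : ZMod k)‖ ≤ ∑ i ∈ range n, (1 : ℝ) :=
            sum_le_sum fun i _ => DirichletCharacter.norm_le_one χ _
        _ = n := by simp
        _ ≤ k := by exact_mod_cast h.le
    · push Not at h
      have hk : 0 < k := Nat.pos_of_ne_zero (NeZero.ne k)
      obtain ⟨m, rfl⟩ : ∃ m, n = k + m := ⟨n - k, by omega⟩
      rw [sum_range_add, sum_period χ hχ, zero_add]
      have h2 : ∑ x ∈ range m, χ ((M + (k + x) : ℕ) : ZMod k) =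
          ∑ x ∈ range m, χ ((M + x : ℕ) : ZMod k) := by
        refine sum_congr rfl fun x _ => ?_
        congr 1
        push_cast
        rw [ZMod.natCast_self]
        ring
      rw [h2]
      exact ih m (by omega) M

/-- partial sums of `L(1, χ)` -/
noncomputable def XS (χ : DirichletCharacter ℂ k) (N : ℕ) : ℂ := ∑ m ∈ Ioc 0 N, χ m / m

lemma tail_bound (χ : DirichletCharacter ℂ k) (hχ : χ ≠ 1) {σ : ℝ} (hσ : 0 < σ) (y : ℕ) :
    ‖DirichletCharacter.LFunction χ (1 + σ) -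
      ∑ m ∈ Ioc 0 y, χ m * (((m : ℝ) ^ (-(1 + σ)) : ℝ) : ℂ)‖ ≤ k / (y + 1) := by
  have hs : 1 < (1 + (σ : ℂ)).re := by simp [hσ]
  rw [DirichletCharacter.LFunction_eq_LSeries χ hs]
  have hsum : LSeriesSummable (fun n => χ n) (1 + (σ : ℂ)) :=
    DirichletCharacter.LSeriesSummable_of_one_lt_re χ hs
  have h1 := (Filter.tendsto_add_atTop_iff_nat (y + 1)).2 hsum.hasSum.tendsto_sum_nat
  have hterm : ∀ n : ℕ, LSeries.term (fun n => χ n) (1 + (σ : ℂ)) n =
      χ n * (((n : ℝ) ^ (-(1 + σ)) : ℝ) : ℂ) := by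
    intro n
    rcases Nat.eq_zero_or_pos n with h0 | h0
    · subst h0
      simp only [LSeries.term_zero, Nat.cast_zero]
      rw [Real.zero_rpow (by linarith)]
      simp
    · rw [LSeries.term_of_ne_zero h0.ne', Complex.ofReal_cpow (Nat.cast_nonneg n)]
      push_cast
      rw [Complex.cpow_neg, div_eq_mul_inv]
  have h2 : Filter.Tendsto (fun n : ℕ => ‖∑ i ∈ range (n + (y + 1)),
      LSeries.term (fun n => χ n) (1 + (σ : ℂ)) i -
      ∑ m ∈ Ioc 0 y, χ m * (((m : ℝ) ^ (-(1 + σ)) : ℝ) : ℂ)‖) Filter.atTop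
      (nhds ‖LSeries (fun n => χ n) (1 + (σ : ℂ)) -
        ∑ m ∈ Ioc 0 y, χ m * (((m : ℝ) ^ (-(1 + σ)) : ℝ) : ℂ)‖) :=
    (h1.sub_const _).norm
  refine le_of_tendsto h2 (Filter.Eventually.of_forall fun n => ?_)
  have h3 : ∑ i ∈ range (n + (y + 1)), LSeries.term (fun n => χ n) (1 + (σ : ℂ)) i -
      ∑ m ∈ Ioc 0 y, χ m * (((m : ℝ) ^ (-(1 + σ)) : ℝ) : ℂ) =
      ∑ i ∈ range n, χ ((y + 1 + i : ℕ) : ZMod k) *
        ((((y + 1 + i : ℕ) : ℝ) ^ (-(1 + σ)) : ℝ) : ℂ) := by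
    rw [add_comm n (y + 1), sum_range_add]
    have h4 : ∑ x ∈ range (y + 1), LSeries.term (fun n => χ n) (1 + (σ : ℂ)) x =
        ∑ m ∈ Ioc 0 y, χ m * (((m : ℝ) ^ (-(1 + σ)) : ℝ) : ℂ) := by
      rw [sum_range_succ', LSeries.term_zero, add_zero, ← Finset.Ico_add_one_add_one_eq_Ioc,
        sum_Ico_eq_sum_range]
      simp only [zero_add, Nat.add_sub_cancel]
      refine sum_congr rfl fun i _ => ?_
      rw [hterm, add_comm i 1]
    rw [h4, add_sub_cancel_left]
    refine sum_congr rfl fun i _ => hterm _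
  rw [h3]
  have h5 := cabel (fun i => χ ((y + 1 + i : ℕ) : ZMod k))
    (fun i => ((y + 1 + i : ℕ) : ℝ) ^ (-(1 + σ))) k
    (fun i => by
      refine Real.rpow_le_rpow_of_nonpos (by positivity) ?_ (by linarith)
      push_cast; linarith)
    (fun i => by positivity) (fun n => char_sum_bound χ hχ (y + 1) n) n
  refine h5.trans ?_
  rw [div_eq_mul_inv]
  refine mul_le_mul_of_nonneg_left ?_ (Nat.cast_nonneg k)
  have h6 : (1 : ℝ) ≤ ((y + 1 + 0 : ℕ) : ℝ) := by
    push_cast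
    have : (0 : ℝ) ≤ y := Nat.cast_nonneg y
    linarith
  calc ((y + 1 + 0 : ℕ) : ℝ) ^ (-(1 + σ)) ≤ ((y + 1 + 0 : ℕ) : ℝ) ^ (-1 : ℝ) :=
        Real.rpow_le_rpow_of_exponent_le h6 (by linarith)
    _ = ((y : ℝ) + 1)⁻¹ := by rw [Real.rpow_neg_one]; push_cast; simp

lemma XS_bound (χ : DirichletCharacter ℂ k) (hχ : χ ≠ 1) (y : ℕ) :
    ‖DirichletCharacter.LFunction χ 1 - XS χ y‖ ≤ k / (y + 1) := by
  have hc : Filter.Tendsto (fun σ : ℝ => ((1 : ℂ) + σ)) (nhdsWithin 0 (Set.Ioi 0)) (nhds 1) := by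
    have h1 : Filter.Tendsto (fun σ : ℝ => ((1 : ℂ) + σ)) (nhds 0) (nhds (1 + ((0 : ℝ) : ℂ))) :=
      (continuous_const.add Complex.continuous_ofReal).tendsto 0
    rw [Complex.ofReal_zero, add_zero] at h1
    exact h1.mono_left nhdsWithin_le_nhds
  have h1 : Filter.Tendsto (fun σ : ℝ => DirichletCharacter.LFunction χ (1 + σ))
      (nhdsWithin 0 (Set.Ioi 0)) (nhds (DirichletCharacter.LFunction χ 1)) :=
    (((DirichletCharacter.differentiable_LFunction hχ).continuous).tendsto 1).comp hc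
  have h2 : Filter.Tendsto (fun σ : ℝ => ∑ m ∈ Ioc 0 y, χ m * (((m : ℝ) ^ (-(1 + σ)) : ℝ) : ℂ))
      (nhdsWithin 0 (Set.Ioi 0)) (nhds (XS χ y)) := by
    unfold XS
    refine tendsto_finsetSum _ fun m hm => ?_
    rw [mem_Ioc] at hm
    have hm0 : (0 : ℝ) < m := by exact_mod_cast hm.1
    rw [div_eq_mul_inv]
    refine Filter.Tendsto.const_mul _ ?_
    have h3 : Filter.Tendsto (fun σ : ℝ => (m : ℝ) ^ (-(1 + σ))) (nhds 0)
        (nhds ((m : ℝ) ^ (-(1 + (0 : ℝ))))) :=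
      (Real.continuous_const_rpow hm0.ne').tendsto _ |>.comp
        ((continuous_const.add continuous_id).neg.tendsto 0)
    have h4 := (Complex.continuous_ofReal.tendsto _).comp h3
    rw [add_zero, Real.rpow_neg_one, Complex.ofReal_inv, Complex.ofReal_natCast] at h4
    exact h4.mono_left nhdsWithin_le_nhds
  refine le_of_tendsto (h1.sub h2).norm ?_
  filter_upwards [self_mem_nhdsWithin] with σ hσ
  exact tail_bound χ hχ hσ y

/-- `∑ χ(n) log n / n` is bounded -/
lemma log_bound (χ : DirichletCharacter ℂ k) (hχ : χ ≠ 1) (N : ℕ) :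
    ‖∑ n ∈ Ioc 0 N, χ n * (Real.log n : ℂ) / n‖ ≤ k + 1 := by
  have hk0 : (0 : ℝ) ≤ k := Nat.cast_nonneg k
  have hsmall : ∀ M : ℕ, M ≤ 2 → ‖∑ n ∈ Ioc 0 M, χ n * (Real.log n : ℂ) / n‖ ≤ 1 := by
    intro M hM
    have hl2 : ‖χ ((2 : ℕ) : ZMod k) * (Real.log ((2 : ℕ) : ℝ) : ℂ) / ((2 : ℕ) : ℂ)‖ ≤ 1 := by
      rw [norm_div, norm_mul, Complex.norm_real, Complex.norm_natCast, Real.norm_eq_abs,
        abs_of_nonneg (Real.log_natCast_nonneg 2)]
      have h1 := DirichletCharacter.norm_le_one χ ((2 : ℕ) : ZMod k)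
      have h2 : Real.log ((2 : ℕ) : ℝ) ≤ 1 := by
        have := Real.log_two_lt_d9
        push_cast; linarith
      have h3 : 0 ≤ Real.log ((2 : ℕ) : ℝ) := Real.log_natCast_nonneg 2
      rw [div_le_one (by norm_num)]
      have h4 := mul_le_mul h1 h2 h3 zero_le_one
      push_cast at h4 ⊢
      linarith
    interval_cases M
    · simp
    · rw [show Ioc 0 1 = {1} from rfl, sum_singleton]; simp
    · rw [show Ioc 0 2 = {1, 2} from rfl, sum_insert (by simp), sum_singleton]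
      refine le_trans (le_of_eq ?_) hl2
      congr 1
      simp
  by_cases h : N < 2
  · refine (hsmall N (by omega)).trans (by linarith)
  · push Not at h
    rw [← sum_Ioc_consecutive _ (Nat.zero_le 2) h]
    refine (norm_add_le _ _).trans ?_
    have h1 : ∑ n ∈ Ioc 2 N, χ n * (Real.log n : ℂ) / n =
        ∑ i ∈ range (N - 2), χ ((3 + i : ℕ) : ZMod k) *
          ((Real.log ((3 + i : ℕ) : ℝ) / ((3 + i : ℕ) : ℝ) : ℝ) : ℂ) := by
      rw [← Finset.Ico_add_one_add_one_eq_Ioc, sum_Ico_eq_sum_range,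
        show N + 1 - (2 + 1) = N - 2 by omega]
      refine sum_congr rfl fun i _ => ?_
      rw [show 2 + 1 + i = 3 + i by ring]
      push_cast
      ring
    rw [h1]
    have hanti := Real.log_div_self_antitoneOn
    have h3 := cabel (fun i => χ ((3 + i : ℕ) : ZMod k))
      (fun i => Real.log ((3 + i : ℕ) : ℝ) / ((3 + i : ℕ) : ℝ)) k
      (fun i => by
        have he := Real.exp_one_lt_d9
        refine hanti ?_ ?_ ?_
        · rw [Set.mem_Ici]; push_cast; have : (0 : ℝ) ≤ i := by positivity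
          linarith
        · rw [Set.mem_Ici]; push_cast; have : (0 : ℝ) ≤ i := by positivity
          linarith
        · push_cast; linarith)
      (fun i => div_nonneg (Real.log_natCast_nonneg _) (Nat.cast_nonneg _))
      (fun n => char_sum_bound χ hχ 3 n) (N - 2)
    have h4 : Real.log 3 ≤ 3 - 1 := Real.log_le_sub_one_of_pos (by norm_num)
    have h5 : (k : ℝ) * (Real.log ((3 + 0 : ℕ) : ℝ) / ((3 + 0 : ℕ) : ℝ)) ≤ k := by
      refine mul_le_of_le_one_right hk0 ?_
      push_cast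
      linarith
    have h6 := hsmall 2 le_rfl
    linarith

omit [NeZero k] in
/-- the convolution identity -/
lemma conv_identity (χ : DirichletCharacter ℂ k) (N : ℕ) :
    ∑ n ∈ Ioc 0 N, χ n * (Real.log n : ℂ) / n =
    ∑ d ∈ Ioc 0 N, (χ d * (ArithmeticFunction.vonMangoldt d : ℂ) / d) * XS χ (N / d) := by
  let f : ArithmeticFunction ℂ :=
    ⟨fun n => χ n * (ArithmeticFunction.vonMangoldt n : ℂ) / n, by simp⟩
  let g : ArithmeticFunction ℂ := ⟨fun n => χ n / n, by simp⟩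
  have h := ArithmeticFunction.sum_Ioc_mul_eq_sum_sum f g N
  have hR : ∑ n ∈ Ioc 0 N, f n * ∑ m ∈ Ioc 0 (N / n), g m =
      ∑ d ∈ Ioc 0 N, (χ d * (ArithmeticFunction.vonMangoldt d : ℂ) / d) * XS χ (N / d) := rfl
  rw [← hR, ← h]
  refine sum_congr rfl fun n hn => ?_
  rw [mem_Ioc] at hn
  rw [ArithmeticFunction.mul_apply]
  have h2 : ∀ x ∈ n.divisorsAntidiagonal, f x.1 * g x.2 =
      χ n / n * (ArithmeticFunction.vonMangoldt x.1 : ℂ) := by
    rintro ⟨d, m⟩ hx
    rw [Nat.mem_divisorsAntidiagonal] at hx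
    simp only at hx
    change χ d * (ArithmeticFunction.vonMangoldt d : ℂ) / d * (χ m / m) =
      χ n / n * (ArithmeticFunction.vonMangoldt d : ℂ)
    rw [← hx.1]
    push_cast
    rw [map_mul]
    have hd : (d : ℂ) ≠ 0 := by
      rintro h0
      have : d = 0 := by exact_mod_cast h0
      apply hx.2; rw [← hx.1, this, zero_mul]
    have hm : (m : ℂ) ≠ 0 := by
      rintro h0
      have : m = 0 := by exact_mod_cast h0
      apply hx.2; rw [← hx.1, this, mul_zero]
    field_simp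
  rw [sum_congr rfl h2, ← mul_sum]
  have h3 : ∑ x ∈ n.divisorsAntidiagonal, (ArithmeticFunction.vonMangoldt x.1 : ℂ) =
      (Real.log n : ℂ) := by
    rw [← ArithmeticFunction.vonMangoldt_sum]
    push_cast
    exact Nat.sum_divisorsAntidiagonal (fun i _ => (ArithmeticFunction.vonMangoldt i : ℂ))
  rw [h3]
  ring

theorem char_mertens (χ : DirichletCharacter ℂ k) (hχ : χ ≠ 1) :
    ∃ C : ℝ, ∀ N : ℕ,
      ‖∑ d ∈ Ioc 0 N, χ d * (ArithmeticFunction.vonMangoldt d : ℂ) / d‖ ≤ C := by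
  set L := DirichletCharacter.LFunction χ 1 with hL
  have hL0 : L ≠ 0 := DirichletCharacter.LFunction_apply_one_ne_zero hχ
  have hLn : 0 < ‖L‖ := norm_pos_iff.2 hL0
  have hk0 : (0 : ℝ) ≤ k := Nat.cast_nonneg k
  refine ⟨(7 * k + 1) / ‖L‖, fun N => ?_⟩
  rw [le_div_iff₀ hLn]
  rcases Nat.eq_zero_or_pos N with h0 | hN
  · subst h0; simp; positivity
  have hN' : (0 : ℝ) < N := by exact_mod_cast hN
  have h1 := log_bound χ hχ N
  rw [conv_identity] at h1
  rw [← norm_mul]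
  have h2 : (∑ d ∈ Ioc 0 N, χ d * (ArithmeticFunction.vonMangoldt d : ℂ) / d) * L =
      ∑ d ∈ Ioc 0 N, (χ d * (ArithmeticFunction.vonMangoldt d : ℂ) / d) * XS χ (N / d) +
      ∑ d ∈ Ioc 0 N, (χ d * (ArithmeticFunction.vonMangoldt d : ℂ) / d) *
        (L - XS χ (N / d)) := by
    rw [sum_mul, ← sum_add_distrib]
    refine sum_congr rfl fun d _ => ?_
    ring
  have h3 : ‖∑ d ∈ Ioc 0 N, (χ d * (ArithmeticFunction.vonMangoldt d : ℂ) / d) *
        (L - XS χ (N / d))‖ ≤ 6 * k := by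
    refine (norm_sum_le _ _).trans ?_
    have h4 : ∀ d ∈ Ioc 0 N, ‖(χ d * (ArithmeticFunction.vonMangoldt d : ℂ) / d) *
        (L - XS χ (N / d))‖ ≤ k / N * ArithmeticFunction.vonMangoldt d := by
      intro d hd
      rw [mem_Ioc] at hd
      have hd0 : (0 : ℝ) < d := by exact_mod_cast hd.1
      have hΛ : 0 ≤ ArithmeticFunction.vonMangoldt d := ArithmeticFunction.vonMangoldt_nonneg
      rw [norm_mul, norm_div, norm_mul, Complex.norm_real, Complex.norm_natCast,
        Real.norm_eq_abs, abs_of_nonneg hΛ]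
      have h5 : ‖χ (d : ZMod k)‖ * ArithmeticFunction.vonMangoldt d / d ≤
          ArithmeticFunction.vonMangoldt d / d := by
        apply div_le_div_of_nonneg_right _ hd0.le
        exact mul_le_of_le_one_left hΛ (DirichletCharacter.norm_le_one χ _)
      have h6 : ‖L - XS χ (N / d)‖ ≤ k * d / N := by
        refine (XS_bound χ hχ (N / d)).trans ?_
        rw [div_le_div_iff₀ (by positivity) hN']
        have h7 : N < d * (N / d + 1) := Nat.lt_mul_div_succ N hd.1
        have h8 : (N : ℝ) ≤ d * (((N / d : ℕ) : ℝ) + 1) := by exact_mod_cast h7.le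
        calc (k : ℝ) * N ≤ k * (d * (((N / d : ℕ) : ℝ) + 1)) := by gcongr
          _ = k * d * (((N / d : ℕ) : ℝ) + 1) := by ring
      calc ‖χ (d : ZMod k)‖ * ArithmeticFunction.vonMangoldt d / d * ‖L - XS χ (N / d)‖
          ≤ ArithmeticFunction.vonMangoldt d / d * (k * d / N) :=
            mul_le_mul h5 h6 (norm_nonneg _) (by positivity)
        _ = k / N * ArithmeticFunction.vonMangoldt d := by field_simp
    refine (sum_le_sum h4).trans ?_
    rw [← mul_sum]
    have h9 := Pool.Agent.DigitChanges.psi_nat_le N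
    calc (k : ℝ) / (N : ℝ) * ∑ d ∈ Ioc 0 N, ArithmeticFunction.vonMangoldt d ≤
          k / N * (6 * N) := mul_le_mul_of_nonneg_left h9 (by positivity)
      _ = 6 * k := by field_simp
  rw [h2]
  refine (norm_add_le _ _).trans ?_
  linarith

end SES
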