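import Mathlib

/-!
# Module F: reciprocal sums over a residue class
-/

set_option autoImplicit false

namespace SES

open Finset

/-- number of steps since the last element of the class -/
private def rho (m α x : ℕ) : ℕ := (x + (m - α % m)) % m

private lemma rho_lt {m : ℕ} (hm : 1 ≤ m) (α x : ℕ) : rho m α x < m := Nat.mod_lt _ hm

private lemma rho_zero_iff {m : ℕ} (hm : 1 ≤ m) (α x : ℕ) : rho m α x = 0 ↔ x ≡ α [MOD m] := by
  have h1 : α + (m - α % m) ≡ 0 [MOD m] := by
    have h2 : α % m < m := Nat.mod_lt _ hm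
    have h3 : α + (m - α % m) = m * (α / m) + m := by
      have := Nat.div_add_mod α m
      omega
    rw [h3]
    unfold Nat.ModEq
    simp
  have h4 : rho m α x = 0 ↔ x + (m - α % m) ≡ 0 [MOD m] := by
    unfold rho Nat.ModEq
    rw [Nat.zero_mod]
  rw [h4]
  constructor
  · intro h
    exact Nat.ModEq.add_right_cancel' (m - α % m) (h.trans h1.symm)
  · intro h
    exact (Nat.ModEq.add_right _ h).trans h1

private lemma rho_succ {m : ℕ} (hm : 1 ≤ m) (α x : ℕ) :
    (rho m α x + 1 < m ∧ rho m α (x + 1) = rho m α x + 1 ∧ ¬ (x + 1 ≡ α [MOD m])) ∨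
      (rho m α x + 1 = m ∧ rho m α (x + 1) = 0 ∧ x + 1 ≡ α [MOD m]) := by
  have h1 := rho_lt hm α x
  have h2 : rho m α (x + 1) = (rho m α x + 1) % m := by
    unfold rho
    rw [Nat.mod_add_mod]
    congr 1
    omega
  rcases Nat.lt_or_ge (rho m α x + 1) m with h | h
  · left
    have h3 : rho m α (x + 1) = rho m α x + 1 := by rw [h2, Nat.mod_eq_of_lt h]
    refine ⟨h, h3, ?_⟩
    rw [← rho_zero_iff hm, h3]
    omega
  · right
    have h4 : rho m α x + 1 = m := by omega
    have h3 : rho m α (x + 1) = 0 := by rw [h2, h4, Nat.mod_self]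
    exact ⟨h4, h3, (rho_zero_iff hm α _).mp h3⟩

private lemma log_step {x : ℕ} (hx : 1 ≤ x) :
    1 / ((x : ℝ) + 1) ≤ Real.log ((x : ℝ) + 1) - Real.log x ∧
      Real.log ((x : ℝ) + 1) - Real.log x ≤ 1 / (x : ℝ) := by
  have h0 : (0 : ℝ) < x := by exact_mod_cast hx
  rw [← Real.log_div (by positivity) (by positivity)]
  constructor
  · refine le_trans ?_ (Real.one_sub_inv_le_log_of_pos (by positivity))
    rw [inv_div]
    apply le_of_eq
    field_simp
    ring
  · refine (Real.log_le_sub_one_of_pos (by positivity)).trans ?_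
    apply le_of_eq
    field_simp
    ring

private lemma upper_aux {A m : ℕ} (α : ℕ) (hA : 1 ≤ A) (hm : 1 ≤ m) (x : ℕ) (hx : A ≤ x) :
    (∑ a ∈ Ioc A x, if a ≡ α [MOD m] then (1 : ℝ) / a else 0) + rho m α x / (m * x) ≤
      (Real.log x - Real.log A) / m + 1 / A := by
  have hm0 : (0 : ℝ) < m := by exact_mod_cast hm
  induction x, hx using Nat.le_induction with
  | base =>
    have hA0 : (0 : ℝ) < A := by exact_mod_cast hA
    rw [Ioc_self, sum_empty, sub_self, zero_div, zero_add, zero_add]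
    have h1 : (rho m α A : ℝ) ≤ m := by exact_mod_cast (rho_lt hm α A).le
    rw [div_le_div_iff₀ (by positivity) hA0]
    nlinarith
  | succ x hx ih =>
    have hx0 : (0 : ℝ) < x := by exact_mod_cast (le_trans hA hx)
    rw [sum_Ioc_succ_top hx]
    obtain ⟨hl1, _⟩ := log_step (le_trans hA hx)
    have hl2 : 1 / ((x : ℝ) + 1) / m ≤ (Real.log ((x : ℝ) + 1) - Real.log x) / m :=
      div_le_div_of_nonneg_right hl1 hm0.le
    have hl3 : (Real.log ((x + 1 : ℕ) : ℝ) - Real.log A) / m =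
        (Real.log x - Real.log A) / m + (Real.log ((x : ℝ) + 1) - Real.log x) / m := by
      push_cast; ring
    rw [hl3]
    have hmono : ∀ r : ℝ, 0 ≤ r → r / (m * ((x : ℝ) + 1)) ≤ r / (m * x) := by
      intro r hr
      apply div_le_div_of_nonneg_left hr (by positivity)
      nlinarith
    rcases rho_succ hm α x with ⟨_, h2, h3⟩ | ⟨h1, h2, h3⟩
    · rw [if_neg h3, h2]
      push_cast
      have h4 := hmono (rho m α x) (by positivity)
      have h5 : ((rho m α x : ℝ) + 1) / (m * ((x : ℝ) + 1)) =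
          (rho m α x : ℝ) / (m * ((x : ℝ) + 1)) + 1 / ((x : ℝ) + 1) / m := by
        rw [add_div, div_div, mul_comm ((x : ℝ) + 1)]
      linarith
    · rw [if_pos h3, h2]
      push_cast
      have h4 := hmono (rho m α x) (by positivity)
      have h6 : (rho m α x : ℝ) = m - 1 := by
        have : ((rho m α x + 1 : ℕ) : ℝ) = m := by rw [h1]
        push_cast at this
        linarith
      have h5 : 1 / ((x : ℝ) + 1) =
          (rho m α x : ℝ) / (m * ((x : ℝ) + 1)) + 1 / ((x : ℝ) + 1) / m := by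
        rw [h6]
        field_simp
        ring
      rw [zero_div]
      linarith

private lemma lower_aux {A m : ℕ} (α : ℕ) (hA : 1 ≤ A) (hm : 1 ≤ m) (x : ℕ) (hx : A ≤ x) :
    (Real.log ((x : ℝ) + 1) - Real.log ((A : ℝ) + 1)) / m - ((m : ℝ) - 1) / (m * A) +
      ((m : ℝ) - 1 - rho m α x) / (m * ((x : ℝ) + 1)) ≤
      (∑ a ∈ Ioc A x, if a ≡ α [MOD m] then (1 : ℝ) / a else 0) := by
  have hm0 : (0 : ℝ) < m := by exact_mod_cast hm
  have hm1 : (1 : ℝ) ≤ m := by exact_mod_cast hm
  induction x, hx using Nat.le_induction with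
  | base =>
    have hA0 : (0 : ℝ) < A := by exact_mod_cast hA
    rw [Ioc_self, sum_empty, sub_self, zero_div, zero_sub]
    have h1 : (0 : ℝ) ≤ rho m α A := by positivity
    have h2 : ((m : ℝ) - 1 - rho m α A) / (m * ((A : ℝ) + 1)) ≤ ((m : ℝ) - 1) / (m * A) := by
      refine le_trans (div_le_div_of_nonneg_right (show (m : ℝ) - 1 - rho m α A ≤ m - 1 by linarith)
        (by positivity)) ?_
      apply div_le_div_of_nonneg_left (by linarith) (by positivity)
      nlinarith
    linarith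
  | succ x hx ih =>
    have hx0 : (0 : ℝ) < x := by exact_mod_cast (le_trans hA hx)
    rw [sum_Ioc_succ_top hx]
    obtain ⟨_, hl1⟩ := log_step (x := x + 1) (by omega)
    have hl2 : (Real.log (((x + 1 : ℕ) : ℝ) + 1) - Real.log ((x + 1 : ℕ) : ℝ)) / m ≤
        1 / ((x + 1 : ℕ) : ℝ) / m := div_le_div_of_nonneg_right hl1 hm0.le
    have hl3 : (Real.log (((x + 1 : ℕ) : ℝ) + 1) - Real.log ((A : ℝ) + 1)) / m =
        (Real.log ((x : ℝ) + 1) - Real.log ((A : ℝ) + 1)) / m +
          (Real.log (((x + 1 : ℕ) : ℝ) + 1) - Real.log ((x + 1 : ℕ) : ℝ)) / m := by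
      push_cast; ring
    rw [hl3]
    have hmono : ∀ r : ℝ, 0 ≤ r → r / (m * (((x + 1 : ℕ) : ℝ) + 1)) ≤ r / (m * ((x : ℝ) + 1)) := by
      intro r hr
      apply div_le_div_of_nonneg_left hr (by positivity)
      push_cast
      nlinarith
    rcases rho_succ hm α x with ⟨h1, h2, h3⟩ | ⟨h1, h2, h3⟩
    · rw [if_neg h3, h2]
      have h7 : (rho m α x : ℝ) + 2 ≤ m := by exact_mod_cast h1
      have h4 := hmono ((m : ℝ) - 1 - (rho m α x + 1)) (by linarith)
      have h5 : ((m : ℝ) - 1 - (rho m α x + 1)) / (m * ((x : ℝ) + 1)) =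
          ((m : ℝ) - 1 - rho m α x) / (m * ((x : ℝ) + 1)) - 1 / ((x + 1 : ℕ) : ℝ) / m := by
        push_cast
        field_simp
        ring
      push_cast at *
      linarith
    · rw [if_pos h3, h2]
      have h6 : (rho m α x : ℝ) = m - 1 := by
        have : ((rho m α x + 1 : ℕ) : ℝ) = m := by rw [h1]
        push_cast at this
        linarith
      have h4 := hmono ((m : ℝ) - 1 - 0) (by linarith)
      have h5 : 1 / ((x + 1 : ℕ) : ℝ) =
          ((m : ℝ) - 1 - 0) / (m * ((x : ℝ) + 1)) + 1 / ((x + 1 : ℕ) : ℝ) / m := by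
        push_cast
        field_simp
        ring
      rw [h6] at ih
      have h8 : ((m : ℝ) - 1 - (m - 1)) / (m * ((x : ℝ) + 1)) = 0 := by
        rw [sub_self, zero_div]
      rw [h8] at ih
      push_cast at *
      linarith

theorem class_sum_le {A A' m : ℕ} (α : ℕ) (hA : 1 ≤ A) (hAA : A ≤ A') (hm : 1 ≤ m) :
    ∑ a ∈ (Ioc A A').filter (fun a => a ≡ α [MOD m]), (1 : ℝ) / a ≤
      Real.log ((A' : ℝ) / A) / m + 1 / A := by
  have hA0 : (0 : ℝ) < A := by exact_mod_cast hA
  have hA'0 : (0 : ℝ) < A' := by exact_mod_cast (le_trans hA hAA)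
  have h := upper_aux α hA hm A' hAA
  rw [Finset.sum_filter, Real.log_div hA'0.ne' hA0.ne']
  have h1 : (0 : ℝ) ≤ rho m α A' / (m * A') := by positivity
  linarith

theorem le_class_sum {A A' m : ℕ} (α : ℕ) (hA : 1 ≤ A) (hAA : A ≤ A') (hm : 1 ≤ m) :
    Real.log ((A' : ℝ) / A) / m - 1 / A ≤
      ∑ a ∈ (Ioc A A').filter (fun a => a ≡ α [MOD m]), (1 : ℝ) / a := by
  have hA0 : (0 : ℝ) < A := by exact_mod_cast hA
  have hA'0 : (0 : ℝ) < A' := by exact_mod_cast (le_trans hA hAA)
  have hm0 : (0 : ℝ) < m := by exact_mod_cast hm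
  have h := lower_aux α hA hm A' hAA
  rw [Finset.sum_filter, Real.log_div hA'0.ne' hA0.ne']
  have h0 : (rho m α A' : ℝ) ≤ m - 1 := by
    have : ((rho m α A' + 1 : ℕ) : ℝ) ≤ m := by exact_mod_cast rho_lt hm α A'
    push_cast at this
    linarith
  have h1 : (0 : ℝ) ≤ ((m : ℝ) - 1 - rho m α A') / (m * ((A' : ℝ) + 1)) :=
    div_nonneg (by linarith) (by positivity)
  have h2 : Real.log A' ≤ Real.log ((A' : ℝ) + 1) := Real.log_le_log hA'0 (by linarith)
  obtain ⟨_, h3⟩ := log_step hA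
  have h4 : (Real.log A' - Real.log A) / m ≤
      (Real.log ((A' : ℝ) + 1) - Real.log ((A : ℝ) + 1)) / m + 1 / A / m := by
    rw [← add_div]
    apply div_le_div_of_nonneg_right _ hm0.le
    linarith
  have h5 : (1 : ℝ) / A = ((m : ℝ) - 1) / (m * A) + 1 / A / m := by
    field_simp
    ring
  linarith

end SES
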