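import Mathlib

/-!
# Module L: independence modulo different primes
-/

set_option autoImplicit false

namespace SES

open Finset

private lemma cp_sum (A q : ℕ) (hA : 0 < A) (hq : 0 < q) (hc : A.Coprime q) (F G : ℕ → ℝ)
    (hF : ∀ n, F n = F (n % A)) (hG : ∀ n, G n = G (n % q)) :
    ∑ n ∈ range (A * q), F n * G n = (∑ m ∈ range A, F m) * ∑ v ∈ range q, G v := by
  rw [Finset.sum_mul_sum, ← Finset.sum_product']
  refine Finset.sum_bij (fun n _ => (n % A, n % q)) ?_ ?_ ?_ ?_
  · intro n _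
    rw [Finset.mem_product, Finset.mem_range, Finset.mem_range]
    exact ⟨Nat.mod_lt n hA, Nat.mod_lt n hq⟩
  · intro n hn n' hn' h
    rw [Finset.mem_range] at hn hn'
    have h1 : n % A = n' % A := (Prod.ext_iff.1 h).1
    have h2 : n % q = n' % q := (Prod.ext_iff.1 h).2
    have h3 : n ≡ n' [MOD A * q] := (Nat.modEq_and_modEq_iff_modEq_mul hc).1 ⟨h1, h2⟩
    exact Nat.ModEq.eq_of_lt_of_lt h3 hn hn'
  · rintro ⟨m, v⟩ hmv
    rw [Finset.mem_product, Finset.mem_range, Finset.mem_range] at hmv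
    obtain ⟨k, hk1, hk2⟩ := Nat.chineseRemainder hc m v
    refine ⟨k % (A * q), ?_, ?_⟩
    · rw [Finset.mem_range]
      exact Nat.mod_lt _ (Nat.mul_pos hA hq)
    · have e1 : k % (A * q) % A = m := by
        rw [Nat.mod_mul_right_mod, hk1, Nat.mod_eq_of_lt hmv.1]
      have e2 : k % (A * q) % q = v := by
        rw [Nat.mod_mul_left_mod, hk2, Nat.mod_eq_of_lt hmv.2]
      show (k % (A * q) % A, k % (A * q) % q) = (m, v)
      rw [e1, e2]
  · intro n _
    show F n * G n = F (n % A) * G (n % q)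
    rw [← hF n, ← hG n]

private lemma cp_class (q : ℕ) (hq : 0 < q) (R : Finset (ZMod q)) (t : ℝ) :
    ∑ v ∈ range q, (if ((v : ℕ) : ZMod q) ∈ R then t else 1) = (q : ℝ) + (t - 1) * R.card := by
  have : NeZero q := ⟨hq.ne'⟩
  have h1 : ∑ v ∈ range q, (if ((v : ℕ) : ZMod q) ∈ R then t else 1) =
      ∑ x : ZMod q, if x ∈ R then t else 1 := by
    refine Finset.sum_bij (fun v _ => ((v : ℕ) : ZMod q)) ?_ ?_ ?_ ?_
    · intro v _
      exact Finset.mem_univ _
    · intro v hv v' hv' h
      rw [Finset.mem_range] at hv hv'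
      have := congrArg ZMod.val h
      rwa [ZMod.val_cast_of_lt hv, ZMod.val_cast_of_lt hv'] at this
    · intro x _
      exact ⟨x.val, Finset.mem_range.2 (ZMod.val_lt x), ZMod.natCast_zmod_val x⟩
    · intro v _
      rfl
  rw [h1]
  have h2 : ∀ x : ZMod q, (if x ∈ R then t else 1) = 1 + if x ∈ R then (t - 1) else 0 := by
    intro x
    split_ifs <;> ring
  simp only [h2]
  rw [Finset.sum_add_distrib, Finset.sum_const, Finset.card_univ, ZMod.card, nsmul_eq_mul,
    mul_one, Finset.sum_ite_mem, Finset.univ_inter, Finset.sum_const, nsmul_eq_mul]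
  ring

theorem crt_prod (P : Finset ℕ) (W : ℕ) (hW : 0 < W) (hP : ∀ q ∈ P, q.Prime ∧ q.Coprime W)
    (R : (q : ℕ) → Finset (ZMod q)) (t : ℝ) (n₀ : ℕ) :
    ∑ n ∈ (range (W * ∏ q ∈ P, q)).filter (fun n => n ≡ n₀ [MOD W]),
        t ^ (P.filter (fun q => (n : ZMod q) ∈ R q)).card =
      ∏ q ∈ P, ((q : ℝ) + (t - 1) * (R q).card) := by
  induction P using Finset.induction_on with
  | empty =>
    rw [Finset.prod_empty, Finset.prod_empty, mul_one]
    have h1 : (range W).filter (fun n => n ≡ n₀ [MOD W]) = {n₀ % W} := by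
      ext n
      rw [Finset.mem_filter, Finset.mem_range, Finset.mem_singleton]
      constructor
      · rintro ⟨h1, h2⟩
        rw [← h2, Nat.mod_eq_of_lt h1]
      · rintro rfl
        exact ⟨Nat.mod_lt _ hW, Nat.mod_modEq n₀ W⟩
    rw [h1, Finset.sum_singleton, Finset.filter_empty, Finset.card_empty, pow_zero]
  | insert q P hqP ih =>
    have hP' : ∀ q ∈ P, q.Prime ∧ q.Coprime W := fun p hp => hP p (Finset.mem_insert_of_mem hp)
    have hqq := hP q (Finset.mem_insert_self q P)
    have hq0 : 0 < q := hqq.1.pos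
    specialize ih hP'
    obtain ⟨A, hA⟩ : ∃ A : ℕ, A = W * ∏ q ∈ P, q := ⟨_, rfl⟩
    have hApos : 0 < A := by
      rw [hA]
      exact Nat.mul_pos hW (Finset.prod_pos fun p hp => (hP' p hp).1.pos)
    have hWA : W ∣ A := by rw [hA]; exact Dvd.intro _ rfl
    have hpA : ∀ p ∈ P, p ∣ A := by
      intro p hp
      rw [hA]
      exact (Finset.dvd_prod_of_mem (fun q => q) hp).mul_left W
    have hcop : A.Coprime q := by
      rw [hA]
      refine Nat.Coprime.mul_left hqq.2.symm ?_
      refine Nat.Coprime.prod_left fun p hp => ?_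
      refine (Nat.coprime_primes (hP' p hp).1 hqq.1).2 ?_
      rintro rfl
      exact hqP hp
    rw [Finset.prod_insert hqP, Finset.prod_insert hqP]
    have e1 : W * (q * ∏ q ∈ P, q) = A * q := by rw [hA]; ring
    rw [e1, Finset.sum_filter]
    have hterm : ∀ n ∈ range (A * q), (if n ≡ n₀ [MOD W] then
        t ^ ((insert q P).filter (fun q => (n : ZMod q) ∈ R q)).card else 0) =
        (if n ≡ n₀ [MOD W] then t ^ (P.filter (fun q => (n : ZMod q) ∈ R q)).card else 0) *
          (if ((n : ℕ) : ZMod q) ∈ R q then t else 1) := by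
      intro n _
      by_cases h : n ≡ n₀ [MOD W]
      · rw [if_pos h, if_pos h, Finset.filter_insert]
        by_cases h2 : ((n : ℕ) : ZMod q) ∈ R q
        · rw [if_pos h2, if_pos h2, Finset.card_insert_of_notMem, pow_succ]
          intro h3
          exact hqP (Finset.mem_filter.1 h3).1
        · rw [if_neg h2, if_neg h2, mul_one]
      · rw [if_neg h, if_neg h, zero_mul]
    rw [Finset.sum_congr rfl hterm, cp_sum A q hApos hq0 hcop
      (fun n => if n ≡ n₀ [MOD W] then t ^ (P.filter (fun q => (n : ZMod q) ∈ R q)).card else 0)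
      (fun n => if ((n : ℕ) : ZMod q) ∈ R q then t else 1), cp_class q hq0 (R q) t,
      ← Finset.sum_filter, hA, ih]
    · ring
    · intro n
      have hmod : n % A ≡ n [MOD A] := Nat.mod_modEq n A
      have h1 : n % A ≡ n [MOD W] := hmod.of_dvd hWA
      have h2 : (n ≡ n₀ [MOD W]) ↔ (n % A ≡ n₀ [MOD W]) :=
        ⟨fun h => h1.trans h, fun h => h1.symm.trans h⟩
      have h3 : P.filter (fun q => (n : ZMod q) ∈ R q) =
          P.filter (fun q => ((n % A : ℕ) : ZMod q) ∈ R q) := by
        refine Finset.filter_congr fun p hp => ?_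
        have h4 : ((n % A : ℕ) : ZMod p) = (n : ZMod p) :=
          (ZMod.natCast_eq_natCast_iff _ _ _).2 (hmod.of_dvd (hpA p hp))
        rw [h4]
      show (if n ≡ n₀ [MOD W] then t ^ (P.filter (fun q => (n : ZMod q) ∈ R q)).card else 0) =
        (if n % A ≡ n₀ [MOD W] then
          t ^ (P.filter (fun q => ((n % A : ℕ) : ZMod q) ∈ R q)).card else 0)
      rw [← h3]
      by_cases h : n ≡ n₀ [MOD W]
      · rw [if_pos h, if_pos (h2.1 h)]
      · rw [if_neg h, if_neg (fun h5 => h (h2.2 h5))]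
    · intro n
      show (if ((n : ℕ) : ZMod q) ∈ R q then t else 1) =
        (if ((n % q : ℕ) : ZMod q) ∈ R q then t else 1)
      rw [ZMod.natCast_mod]

end SES
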