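import Mathlib
import Pool.Agent.Lib.Linnik.Defs

/-!
# Three unit fractions: the exceptional set (definitions)

Identity: if `k*a*c ∣ q*s + 1` and `q*s ∣ n*c + a`, put `d = (q*s+1)/(k*a*c)`, `b = (n*c+a)/(q*s)`;
then `k*a*b*c*d = n*c + a + b`, so `k/n = 1/(a*b*d) + 1/(a*c*d*n) + 1/(b*c*d*n)`.
An event is a tuple `(q, s, a, c)`.
-/

set_option autoImplicit false

namespace SES

open Finset

/-- `k/n` is a sum of at most three distinct unit fractions. -/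
def Short (k n : ℕ) : Prop :=
  ∃ S : Finset ℕ, S.card ≤ 3 ∧ (∀ m ∈ S, 0 < m) ∧ (k : ℚ) / (n : ℚ) = ∑ m ∈ S, (1 : ℚ) / (m : ℚ)

/-- admissible values of `a` and of `c` -/
def AS (K l D : ℕ) : Finset ℕ :=
  (Ioc (D ^ 2) (D ^ 3)).filter (fun a => a ≡ 1 [MOD K.factorial] ∧ ¬ l ∣ a)

/-- admissible values of `s` -/
def SS (K D : ℕ) : Finset ℕ := (Icc 1 D).filter (fun s => s ≡ 1 [MOD K.factorial])

/-- admissible primes `q` -/
def PP (h D : ℕ) : Finset ℕ := (Ioc (D ^ h) ((D ^ h) ^ 2)).filter Nat.Prime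

/-- admissible triples `(s, a, c)` at the prime `q` -/
def TT (k K l D q : ℕ) : Finset (ℕ × ℕ × ℕ) :=
  (SS K D ×ˢ (AS K l D ×ˢ AS K l D)).filter
    (fun t => t.2.1.Coprime t.2.2 ∧ k * t.2.1 * t.2.2 ∣ q * t.1 + 1)

/-- the events `(q, s, a, c)` -/
def EV (k K l h D : ℕ) : Finset (ℕ × ℕ × ℕ × ℕ) :=
  (PP h D ×ˢ (SS K D ×ˢ (AS K l D ×ˢ AS K l D))).filter (fun e => e.2 ∈ TT k K l D e.1)

/-- the event `e = (q, s, a, c)` holds for `n` -/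
def Hd (n : ℕ) (e : ℕ × ℕ × ℕ × ℕ) : Prop := e.1 * e.2.1 ∣ n * e.2.2.2 + e.2.2.1

instance (n : ℕ) (e : ℕ × ℕ × ℕ × ℕ) : Decidable (Hd n e) := by unfold Hd; infer_instance

/-- number of triples at `q` compatible with `n` modulo small numbers -/
def om (k K l D n q : ℕ) : ℕ :=
  ((TT k K l D q).filter (fun t => t.1 ∣ n * t.2.2 + t.2.1)).card

/-- conditional expectation of the number of events -/
noncomputable def mu (k K l h D n : ℕ) : ℝ := ∑ q ∈ PP h D, (om k K l D n q : ℝ) / q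

/-- triples `(s, a, c)` compatible with `n`, without the condition on `q` -/
def MS (K l D n : ℕ) : Finset (ℕ × ℕ × ℕ) :=
  (SS K D ×ˢ (AS K l D ×ˢ AS K l D)).filter
    (fun t => t.2.1.Coprime t.2.2 ∧ t.1.Coprime (t.2.1 * t.2.2) ∧ t.1 ∣ n * t.2.2 + t.2.1)

/-- residues modulo `q` at which an event with prime `q` occurs, given `n₀` modulo `D !` -/
def RS (k K l D n₀ q : ℕ) : Finset (ZMod q) :=
  ((TT k K l D q).filter (fun t => t.1 ∣ n₀ * t.2.2 + t.2.1)).image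
    (fun t => -(t.2.1 : ZMod q) * (t.2.2 : ZMod q)⁻¹)

/-- sum of the reciprocals of the primes up to `D` dividing `n` -/
noncomputable def sp (D n : ℕ) : ℝ :=
  ∑ p ∈ (Icc 1 D).filter (fun p => p.Prime ∧ p ∣ n), (1 : ℝ) / p

/-- sum of the reciprocals of the primes `q` in `(X, X ^ 2]` with `q = b` modulo `m` -/
noncomputable def rp (X m : ℕ) (b : ZMod m) : ℝ :=
  ∑ q ∈ (Ioc X (X ^ 2)).filter (fun q : ℕ => q.Prime ∧ ((q : ℕ) : ZMod m) = b), (1 : ℝ) / q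

/-- upper bound for the sums `rp` -/
def RecipUpStmt : Prop := ∃ C : ℝ, 0 < C ∧ ∀ X m : ℕ, 2 ≤ X → 0 < m → m ^ 2 ≤ X →
    ∀ b : ZMod m, IsUnit b → rp X m b ≤ C / Nat.totient m

/-- moduli `k * t` away from one large prime are not exceptional -/
def NEOffStmt (k K : ℕ) : Prop := ∃ C Q₀ : ℝ, 0 < C ∧ 2 ≤ Q₀ ∧
    ∀ Q : ℝ, Q₀ ≤ Q → ∃ l : ℕ, l.Prime ∧ K < l ∧
      ∀ t : ℕ, 0 < t → t.Coprime K.factorial → ¬ l ∣ t → 8 * ((k * t : ℕ) : ℝ) ^ 2 ≤ Q →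
        Lnk.NE C Q (k * t)

/-- lower bound for the sums `rp` -/
def RecipLowStmt (k K : ℕ) : Prop := ∃ (δ c : ℝ) (X₀ : ℕ), 0 < δ ∧ δ ≤ 1 ∧
    0 < c ∧ ∀ X : ℕ, X₀ ≤ X → ∃ l : ℕ, l.Prime ∧ K < l ∧
      ∀ t : ℕ, 0 < t → t.Coprime K.factorial → ¬ l ∣ t → ((k * t : ℕ) : ℝ) ≤ (X : ℝ) ^ δ →
        ∀ b : ZMod (k * t), IsUnit b → c / Nat.totient (k * t) ≤ rp X (k * t) b

/-- bounds for the conditional expectations `mu` -/
def MuStmt (k : ℕ) : Prop := ∃ (K h D₀ : ℕ) (c₁ c₂ : ℝ), 7 ≤ h ∧ 0 < c₁ ∧ 0 < c₂ ∧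
    ∀ D : ℕ, D₀ ≤ D → ∃ l : ℕ, ∀ n : ℕ,
      (sp D n ≤ 1 / 4 → c₁ * Real.log D ^ 3 ≤ mu k K l h D n) ∧
        mu k K l h D n ≤ c₂ * Real.log D ^ 3

open scoped Classical in
/-- the theorem for numbers without small prime factors -/
def RoughStmt (k : ℕ) : Prop := ∃ (c C : ℝ) (D₀ : ℕ), 0 < c ∧ 0 < C ∧
    ∀ D N : ℕ, D₀ ≤ D → Real.exp (C * Real.log D ^ 4) ≤ N →
      (((Icc 1 N).filter (fun n => (∀ p : ℕ, p.Prime → p ∣ n → C * Real.log D ^ 3 < p) ∧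
        ¬ Short k n)).card : ℝ) ≤ N * Real.exp (-(c * Real.log D ^ 3))

end SES
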