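import Pool.Agent.Lib.MP_393cd8_nt.Defs

/-!
# Module K: for each prime `q` at most one event holds
-/

set_option autoImplicit false

namespace SES

open Finset

/-- the bounds for a triple -/
private theorem excl_bounds {k K l D q : ℕ} {t : ℕ × ℕ × ℕ} (ht : t ∈ TT k K l D q) :
    1 ≤ t.1 ∧ t.1 ≤ D ∧ D ^ 2 < t.2.1 ∧ t.2.1 ≤ D ^ 3 ∧ D ^ 2 < t.2.2 ∧ t.2.2 ≤ D ^ 3 ∧
      t.2.1.Coprime t.2.2 ∧ k * t.2.1 * t.2.2 ∣ q * t.1 + 1 := by
  unfold TT SS AS at ht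
  rw [mem_filter, mem_product, mem_product, mem_filter, mem_filter, mem_filter, mem_Icc, mem_Ioc,
    mem_Ioc] at ht
  obtain ⟨⟨⟨⟨h1, h2⟩, _⟩, ⟨⟨h3, h4⟩, _⟩, ⟨h5, h6⟩, _⟩, h7, h8⟩ := ht
  exact ⟨h1, h2, h3, h4, h5, h6, h7, h8⟩

private theorem excl_q {h D q : ℕ} (hD : 2 ≤ D) (hh : 7 ≤ h) (hq : q ∈ PP h D) :
    q.Prime ∧ D ^ 6 < q ∧ D < q := by
  unfold PP at hq
  rw [mem_filter, mem_Ioc] at hq
  have h1 : D ^ 7 ≤ D ^ h := Nat.pow_le_pow_right (by omega) hh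
  have h2 : D ^ 6 ≤ D ^ 7 := Nat.pow_le_pow_right (by omega) (by omega)
  have h3 : D ^ 1 ≤ D ^ 7 := Nat.pow_le_pow_right (by omega) (by omega)
  rw [pow_one] at h3
  exact ⟨hq.2, by omega, by omega⟩

/-- the core: equal products determine the triple -/
private theorem excl_core {k K l h D q : ℕ} (hk : 0 < k) (hD : 2 ≤ D) (hh : 7 ≤ h)
    (hq : q ∈ PP h D) {t t' : ℕ × ℕ × ℕ} (ht : t ∈ TT k K l D q) (ht' : t' ∈ TT k K l D q)
    (he : t.2.1 * t'.2.2 = t'.2.1 * t.2.2) : t = t' := by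
  obtain ⟨s, a, c⟩ := t
  obtain ⟨s', a', c'⟩ := t'
  obtain ⟨h1, h2, h3, h4, h5, h6, h7, h8⟩ := excl_bounds ht
  obtain ⟨g1, g2, g3, g4, g5, g6, g7, g8⟩ := excl_bounds ht'
  obtain ⟨hp, _, hDq⟩ := excl_q hD hh hq
  simp only at h1 h2 h3 h4 h5 h6 h7 h8 g1 g2 g3 g4 g5 g6 g7 g8 he
  have ha : a = a' := by
    apply Nat.dvd_antisymm
    · exact h7.dvd_of_dvd_mul_right (Dvd.intro _ he)
    · exact g7.dvd_of_dvd_mul_right (Dvd.intro _ he.symm)
  subst ha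
  have ha0 : 0 < a := by omega
  have hc : c = c' := by
    have := Nat.eq_of_mul_eq_mul_left ha0 he
    exact this.symm
  subst hc
  have hs : s = s' := by
    have hm : k * a * c ∣ q * s + 1 := h8
    have hm' : k * a * c ∣ q * s' + 1 := g8
    have hcop : Nat.Coprime (k * a * c) q := by
      have h9 : Nat.gcd (k * a * c) q ∣ 1 := by
        have e1 : Nat.gcd (k * a * c) q ∣ q * s + 1 := (Nat.gcd_dvd_left _ _).trans hm
        have e2 : Nat.gcd (k * a * c) q ∣ q * s := (Nat.gcd_dvd_right _ _).mul_right s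
        exact (Nat.dvd_add_right e2).1 e1
      exact Nat.dvd_one.1 h9
    have hbig : D < k * a * c := by
      have e1 : D ≤ D ^ 2 := Nat.le_self_pow (by omega) D
      have e2 : a ≤ k * a * c := by
        calc a = 1 * a * 1 := by ring
          _ ≤ k * a * c := Nat.mul_le_mul (Nat.mul_le_mul_right a hk) (by omega)
      omega
    rcases le_total s s' with hle | hle
    · have e1 : k * a * c ∣ q * (s' - s) := by
        have e2 := Nat.dvd_sub hm' hm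
        have e3 : q * s' + 1 - (q * s + 1) = q * (s' - s) := by
          rw [Nat.mul_sub]
          omega
        rwa [e3] at e2
      have e4 := hcop.dvd_of_dvd_mul_left e1
      have e5 := Nat.eq_zero_of_dvd_of_lt e4 (by omega)
      omega
    · have e1 : k * a * c ∣ q * (s - s') := by
        have e2 := Nat.dvd_sub hm hm'
        have e3 : q * s + 1 - (q * s' + 1) = q * (s - s') := by
          rw [Nat.mul_sub]
          omega
        rwa [e3] at e2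
      have e4 := hcop.dvd_of_dvd_mul_left e1
      have e5 := Nat.eq_zero_of_dvd_of_lt e4 (by omega)
      omega
  subst hs
  rfl

private theorem excl_lt {k K l h D q : ℕ} (hD : 2 ≤ D) (hh : 7 ≤ h)
    (hq : q ∈ PP h D) {t t' : ℕ × ℕ × ℕ} (ht : t ∈ TT k K l D q) (ht' : t' ∈ TT k K l D q) :
    t.2.1 * t'.2.2 < q := by
  obtain ⟨_, _, _, h4, _⟩ := excl_bounds ht
  obtain ⟨_, _, _, _, _, g6, _⟩ := excl_bounds ht'
  obtain ⟨_, hq6, _⟩ := excl_q hD hh hq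
  calc t.2.1 * t'.2.2 ≤ D ^ 3 * D ^ 3 := Nat.mul_le_mul h4 g6
    _ = D ^ 6 := by ring
    _ < q := hq6

theorem excl {k K l h D n q : ℕ} (hk : 0 < k) (hD : 2 ≤ D) (hh : 7 ≤ h) (hq : q ∈ PP h D)
    {t t' : ℕ × ℕ × ℕ} (ht : t ∈ TT k K l D q) (ht' : t' ∈ TT k K l D q)
    (h1 : Hd n (q, t)) (h2 : Hd n (q, t')) : t = t' := by
  refine excl_core hk hD hh hq ht ht' ?_
  have e1 : q ∣ n * t.2.2 + t.2.1 := (Dvd.intro _ rfl).trans h1
  have e2 : q ∣ n * t'.2.2 + t'.2.1 := (Dvd.intro _ rfl).trans h2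
  have e3 : t.2.1 * t'.2.2 ≡ t'.2.1 * t.2.2 [MOD q] := by
    have e4 : n * t.2.2 * t'.2.2 + t.2.1 * t'.2.2 ≡ n * t.2.2 * t'.2.2 + t'.2.1 * t.2.2 [MOD q] := by
      have e5 : q ∣ n * t.2.2 * t'.2.2 + t.2.1 * t'.2.2 := by
        have := e1.mul_right t'.2.2
        rwa [add_mul] at this
      have e6 : q ∣ n * t.2.2 * t'.2.2 + t'.2.1 * t.2.2 := by
        have := e2.mul_right t.2.2
        rw [add_mul] at this
        have e7 : n * t'.2.2 * t.2.2 = n * t.2.2 * t'.2.2 := by ring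
        rwa [e7] at this
      exact ((Nat.modEq_zero_iff_dvd).2 e5).trans ((Nat.modEq_zero_iff_dvd).2 e6).symm
    exact Nat.ModEq.add_left_cancel' _ e4
  exact Nat.ModEq.eq_of_lt_of_lt e3 (excl_lt hD hh hq ht ht') (excl_lt hD hh hq ht' ht)

private theorem excl_c_ne {k K l h D q : ℕ} (hD : 2 ≤ D) (hh : 7 ≤ h) (hq : q ∈ PP h D)
    {t : ℕ × ℕ × ℕ} (ht : t ∈ TT k K l D q) : (t.2.2 : ZMod q) ≠ 0 := by
  obtain ⟨_, _, _, _, h5, h6, _⟩ := excl_bounds ht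
  obtain ⟨_, hq6, _⟩ := excl_q hD hh hq
  intro h
  rw [ZMod.natCast_eq_zero_iff] at h
  have h7 : D ^ 3 ≤ D ^ 6 := Nat.pow_le_pow_right (by omega) (by omega)
  have := Nat.eq_zero_of_dvd_of_lt h (by omega)
  omega

theorem card_RS {k K l h D n₀ q : ℕ} (hk : 0 < k) (hD : 2 ≤ D) (hh : 7 ≤ h)
    (hq : q ∈ PP h D) : (RS k K l D n₀ q).card = om k K l D n₀ q := by
  have : Fact q.Prime := ⟨(excl_q hD hh hq).1⟩
  unfold RS om
  refine card_image_of_injOn ?_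
  intro t ht t' ht' he
  have h1 := (mem_filter.1 (mem_coe.1 ht)).1
  have h2 := (mem_filter.1 (mem_coe.1 ht')).1
  refine excl_core hk hD hh hq h1 h2 ?_
  have hc := excl_c_ne hD hh hq h1
  have hc' := excl_c_ne hD hh hq h2
  simp only at he
  have e1 : ((t.2.1 * t'.2.2 : ℕ) : ZMod q) = ((t'.2.1 * t.2.2 : ℕ) : ZMod q) := by
    push_cast
    field_simp at he
    linear_combination -he
  rw [ZMod.natCast_eq_natCast_iff] at e1
  exact Nat.ModEq.eq_of_lt_of_lt e1 (excl_lt hD hh hq h1 h2) (excl_lt hD hh hq h2 h1)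

theorem mem_RS_iff {k K l h D n n₀ q : ℕ} (hk : 0 < k) (hD : 2 ≤ D) (hh : 7 ≤ h)
    (hq : q ∈ PP h D) (hn : n ≡ n₀ [MOD D.factorial]) :
    (n : ZMod q) ∈ RS k K l D n₀ q ↔ ∃ t ∈ TT k K l D q, Hd n (q, t) := by
  have hp := (excl_q hD hh hq).1
  have : Fact q.Prime := ⟨hp⟩
  unfold RS
  rw [mem_image]
  refine exists_congr fun t => ?_
  rw [mem_filter, and_assoc]
  refine and_congr_right fun ht => ?_
  obtain ⟨h1, h2, _⟩ := excl_bounds ht
  have hc := excl_c_ne hD hh hq ht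
  have hs : t.1 ∣ n₀ * t.2.2 + t.2.1 ↔ t.1 ∣ n * t.2.2 + t.2.1 := by
    have e1 : t.1 ∣ D.factorial := Nat.dvd_factorial (by omega) h2
    have e2 : n * t.2.2 + t.2.1 ≡ n₀ * t.2.2 + t.2.1 [MOD t.1] :=
      ((hn.of_dvd e1).mul_right _).add_right _
    exact (e2.dvd_iff dvd_rfl).symm
  have hqd : (-(t.2.1 : ZMod q) * (t.2.2 : ZMod q)⁻¹ = (n : ZMod q)) ↔
      q ∣ n * t.2.2 + t.2.1 := by
    rw [← ZMod.natCast_eq_zero_iff]
    push_cast
    rw [← div_eq_mul_inv, div_eq_iff hc]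
    constructor
    · intro h
      linear_combination -h
    · intro h
      linear_combination -h
  rw [hs, hqd]
  unfold Hd
  have hcop : Nat.Coprime q t.1 := by
    rw [Nat.Prime.coprime_iff_not_dvd hp]
    intro h
    have := Nat.le_of_dvd (by omega) h
    have := (excl_q hD hh hq).2.2
    omega
  constructor
  · rintro ⟨h3, h4⟩
    exact hcop.mul_dvd_of_dvd_of_dvd h4 h3
  · intro h3
    exact ⟨(Dvd.intro_left _ rfl).trans h3, (Dvd.intro _ rfl).trans h3⟩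

theorem card_hd {k K l h D n n₀ : ℕ} (hk : 0 < k) (hD : 2 ≤ D) (hh : 7 ≤ h)
    (hn : n ≡ n₀ [MOD D.factorial]) :
    ((EV k K l h D).filter (Hd n)).card =
      ((PP h D).filter (fun q => (n : ZMod q) ∈ RS k K l D n₀ q)).card := by
  have hmem : ∀ e : ℕ × ℕ × ℕ × ℕ, e ∈ (EV k K l h D).filter (Hd n) ↔
      e.1 ∈ PP h D ∧ e.2 ∈ TT k K l D e.1 ∧ Hd n e := by
    intro e
    unfold EV
    rw [mem_filter, mem_filter, mem_product]
    constructor
    · rintro ⟨⟨⟨h1, _⟩, h2⟩, h3⟩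
      exact ⟨h1, h2, h3⟩
    · rintro ⟨h1, h2, h3⟩
      refine ⟨⟨⟨h1, ?_⟩, h2⟩, h3⟩
      have h4 := h2
      unfold TT at h4
      exact (mem_filter.1 h4).1
  have himg : ((EV k K l h D).filter (Hd n)).image Prod.fst =
      (PP h D).filter (fun q => (n : ZMod q) ∈ RS k K l D n₀ q) := by
    ext q
    rw [mem_image, mem_filter]
    constructor
    · rintro ⟨e, he, rfl⟩
      obtain ⟨h1, h2, h3⟩ := (hmem e).1 he
      exact ⟨h1, (mem_RS_iff hk hD hh h1 hn).2 ⟨e.2, h2, h3⟩⟩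
    · rintro ⟨h1, h2⟩
      obtain ⟨t, ht, h3⟩ := (mem_RS_iff hk hD hh h1 hn).1 h2
      exact ⟨(q, t), (hmem _).2 ⟨h1, ht, h3⟩, rfl⟩
  rw [← himg]
  symm
  refine card_image_of_injOn ?_
  intro e he e' he' hee
  obtain ⟨q, t⟩ := e
  obtain ⟨q', t'⟩ := e'
  simp only at hee
  subst hee
  obtain ⟨h1, h2, h3⟩ := (hmem _).1 (mem_coe.1 he)
  obtain ⟨_, g2, g3⟩ := (hmem _).1 (mem_coe.1 he')
  have h4 : t = t' := excl hk hD hh h1 h2 g2 h3 g3
  rw [h4]

end SES
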