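import Pool.Agent.Lib.MP_393cd8_nt.Ident

/-!
# Module R: from rough numbers to all numbers
-/

set_option autoImplicit false

namespace SES

open Finset

private lemma fin_decomp (K n : ℕ) (hn : 0 < n) : ∃ m n' : ℕ, n = m * n' ∧
    m ∈ Nat.smoothNumbers K ∧ 0 < n' ∧ ∀ p : ℕ, p.Prime → p ∣ n' → K ≤ p := by
  induction n using Nat.strong_induction_on with
  | _ n ih =>
    by_cases h : ∀ p : ℕ, p.Prime → p ∣ n → K ≤ p
    · refine ⟨1, n, by ring, ?_, hn, h⟩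
      rw [Nat.mem_smoothNumbers']
      intro p hp h1
      exact absurd (Nat.dvd_one.1 h1) hp.ne_one
    · push Not at h
      obtain ⟨p, hp, ⟨n1, rfl⟩, hpK⟩ := h
      have hn1 : 0 < n1 := Nat.pos_of_mul_pos_left hn
      have hlt : n1 < p * n1 := by
        have := hp.two_le
        nlinarith
      obtain ⟨m, n', h1, h2, h3, h4⟩ := ih n1 hlt hn1
      refine ⟨p * m, n', by rw [h1]; ring, ?_, h3, h4⟩
      refine Nat.mul_mem_smoothNumbers ?_ h2
      rw [Nat.mem_smoothNumbers']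
      intro q hq hqp
      rw [(Nat.prime_dvd_prime_iff_eq hq hp).1 hqp]
      exact hpK

private lemma fin_harm (N : ℕ) (S : Finset ℕ) (hS : S ⊆ Icc 1 N) :
    ∑ m ∈ S, (1 : ℝ) / m ≤ 1 + Real.log N := by
  have h1 : ∑ m ∈ S, (1 : ℝ) / m ≤ ∑ m ∈ Icc 1 N, (1 : ℝ) / m :=
    Finset.sum_le_sum_of_subset_of_nonneg hS fun _ _ _ => by positivity
  have h2 := harmonic_le_one_add_log N
  rw [harmonic_eq_sum_Icc] at h2
  push_cast at h2
  simp only [one_div] at h1 ⊢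
  linarith

open scoped Classical in
private lemma fin_count (k N K : ℕ) :
    (((Icc 1 N).filter (fun n => ¬ Short k n)).card : ℝ) ≤
      ∑ m ∈ Nat.smoothNumbersUpTo N K,
        (((Icc 1 (N / m)).filter (fun n => (∀ p : ℕ, p.Prime → p ∣ n → K ≤ p) ∧
          ¬ Short k n)).card : ℝ) := by
  have h1 : (Icc 1 N).filter (fun n => ¬ Short k n) ⊆
      (Nat.smoothNumbersUpTo N K).biUnion (fun m =>
        ((Icc 1 (N / m)).filter (fun n => (∀ p : ℕ, p.Prime → p ∣ n → K ≤ p) ∧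
          ¬ Short k n)).image (fun n => m * n)) := by
    intro n hn
    rw [Finset.mem_filter, Finset.mem_Icc] at hn
    obtain ⟨m, n', h1, h2, h3, h4⟩ := fin_decomp K n (by omega)
    have hm0 : 0 < m := Nat.pos_of_ne_zero (Nat.ne_zero_of_mem_smoothNumbers h2)
    rw [Finset.mem_biUnion]
    refine ⟨m, ?_, ?_⟩
    · rw [Nat.mem_smoothNumbersUpTo]
      refine ⟨?_, h2⟩
      have : m ≤ m * n' := Nat.le_mul_of_pos_right m h3
      omega
    · rw [Finset.mem_image]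
      refine ⟨n', ?_, h1.symm⟩
      rw [Finset.mem_filter, Finset.mem_Icc]
      refine ⟨⟨h3, ?_⟩, h4, ?_⟩
      · rw [Nat.le_div_iff_mul_le hm0, mul_comm, ← h1]
        exact hn.1.2
      · intro h5
        apply hn.2
        rw [h1]
        exact short_mul hm0 h5
  have h2 := (Finset.card_le_card h1).trans Finset.card_biUnion_le
  have h3 : ∑ m ∈ Nat.smoothNumbersUpTo N K,
      (((Icc 1 (N / m)).filter (fun n => (∀ p : ℕ, p.Prime → p ∣ n → K ≤ p) ∧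
          ¬ Short k n)).image (fun n => m * n)).card ≤
      ∑ m ∈ Nat.smoothNumbersUpTo N K,
      ((Icc 1 (N / m)).filter (fun n => (∀ p : ℕ, p.Prime → p ∣ n → K ≤ p) ∧
          ¬ Short k n)).card := Finset.sum_le_sum fun m _ => Finset.card_image_le
  exact_mod_cast h2.trans h3

private lemma fin_smooth_card (N : ℕ) (hN : 0 < N) (Wr : ℝ) (hW : 0 ≤ Wr) :
    ((Nat.smoothNumbersUpTo N (⌊Wr⌋₊ + 1)).card : ℝ) ≤
      Real.exp (Wr + 1) * Real.exp (Real.log N / 2) := by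
  have hN' : (0 : ℝ) < N := by exact_mod_cast hN
  have h1 := Nat.smoothNumbersUpTo_card_le N (⌊Wr⌋₊ + 1)
  have h2 : (Nat.primesBelow (⌊Wr⌋₊ + 1)).card ≤ ⌊Wr⌋₊ + 1 := by
    unfold Nat.primesBelow
    exact (Finset.card_filter_le _ _).trans (by rw [Finset.card_range])
  have h3 : ((Nat.smoothNumbersUpTo N (⌊Wr⌋₊ + 1)).card : ℝ) ≤
      (2 : ℝ) ^ (Nat.primesBelow (⌊Wr⌋₊ + 1)).card * (N.sqrt : ℝ) := by exact_mod_cast h1
  refine h3.trans (mul_le_mul ?_ ?_ (by positivity) (by positivity))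
  · calc (2 : ℝ) ^ (Nat.primesBelow (⌊Wr⌋₊ + 1)).card ≤ (2 : ℝ) ^ (⌊Wr⌋₊ + 1) :=
          pow_le_pow_right₀ (by norm_num) h2
      _ ≤ (Real.exp 1) ^ (⌊Wr⌋₊ + 1) := by
          apply pow_le_pow_left₀ (by norm_num)
          have := Real.add_one_le_exp (1 : ℝ)
          linarith
      _ = Real.exp ((⌊Wr⌋₊ + 1 : ℕ) : ℝ) := by
          rw [← Real.exp_nat_mul, mul_one]
      _ ≤ Real.exp (Wr + 1) := by
          apply Real.exp_le_exp.2
          push_cast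
          linarith [Nat.floor_le hW]
  · have h4 : (N.sqrt : ℝ) ≤ Real.sqrt N := Real.nat_sqrt_le_real_sqrt
    have h5 : Real.sqrt N = Real.exp (Real.log N / 2) := by
      rw [← Real.exp_log (Real.sqrt_pos.2 hN'), Real.log_sqrt hN'.le]
    rw [← h5]
    exact h4

open scoped Classical in
/-- the estimate for large `y` (`log N = y ^ 4`) -/
private lemma fin_large (k : ℕ) (c C : ℝ) (D₀ : ℕ) (hc : 0 < c) (hC : 0 < C)
    (H : ∀ D N : ℕ, D₀ ≤ D → Real.exp (C * Real.log D ^ 4) ≤ N →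
      (((Icc 1 N).filter (fun n => (∀ p : ℕ, p.Prime → p ∣ n → C * Real.log D ^ 3 < p) ∧
        ¬ Short k n)).card : ℝ) ≤ N * Real.exp (-(c * Real.log D ^ 3)))
    (c3 : ℝ) (hc3 : c3 = 1 / (2 * (1 + C))) (N : ℕ) (hN : 2 ≤ N) (y : ℝ)
    (hy : Real.log N = y ^ 4) (hy2 : 2 ≤ y) (hyD : (D₀ : ℝ) + 1 ≤ Real.exp (c3 * y))
    (hyl : 2 * Real.log 2 ≤ c3 * y) :
    (((Icc 1 N).filter (fun n => ¬ Short k n)).card : ℝ) ≤
      N * ((1 + y ^ 4) * Real.exp (-(c * (c3 / 2) ^ 3 * y ^ 3)) + Real.exp (-(y ^ 4 / 8))) := by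
  have hc3pos : 0 < c3 := by rw [hc3]; positivity
  have hc3le : c3 ≤ 1 / 2 := by
    rw [hc3]
    apply one_div_le_one_div_of_le (by norm_num)
    linarith
  have hN0 : (0 : ℝ) < N := by
    have : (2 : ℝ) ≤ N := by exact_mod_cast hN
    linarith
  obtain ⟨D, hD⟩ : ∃ D : ℕ, D = ⌊Real.exp (c3 * y)⌋₊ := ⟨_, rfl⟩
  have hexp : 0 < Real.exp (c3 * y) := Real.exp_pos _
  have hDle : (D : ℝ) ≤ Real.exp (c3 * y) := by rw [hD]; exact Nat.floor_le hexp.le
  have hDD : D₀ ≤ D := by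
    rw [hD]
    exact Nat.le_floor (by linarith)
  have hexp4 : 4 ≤ Real.exp (c3 * y) := by
    have h1 : Real.exp (2 * Real.log 2) ≤ Real.exp (c3 * y) := Real.exp_le_exp.2 hyl
    have h2 : Real.exp (2 * Real.log 2) = 4 := by
      rw [two_mul, Real.exp_add, Real.exp_log (by norm_num)]
      norm_num
    linarith
  have hDge : Real.exp (c3 * y) / 2 ≤ D := by
    have h1 := Nat.lt_floor_add_one (Real.exp (c3 * y))
    rw [← hD] at h1
    linarith
  have hDpos : (0 : ℝ) < D := by linarith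
  obtain ⟨L, hL⟩ : ∃ L : ℝ, L = Real.log D := ⟨_, rfl⟩
  have hLle : L ≤ c3 * y := by
    rw [hL, Real.log_le_iff_le_exp hDpos]
    exact hDle
  have hLge : c3 / 2 * y ≤ L := by
    rw [hL]
    have h1 : Real.log (Real.exp (c3 * y) / 2) ≤ Real.log D := Real.log_le_log (by positivity) hDge
    rw [Real.log_div hexp.ne' (by norm_num), Real.log_exp] at h1
    linarith
  have hL0 : 0 ≤ L := le_trans (by positivity) hLge
  have hC4 : C * c3 ^ 4 ≤ 1 / 16 := by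
    rw [hc3, div_pow, one_pow, mul_one_div, div_le_div_iff₀ (by positivity) (by norm_num)]
    have h1 : (1 : ℝ) ≤ (1 + C) ^ 3 := one_le_pow₀ (by linarith)
    have h2 : 1 + C ≤ (1 + C) ^ 4 := by
      have : (1 + C) ^ 4 = (1 + C) ^ 3 * (1 + C) := by ring
      rw [this]
      nlinarith
    have h3 : (2 * (1 + C)) ^ 4 = 16 * (1 + C) ^ 4 := by ring
    rw [h3]
    linarith
  have hC3 : C * c3 ^ 3 ≤ 1 / 8 := by
    rw [hc3, div_pow, one_pow, mul_one_div, div_le_div_iff₀ (by positivity) (by norm_num)]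
    have h1 : (1 : ℝ) ≤ (1 + C) ^ 2 := one_le_pow₀ (by linarith)
    have h2 : 1 + C ≤ (1 + C) ^ 3 := by
      have : (1 + C) ^ 3 = (1 + C) ^ 2 * (1 + C) := by ring
      rw [this]
      nlinarith
    have h3 : (2 * (1 + C)) ^ 3 = 8 * (1 + C) ^ 3 := by ring
    rw [h3]
    linarith
  have hCL4 : C * L ^ 4 ≤ y ^ 4 / 16 := by
    have h1 : L ^ 4 ≤ (c3 * y) ^ 4 := pow_le_pow_left₀ hL0 hLle 4
    calc C * L ^ 4 ≤ C * (c3 * y) ^ 4 := by gcongr
      _ = (C * c3 ^ 4) * y ^ 4 := by ring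
      _ ≤ 1 / 16 * y ^ 4 := by gcongr
      _ = y ^ 4 / 16 := by ring
  have hCL3 : C * L ^ 3 ≤ y ^ 3 / 8 := by
    have h1 : L ^ 3 ≤ (c3 * y) ^ 3 := pow_le_pow_left₀ hL0 hLle 3
    calc C * L ^ 3 ≤ C * (c3 * y) ^ 3 := by gcongr
      _ = (C * c3 ^ 3) * y ^ 3 := by ring
      _ ≤ 1 / 8 * y ^ 3 := by gcongr
      _ = y ^ 3 / 8 := by ring
  have hcL3 : Real.exp (-(c * L ^ 3)) ≤ Real.exp (-(c * (c3 / 2) ^ 3 * y ^ 3)) := by
    apply Real.exp_le_exp.2
    have h1 : (c3 / 2 * y) ^ 3 ≤ L ^ 3 := pow_le_pow_left₀ (by positivity) hLge 3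
    have h2 : c * (c3 / 2 * y) ^ 3 ≤ c * L ^ 3 := by gcongr
    have h3 : c * (c3 / 2 * y) ^ 3 = c * (c3 / 2) ^ 3 * y ^ 3 := by ring
    linarith
  obtain ⟨Wr, hWr⟩ : ∃ Wr : ℝ, Wr = C * L ^ 3 := ⟨_, rfl⟩
  have hWr0 : 0 ≤ Wr := by rw [hWr]; positivity
  have hNexp : (N : ℝ) = Real.exp (y ^ 4) := by rw [← hy, Real.exp_log hN0]
  have hy4 : 16 ≤ y ^ 4 := by
    calc (16 : ℝ) = 2 ^ 4 := by norm_num
      _ ≤ y ^ 4 := pow_le_pow_left₀ (by norm_num) hy2 4
  have hcount := fin_count k N (⌊Wr⌋₊ + 1)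
  refine hcount.trans ?_
  obtain ⟨S, hS⟩ : ∃ S : Finset ℕ, S = Nat.smoothNumbersUpTo N (⌊Wr⌋₊ + 1) := ⟨_, rfl⟩
  rw [← hS]
  have hSmem : ∀ m ∈ S, 1 ≤ m ∧ m ≤ N := by
    intro m hm
    rw [hS, Nat.mem_smoothNumbersUpTo] at hm
    exact ⟨Nat.pos_of_ne_zero (Nat.ne_zero_of_mem_smoothNumbers hm.2), hm.1⟩
  rw [← Finset.sum_filter_add_sum_filter_not S (fun m : ℕ => (m : ℝ) ≤ Real.exp (3 * y ^ 4 / 4)),
    mul_add]
  refine add_le_add ?_ ?_
  · have h1 : ∀ m ∈ S.filter (fun m : ℕ => (m : ℝ) ≤ Real.exp (3 * y ^ 4 / 4)),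
        (((Icc 1 (N / m)).filter (fun n => (∀ p : ℕ, p.Prime → p ∣ n → ⌊Wr⌋₊ + 1 ≤ p) ∧
          ¬ Short k n)).card : ℝ) ≤
        (1 : ℝ) / m * (N * Real.exp (-(c * (c3 / 2) ^ 3 * y ^ 3))) := by
      intro m hm
      rw [Finset.mem_filter] at hm
      obtain ⟨hmS, hmle⟩ := hm
      have hm1 := (hSmem m hmS).1
      have hm0 : (0 : ℝ) < m := by exact_mod_cast hm1
      have hXle : ((N / m : ℕ) : ℝ) ≤ (N : ℝ) / m := Nat.cast_div_le
      have hXge : (N : ℝ) / m - 1 ≤ ((N / m : ℕ) : ℝ) := by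
        have h2 : N < m * (N / m + 1) := Nat.lt_mul_div_succ N hm1
        have h3 : (N : ℝ) < m * (((N / m : ℕ) : ℝ) + 1) := by exact_mod_cast h2
        rw [sub_le_iff_le_add, div_le_iff₀ hm0]
        linarith
      have hbig : Real.exp (C * Real.log D ^ 4) ≤ ((N / m : ℕ) : ℝ) := by
        rw [← hL]
        have h2 : Real.exp (y ^ 4 / 4) ≤ (N : ℝ) / m := by
          rw [le_div_iff₀ hm0, hNexp]
          calc Real.exp (y ^ 4 / 4) * m ≤ Real.exp (y ^ 4 / 4) * Real.exp (3 * y ^ 4 / 4) := by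
                gcongr
            _ = Real.exp (y ^ 4) := by rw [← Real.exp_add]; congr 1; ring
        have h3 : Real.exp (C * L ^ 4) ≤ Real.exp (y ^ 4 / 16) := Real.exp_le_exp.2 hCL4
        have h4 : Real.exp (y ^ 4 / 4) = Real.exp (3 * y ^ 4 / 16) * Real.exp (y ^ 4 / 16) := by
          rw [← Real.exp_add]; congr 1; ring
        have h5 : 2 ≤ Real.exp (3 * y ^ 4 / 16) := by
          have := Real.add_one_le_exp (3 * y ^ 4 / 16)
          linarith
        have h6 : 1 ≤ Real.exp (y ^ 4 / 16) := Real.one_le_exp (by positivity)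
        nlinarith
      have h7 := H D (N / m) hDD hbig
      rw [← hL] at h7
      have h8 : (((Icc 1 (N / m)).filter (fun n => (∀ p : ℕ, p.Prime → p ∣ n → ⌊Wr⌋₊ + 1 ≤ p) ∧
          ¬ Short k n)).card : ℝ) ≤ (((Icc 1 (N / m)).filter (fun n =>
            (∀ p : ℕ, p.Prime → p ∣ n → C * L ^ 3 < p) ∧ ¬ Short k n)).card : ℝ) := by
        have h9 : (Icc 1 (N / m)).filter (fun n => (∀ p : ℕ, p.Prime → p ∣ n → ⌊Wr⌋₊ + 1 ≤ p) ∧
          ¬ Short k n) ⊆ (Icc 1 (N / m)).filter (fun n =>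
            (∀ p : ℕ, p.Prime → p ∣ n → C * L ^ 3 < p) ∧ ¬ Short k n) := by
          intro n hn
          rw [Finset.mem_filter] at hn ⊢
          refine ⟨hn.1, fun p hp hpn => ?_, hn.2.2⟩
          have h10 := hn.2.1 p hp hpn
          rw [← hWr]
          exact (Nat.floor_lt hWr0).1 (by omega)
        exact_mod_cast Finset.card_le_card h9
      calc (((Icc 1 (N / m)).filter (fun n => (∀ p : ℕ, p.Prime → p ∣ n → ⌊Wr⌋₊ + 1 ≤ p) ∧
          ¬ Short k n)).card : ℝ) ≤ ((N / m : ℕ) : ℝ) * Real.exp (-(c * L ^ 3)) := h8.trans h7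
        _ ≤ (N : ℝ) / m * Real.exp (-(c * (c3 / 2) ^ 3 * y ^ 3)) := by gcongr
        _ = (1 : ℝ) / m * (N * Real.exp (-(c * (c3 / 2) ^ 3 * y ^ 3))) := by ring
    refine (Finset.sum_le_sum h1).trans ?_
    rw [← Finset.sum_mul]
    have h2 := fin_harm N (S.filter (fun m : ℕ => (m : ℝ) ≤ Real.exp (3 * y ^ 4 / 4))) (by
      intro m hm
      rw [Finset.mem_filter] at hm
      rw [Finset.mem_Icc]
      exact hSmem m hm.1)
    rw [hy] at h2
    calc (∑ m ∈ S.filter (fun m : ℕ => (m : ℝ) ≤ Real.exp (3 * y ^ 4 / 4)), (1 : ℝ) / m) *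
          (N * Real.exp (-(c * (c3 / 2) ^ 3 * y ^ 3)))
        ≤ (1 + y ^ 4) * (N * Real.exp (-(c * (c3 / 2) ^ 3 * y ^ 3))) := by gcongr
      _ = N * ((1 + y ^ 4) * Real.exp (-(c * (c3 / 2) ^ 3 * y ^ 3))) := by ring
  · have h1 : ∀ m ∈ S.filter (fun m : ℕ => ¬ (m : ℝ) ≤ Real.exp (3 * y ^ 4 / 4)),
        (((Icc 1 (N / m)).filter (fun n => (∀ p : ℕ, p.Prime → p ∣ n → ⌊Wr⌋₊ + 1 ≤ p) ∧
          ¬ Short k n)).card : ℝ) ≤ Real.exp (y ^ 4 / 4) := by
      intro m hm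
      rw [Finset.mem_filter, not_le] at hm
      obtain ⟨hmS, hmle⟩ := hm
      have hm1 := (hSmem m hmS).1
      have hm0 : (0 : ℝ) < m := by exact_mod_cast hm1
      have hXle : ((N / m : ℕ) : ℝ) ≤ (N : ℝ) / m := Nat.cast_div_le
      have h2 : (((Icc 1 (N / m)).filter (fun n => (∀ p : ℕ, p.Prime → p ∣ n → ⌊Wr⌋₊ + 1 ≤ p) ∧
          ¬ Short k n)).card : ℝ) ≤ ((N / m : ℕ) : ℝ) := by
        have h3 := Finset.card_filter_le (Icc 1 (N / m))
          (fun n => (∀ p : ℕ, p.Prime → p ∣ n → ⌊Wr⌋₊ + 1 ≤ p) ∧ ¬ Short k n)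
        rw [Nat.card_Icc, Nat.add_sub_cancel] at h3
        exact_mod_cast h3
      refine (h2.trans hXle).trans ?_
      rw [div_le_iff₀ hm0, hNexp]
      calc Real.exp (y ^ 4) = Real.exp (y ^ 4 / 4) * Real.exp (3 * y ^ 4 / 4) := by
            rw [← Real.exp_add]; congr 1; ring
        _ ≤ Real.exp (y ^ 4 / 4) * m := by gcongr
    refine (Finset.sum_le_sum h1).trans ?_
    rw [Finset.sum_const, nsmul_eq_mul]
    have h2 : ((S.filter (fun m : ℕ => ¬ (m : ℝ) ≤ Real.exp (3 * y ^ 4 / 4))).card : ℝ) ≤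
        Real.exp (Wr + 1) * Real.exp (y ^ 4 / 2) := by
      have h3 := fin_smooth_card N (by omega) Wr hWr0
      rw [← hS, hy] at h3
      refine le_trans ?_ h3
      exact_mod_cast Finset.card_filter_le _ _
    calc ((S.filter (fun m : ℕ => ¬ (m : ℝ) ≤ Real.exp (3 * y ^ 4 / 4))).card : ℝ) *
          Real.exp (y ^ 4 / 4)
        ≤ (Real.exp (Wr + 1) * Real.exp (y ^ 4 / 2)) * Real.exp (y ^ 4 / 4) := by gcongr
      _ = Real.exp (y ^ 4) * Real.exp (Wr + 1 - y ^ 4 / 4) := by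
          rw [← Real.exp_add, ← Real.exp_add, ← Real.exp_add]; congr 1; ring
      _ ≤ Real.exp (y ^ 4) * Real.exp (-(y ^ 4 / 8)) := by
          apply mul_le_mul_of_nonneg_left _ (Real.exp_pos _).le
          apply Real.exp_le_exp.2
          have h4 : Wr ≤ y ^ 3 / 8 := by rw [hWr]; exact hCL3
          have h5 : 2 * y ^ 3 ≤ y ^ 4 := by
            have : y ^ 4 = y * y ^ 3 := by ring
            rw [this]
            have : 0 ≤ y ^ 3 := by positivity
            nlinarith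
          linarith
      _ = N * Real.exp (-(y ^ 4 / 8)) := by rw [← hNexp]

open scoped Classical in
theorem final_of (k : ℕ) (H : RoughStmt k) :
    ∃ c' C' : ℝ, 0 < c' ∧ 0 < C' ∧ ∀ N : ℕ, 2 ≤ N →
      (((Icc 1 N).filter (fun n => ¬ Short k n)).card : ℝ) ≤
        C' * N * Real.exp (-(c' * Real.log N ^ (3 / 4 : ℝ))) := by
  obtain ⟨c, C, D₀, hc, hC, H⟩ := H
  obtain ⟨c3, hc3⟩ : ∃ c3 : ℝ, c3 = 1 / (2 * (1 + C)) := ⟨_, rfl⟩
  have hc3pos : 0 < c3 := by rw [hc3]; positivity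
  obtain ⟨c', hc'⟩ : ∃ c' : ℝ, c' = c * (c3 / 2) ^ 3 / 2 := ⟨_, rfl⟩
  have hc'pos : 0 < c' := by rw [hc']; positivity
  obtain ⟨Y, hY⟩ : ∃ Y : ℝ, Y = 2 + 8 * c' + (D₀ + 1 + 2 * Real.log 2) / c3 := ⟨_, rfl⟩
  have hlog2 : 0 < Real.log 2 := Real.log_pos (by norm_num)
  have hY2 : 2 ≤ Y := by
    rw [hY]
    have : 0 ≤ (D₀ + 1 + 2 * Real.log 2) / c3 := by positivity
    linarith
  obtain ⟨C1, hC1⟩ : ∃ C1 : ℝ, C1 = 2 + 2 / c' ^ 2 := ⟨_, rfl⟩
  have hC1pos : 0 < C1 := by rw [hC1]; positivity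
  refine ⟨c', C1 + 1 + Real.exp (c' * Y ^ 3), hc'pos, by positivity, ?_⟩
  intro N hN
  have hN2 : (2 : ℝ) ≤ N := by exact_mod_cast hN
  have hN0 : (0 : ℝ) < N := by linarith
  have hx : 0 < Real.log N := Real.log_pos (by linarith)
  obtain ⟨y, hy⟩ : ∃ y : ℝ, y = Real.log N ^ (1 / 4 : ℝ) := ⟨_, rfl⟩
  have hy0 : 0 ≤ y := by rw [hy]; positivity
  have hy4 : Real.log N = y ^ 4 := by
    rw [hy, ← Real.rpow_natCast, ← Real.rpow_mul hx.le]
    norm_num
  have hy3 : Real.log N ^ (3 / 4 : ℝ) = y ^ 3 := by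
    rw [hy, ← Real.rpow_natCast, ← Real.rpow_mul hx.le]
    norm_num
  rw [hy3]
  by_cases hbig : Y ≤ y
  · have hc3y : D₀ + 1 + 2 * Real.log 2 ≤ c3 * y := by
      have h1 : (D₀ + 1 + 2 * Real.log 2) / c3 ≤ y := by
        refine le_trans ?_ hbig
        rw [hY]
        linarith
      rw [div_le_iff₀ hc3pos] at h1
      linarith
    have h1 := fin_large k c C D₀ hc hC H c3 hc3 N hN y hy4 (hY2.trans hbig) (by
      have h2 := Real.add_one_le_exp (c3 * y)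
      linarith) (by
      have : (0 : ℝ) ≤ D₀ := Nat.cast_nonneg _
      linarith)
    refine h1.trans ?_
    have h2 : (1 + y ^ 4) * Real.exp (-(c * (c3 / 2) ^ 3 * y ^ 3)) ≤
        C1 * Real.exp (-(c' * y ^ 3)) := by
      have h3 : 1 + y ^ 4 ≤ C1 * Real.exp (c' * y ^ 3) := by
        have h4 : 1 + y ^ 4 ≤ 2 + y ^ 6 := by nlinarith [sq_nonneg (y ^ 3 - y), sq_nonneg (y ^ 2 - 1), pow_nonneg hy0 2, pow_nonneg hy0 3]
        have h5 : (c' * y ^ 3) ^ 2 / 2 ≤ Real.exp (c' * y ^ 3) := by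
          have := Real.quadratic_le_exp_of_nonneg (x := c' * y ^ 3) (by positivity)
          have h6 : 0 ≤ c' * y ^ 3 := by positivity
          linarith
        have h6 : y ^ 6 ≤ 2 / c' ^ 2 * Real.exp (c' * y ^ 3) := by
          rw [div_mul_eq_mul_div, le_div_iff₀ (by positivity)]
          have : y ^ 6 * c' ^ 2 = (c' * y ^ 3) ^ 2 := by ring
          rw [this]
          linarith
        have h7 : 1 ≤ Real.exp (c' * y ^ 3) := Real.one_le_exp (by positivity)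
        rw [hC1]
        linarith
      have h8 : Real.exp (-(c * (c3 / 2) ^ 3 * y ^ 3)) =
          Real.exp (-(c' * y ^ 3)) * Real.exp (-(c' * y ^ 3)) := by
        rw [← Real.exp_add, hc']
        congr 1
        ring
      rw [h8, ← mul_assoc]
      apply mul_le_mul_of_nonneg_right _ (Real.exp_pos _).le
      calc (1 + y ^ 4) * Real.exp (-(c' * y ^ 3)) ≤
            (C1 * Real.exp (c' * y ^ 3)) * Real.exp (-(c' * y ^ 3)) := by gcongr
        _ = C1 := by rw [mul_assoc, ← Real.exp_add, add_neg_cancel, Real.exp_zero, mul_one]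
    have h3 : Real.exp (-(y ^ 4 / 8)) ≤ Real.exp (-(c' * y ^ 3)) := by
      apply Real.exp_le_exp.2
      have h4 : 8 * c' ≤ y := by
        refine le_trans ?_ hbig
        rw [hY]
        have : 0 ≤ (D₀ + 1 + 2 * Real.log 2) / c3 := by positivity
        linarith
      have h5 : y ^ 4 = y * y ^ 3 := by ring
      rw [h5]
      have : 0 ≤ y ^ 3 := by positivity
      nlinarith
    calc N * ((1 + y ^ 4) * Real.exp (-(c * (c3 / 2) ^ 3 * y ^ 3)) + Real.exp (-(y ^ 4 / 8)))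
        ≤ N * (C1 * Real.exp (-(c' * y ^ 3)) + Real.exp (-(c' * y ^ 3))) := by gcongr
      _ = (C1 + 1) * N * Real.exp (-(c' * y ^ 3)) := by ring
      _ ≤ (C1 + 1 + Real.exp (c' * Y ^ 3)) * N * Real.exp (-(c' * y ^ 3)) := by
          have h6 : C1 + 1 ≤ C1 + 1 + Real.exp (c' * Y ^ 3) := by
            linarith [Real.exp_pos (c' * Y ^ 3)]
          exact mul_le_mul_of_nonneg_right (mul_le_mul_of_nonneg_right h6 hN0.le)
            (Real.exp_pos _).le
  · push Not at hbig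
    have h1 : (((Icc 1 N).filter (fun n => ¬ Short k n)).card : ℝ) ≤ N := by
      have h2 := Finset.card_filter_le (Icc 1 N) (fun n => ¬ Short k n)
      rw [Nat.card_Icc, Nat.add_sub_cancel] at h2
      exact_mod_cast h2
    have h3 : 1 ≤ Real.exp (c' * Y ^ 3) * Real.exp (-(c' * y ^ 3)) := by
      rw [← Real.exp_add]
      apply Real.one_le_exp
      have : y ^ 3 ≤ Y ^ 3 := pow_le_pow_left₀ hy0 hbig.le 3
      nlinarith
    calc (((Icc 1 N).filter (fun n => ¬ Short k n)).card : ℝ) ≤ N * 1 := by linarith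
      _ ≤ N * (Real.exp (c' * Y ^ 3) * Real.exp (-(c' * y ^ 3))) := by gcongr
      _ = Real.exp (c' * Y ^ 3) * N * Real.exp (-(c' * y ^ 3)) := by ring
      _ ≤ (C1 + 1 + Real.exp (c' * Y ^ 3)) * N * Real.exp (-(c' * y ^ 3)) := by
          gcongr
          linarith

end SES
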