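import Pool.Agent.Lib.MP_393cd8_nt.Defs

/-!
# Module A: an event gives a short expansion
-/

set_option autoImplicit false

namespace SES

open Finset

private theorem short_of_three {k n m₁ m₂ m₃ : ℕ} (h₁ : 0 < m₁) (h₂ : 0 < m₂) (h₃ : 0 < m₃)
    (h12 : m₁ ≠ m₂) (h13 : m₁ ≠ m₃) (h23 : m₂ ≠ m₃)
    (h : (k : ℚ) / n = 1 / m₁ + 1 / m₂ + 1 / m₃) : Short k n := by
  refine ⟨{m₁, m₂, m₃}, Finset.card_le_three, ?_, ?_⟩
  · intro m hm
    simp only [Finset.mem_insert, Finset.mem_singleton] at hm
    rcases hm with rfl | rfl | rfl <;> assumption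
  · rw [Finset.sum_insert (by simp [h12, h13]), Finset.sum_insert (by simp [h23]),
      Finset.sum_singleton, h]
    ring

theorem short_of_hd {k K l h D n : ℕ} (hk : 0 < k) (hD : 2 ≤ D) (hh : 1 ≤ h)
    (hn : D ^ (2 * h + 4) < n) {e : ℕ × ℕ × ℕ × ℕ} (he : e ∈ EV k K l h D) (h1 : Hd n e) :
    Short k n := by
  obtain ⟨q, s, a, c⟩ := e
  simp only [EV, TT, PP, SS, AS, Finset.mem_filter, Finset.mem_product, Finset.mem_Ioc,
    Finset.mem_Icc] at he
  unfold Hd at h1
  simp only at h1
  obtain ⟨⟨⟨⟨hq1, hq2⟩, hqp⟩, ⟨⟨hs1, hs2⟩, -⟩, ⟨⟨ha1, ha2⟩, -⟩, ⟨⟨hc1, hc2⟩, -⟩⟩, -, -, hdiv⟩ := he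
  obtain ⟨d, hd⟩ := hdiv
  obtain ⟨b, hb⟩ := h1
  have hD0 : 0 < D := by omega
  have ha0 : 0 < a := lt_of_le_of_lt (Nat.zero_le _) ha1
  have hc0 : 0 < c := lt_of_le_of_lt (Nat.zero_le _) hc1
  have hq0 : 2 ≤ q := hqp.two_le
  have hD3n : D ^ 3 < n := lt_of_le_of_lt (Nat.pow_le_pow_right hD0 (by omega)) hn
  have hn0 : 0 < n := by omega
  have hd0 : 0 < d := by
    rcases Nat.eq_zero_or_pos d with rfl | h0
    · simp at hd
    · exact h0
  have hb0 : 0 < b := by
    rcases Nat.eq_zero_or_pos b with rfl | h0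
    · simp only [mul_zero] at hb
      omega
    · exact h0
  -- b < n c
  have hbnc : b < n * c := by
    have h2 : 2 * b ≤ q * s * b := by
      have : 2 ≤ q * s := le_trans hq0 (Nat.le_mul_of_pos_right _ hs1)
      exact Nat.mul_le_mul_right _ this
    have h3 : n ≤ n * c := Nat.le_mul_of_pos_right _ hc0
    omega
  -- a < n c
  have hanc : a < n * c := by
    have h3 : n ≤ n * c := Nat.le_mul_of_pos_right _ hc0
    omega
  -- a < b
  have hab : a < b := by
    by_contra hcon
    have hba : b ≤ D ^ 3 := by omega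
    have hqs : q * s ≤ D ^ (2 * h + 1) := by
      calc q * s ≤ (D ^ h) ^ 2 * D := Nat.mul_le_mul hq2 hs2
        _ = D ^ (2 * h + 1) := by ring
    have h4 : q * s * b ≤ D ^ (2 * h + 1) * D ^ 3 := Nat.mul_le_mul hqs hba
    have h5 : D ^ (2 * h + 1) * D ^ 3 = D ^ (2 * h + 4) := by ring
    have h3 : n ≤ n * c := Nat.le_mul_of_pos_right _ hc0
    omega
  -- the identity
  have key : k * (a * b * c * d) = n * c + a + b := by
    calc k * (a * b * c * d) = k * a * c * d * b := by ring
      _ = (q * s + 1) * b := by rw [← hd]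
      _ = q * s * b + b := by ring
      _ = n * c + a + b := by rw [← hb]
  have keyQ : (k : ℚ) * (a * b * c * d) = n * c + a + b := by exact_mod_cast key
  refine short_of_three (m₁ := a * b * d) (m₂ := a * c * d * n) (m₃ := b * c * d * n)
    (by positivity) (by positivity) (by positivity) ?_ ?_ ?_ ?_
  · intro hcon
    have : (a * d) * b = (a * d) * (n * c) := by
      calc (a * d) * b = a * b * d := by ring
        _ = a * c * d * n := hcon
        _ = (a * d) * (n * c) := by ring
    have := Nat.eq_of_mul_eq_mul_left (by positivity) this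
    omega
  · intro hcon
    have : (b * d) * a = (b * d) * (n * c) := by
      calc (b * d) * a = a * b * d := by ring
        _ = b * c * d * n := hcon
        _ = (b * d) * (n * c) := by ring
    have := Nat.eq_of_mul_eq_mul_left (by positivity) this
    omega
  · intro hcon
    have : (c * d * n) * a = (c * d * n) * b := by
      calc (c * d * n) * a = a * c * d * n := by ring
        _ = b * c * d * n := hcon
        _ = (c * d * n) * b := by ring
    have := Nat.eq_of_mul_eq_mul_left (by positivity) this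
    omega
  · have ha' : (a : ℚ) ≠ 0 := by positivity
    have hb' : (b : ℚ) ≠ 0 := by positivity
    have hc' : (c : ℚ) ≠ 0 := by positivity
    have hd' : (d : ℚ) ≠ 0 := by positivity
    have hn' : (n : ℚ) ≠ 0 := by positivity
    push_cast
    have : (1 : ℚ) / (a * b * d) + 1 / (a * c * d * n) + 1 / (b * c * d * n) =
        (n * c + a + b) / (a * b * c * d * n) := by
      field_simp
      ring
    rw [this, ← keyQ]
    field_simp

theorem short_mul {k n m : ℕ} (hm : 0 < m) (h : Short k n) : Short k (m * n) := by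
  obtain ⟨S, hS, hpos, hsum⟩ := h
  have hinj : Set.InjOn (fun x => m * x) (S : Set ℕ) := fun x _ y _ hxy =>
    Nat.eq_of_mul_eq_mul_left hm hxy
  refine ⟨S.image (fun x => m * x), le_trans Finset.card_image_le hS, ?_, ?_⟩
  · intro x hx
    obtain ⟨y, hy, rfl⟩ := Finset.mem_image.mp hx
    exact Nat.mul_pos hm (hpos y hy)
  · rw [Finset.sum_image hinj]
    have hm' : (m : ℚ) ≠ 0 := by positivity
    have : ∀ x ∈ S, (1 : ℚ) / ((m * x : ℕ) : ℚ) = (1 / m) * (1 / x) := by
      intro x _
      push_cast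
      rw [one_div, mul_inv]
      simp [one_div]
    rw [Finset.sum_congr rfl this, ← Finset.mul_sum, ← hsum]
    push_cast
    rw [div_mul_div_comm, one_mul]

end SES
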