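import Mathlib

/-!
# Module M: systems of congruences on an interval
-/

set_option autoImplicit false

namespace SES

open Finset

private lemma id_count (N L n0 : ℕ) (hL : 0 < L) :
    (((range N).filter (fun n => n ≡ n0 [MOD L])).card : ℝ) =
      ((N / L : ℕ) : ℝ) + (if n0 % L < N % L then 1 else 0) := by
  have h := Nat.count_modEq_card N hL n0
  rw [Nat.count_eq_card_filter_range] at h
  rw [h]
  push_cast
  rfl

private lemma id_div (N L : ℕ) (hL : 0 < L) :
    ((N / L : ℕ) : ℝ) = (N : ℝ) / L - ((N % L : ℕ) : ℝ) / L := by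
  have hL' : (0 : ℝ) < L := by exact_mod_cast hL
  have h : (L : ℝ) * ((N / L : ℕ) : ℝ) + ((N % L : ℕ) : ℝ) = N := by
    exact_mod_cast Nat.div_add_mod N L
  rw [← h]
  field_simp
  ring

theorem interval_disc {ι : Type*} (J : Finset ι) (m r : ι → ℕ) (M N : ℕ) (hM : 0 < M)
    (hm : ∀ i ∈ J, m i ∣ M) :
    |(((range N).filter (fun n => ∀ i ∈ J, n ≡ r i [MOD m i])).card : ℝ) -
      (N : ℝ) / M * ((range M).filter (fun n => ∀ i ∈ J, n ≡ r i [MOD m i])).card| ≤ 1 := by
  by_cases hex : ∃ n0 : ℕ, ∀ i ∈ J, n0 ≡ r i [MOD m i]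
  · obtain ⟨n0, hn0⟩ := hex
    obtain ⟨L, hLdef⟩ : ∃ L : ℕ, L = J.lcm m := ⟨_, rfl⟩
    have hLM : L ∣ M := by rw [hLdef]; exact Finset.lcm_dvd hm
    have hL : 0 < L := Nat.pos_of_dvd_of_pos hLM hM
    have hiff : ∀ n : ℕ, (∀ i ∈ J, n ≡ r i [MOD m i]) ↔ n ≡ n0 [MOD L] := by
      intro n
      rw [Nat.modEq_iff_dvd, Int.natCast_dvd, hLdef, Finset.lcm_dvd_iff]
      constructor
      · intro h i hi
        have h1 : n ≡ n0 [MOD m i] := (h i hi).trans (hn0 i hi).symm
        rw [Nat.modEq_iff_dvd, Int.natCast_dvd] at h1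
        exact h1
      · intro h i hi
        have h1 : n ≡ n0 [MOD m i] := by
          rw [Nat.modEq_iff_dvd, Int.natCast_dvd]
          exact h i hi
        exact h1.trans (hn0 i hi)
    simp only [hiff]
    rw [id_count N L n0 hL, id_count M L n0 hL, id_div N L hL, id_div M L hL]
    have hMmod : M % L = 0 := Nat.mod_eq_zero_of_dvd hLM
    rw [hMmod]
    have hL' : (0 : ℝ) < L := by exact_mod_cast hL
    have hM' : (0 : ℝ) < M := by exact_mod_cast hM
    have e : (N : ℝ) / M * ((M : ℝ) / L - ((0 : ℕ) : ℝ) / L + (if n0 % L < 0 then 1 else 0)) =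
        (N : ℝ) / L := by
      rw [if_neg (Nat.not_lt_zero _)]
      push_cast
      field_simp
      ring
    rw [e]
    have h1 : 0 ≤ ((N % L : ℕ) : ℝ) / L := by positivity
    have h2 : ((N % L : ℕ) : ℝ) / L ≤ 1 := by
      rw [div_le_one hL']
      exact_mod_cast (Nat.mod_lt N hL).le
    rw [abs_le]
    split_ifs <;> constructor <;> linarith
  · have h : ∀ n : ℕ, ¬ ∀ i ∈ J, n ≡ r i [MOD m i] := fun n hn => hex ⟨n, hn⟩
    have e : ∀ X : ℕ, (range X).filter (fun n => ∀ i ∈ J, n ≡ r i [MOD m i]) = ∅ :=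
      fun X => Finset.filter_false_of_mem fun n _ => h n
    rw [e N, e M]
    simp

end SES
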