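import Pool.Agent.Lib.MP_393cd8_nt.ClassSum

/-!
# Module G: sums of `1 / φ(a)` over a residue class
-/

set_option autoImplicit false

namespace SES

open Finset

/-- `1 / φ` as an arithmetic function -/
private noncomputable def ivPhi : ArithmeticFunction ℝ :=
  ⟨fun n => ((Nat.totient n : ℝ))⁻¹, by simp⟩

private lemma ivPhi_apply (n : ℕ) : ivPhi n = ((Nat.totient n : ℝ))⁻¹ := rfl

private lemma ivPhi_mult : ivPhi.IsMultiplicative := by
  refine ⟨by simp [ivPhi_apply], ?_⟩
  intro m n h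
  rw [ivPhi_apply, ivPhi_apply, ivPhi_apply, Nat.totient_mul h, Nat.cast_mul, mul_inv]

/-- `1 / (n φ(n))` as an arithmetic function -/
private noncomputable def ivnPhi : ArithmeticFunction ℝ :=
  ⟨fun n => ((n : ℝ) * (Nat.totient n : ℝ))⁻¹, by simp⟩

private lemma ivnPhi_apply (n : ℕ) : ivnPhi n = ((n : ℝ) * (Nat.totient n : ℝ))⁻¹ := rfl

private lemma ivnPhi_mult : ivnPhi.IsMultiplicative := by
  refine ⟨by simp [ivnPhi_apply], ?_⟩
  intro m n h
  rw [ivnPhi_apply, ivnPhi_apply, ivnPhi_apply, Nat.totient_mul h]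
  push_cast
  rw [← mul_inv]
  congr 1
  ring

/-- squarefree part of the weight -/
private noncomputable def gw (d : ℕ) : ℝ := if Squarefree d then ((Nat.totient d : ℝ))⁻¹ else 0

private lemma gw_nonneg (d : ℕ) : 0 ≤ gw d := by
  unfold gw
  split_ifs <;> positivity

private lemma sqf_prod (S : Finset ℕ) (hS : ∀ p ∈ S, p.Prime) : Squarefree (∏ p ∈ S, p) := by
  classical
  induction S using Finset.induction_on with
  | empty => simp
  | insert q T hq ih =>
    rw [prod_insert hq]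
    have hco : Nat.Coprime q (∏ p ∈ T, p) := by
      refine Nat.Coprime.prod_right (fun p hp => ?_)
      refine (Nat.coprime_primes (hS q (mem_insert_self q T)) (hS p (mem_insert_of_mem hp))).mpr ?_
      rintro rfl
      exact hq hp
    rw [Nat.squarefree_mul hco]
    exact ⟨(hS q (mem_insert_self q T)).prime.squarefree,
      ih (fun p hp => hS p (mem_insert_of_mem hp))⟩

private lemma inv_phi_eq {a : ℕ} (ha : 0 < a) :
    ((Nat.totient a : ℝ))⁻¹ ≤ (a : ℝ)⁻¹ * ∑ d ∈ a.divisors, gw d := by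
  set r := ∏ p ∈ a.primeFactors, p with hr
  have hrsq : Squarefree r := sqf_prod _ (fun p hp => Nat.prime_of_mem_primeFactors hp)
  have hrd : r ∣ a := Nat.prod_primeFactors_dvd a
  have hrpf : r.primeFactors = a.primeFactors := by
    exact Nat.primeFactors_prod (fun p hp => Nat.prime_of_mem_primeFactors hp)
  have h1 := ivPhi_mult.prodPrimeFactors_one_add_of_squarefree hrsq
  have h2 : ∑ d ∈ r.divisors, ivPhi d ≤ ∑ d ∈ a.divisors, gw d := by
    calc ∑ d ∈ r.divisors, ivPhi d = ∑ d ∈ r.divisors, gw d := by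
          refine sum_congr rfl (fun d hd => ?_)
          have : Squarefree d := hrsq.squarefree_of_dvd (Nat.dvd_of_mem_divisors hd)
          rw [gw, if_pos this, ivPhi_apply]
      _ ≤ ∑ d ∈ a.divisors, gw d :=
          sum_le_sum_of_subset_of_nonneg (Nat.divisors_subset_of_dvd ha.ne' hrd)
            (fun d _ _ => gw_nonneg d)
  have h3 : ((Nat.totient a : ℝ))⁻¹ = (a : ℝ)⁻¹ * ∏ p ∈ r.primeFactors, (1 + ivPhi p) := by
    have h4 : (Nat.totient a : ℝ) = a * ∏ p ∈ a.primeFactors, (1 - (p : ℝ)⁻¹) := by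
      have := Nat.totient_eq_mul_prod_factors a
      have h5 := congrArg (fun q : ℚ => (q : ℝ)) this
      push_cast at h5
      exact h5
    rw [h4, mul_inv, hrpf, ← prod_inv_distrib]
    congr 1
    refine prod_congr rfl (fun p hp => ?_)
    have hpp := Nat.prime_of_mem_primeFactors hp
    rw [ivPhi_apply, Nat.totient_prime hpp, Nat.cast_sub hpp.one_lt.le, Nat.cast_one]
    have hp1 : (1 : ℝ) < p := by exact_mod_cast hpp.one_lt
    have hp0 : (p : ℝ) ≠ 0 := by linarith
    have hp2 : (p : ℝ) - 1 ≠ 0 := by linarith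
    field_simp
    ring
  rw [h3, h1]
  exact mul_le_mul_of_nonneg_left h2 (by positivity)

/-- the sum of `1 / (d φ(d))` over squarefree `d` is bounded -/
private lemma sum_gw_div (N : ℕ) : ∑ d ∈ Icc 1 N, gw d / d ≤ Real.exp 1 := by
  have hsq : Squarefree (primorial N) := by
    unfold primorial
    exact sqf_prod _ (fun p hp => (mem_filter.mp hp).2)
  have h1 := ivnPhi_mult.prodPrimeFactors_one_add_of_squarefree hsq
  have h2 : ∑ d ∈ Icc 1 N, gw d / d ≤ ∑ d ∈ (primorial N).divisors, ivnPhi d := by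
    have h3 : ∑ d ∈ Icc 1 N, gw d / d = ∑ d ∈ (Icc 1 N).filter Squarefree, ivnPhi d := by
      rw [sum_filter]
      refine sum_congr rfl (fun d _ => ?_)
      unfold gw
      split_ifs
      · rw [ivnPhi_apply, mul_inv, div_eq_mul_inv, mul_comm]
      · simp
    rw [h3]
    refine sum_le_sum_of_subset_of_nonneg ?_ (fun d _ _ => ?_)
    · intro d hd
      rw [mem_filter, mem_Icc] at hd
      rw [Nat.mem_divisors]
      refine ⟨?_, hsq.ne_zero⟩
      rw [← Nat.prod_primeFactors_of_squarefree hd.2]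
      unfold primorial
      refine prod_dvd_prod_of_subset _ _ _ ?_
      intro p hp
      rw [mem_filter, mem_range]
      have h5 := Nat.le_of_mem_primeFactors hp
      exact ⟨by omega, Nat.prime_of_mem_primeFactors hp⟩
    · rw [ivnPhi_apply]
      positivity
  refine h2.trans ?_
  rw [← h1]
  have h4 : ∏ p ∈ (primorial N).primeFactors, (1 + ivnPhi p) ≤
      ∏ p ∈ (primorial N).primeFactors, Real.exp (ivnPhi p) := by
    refine prod_le_prod (fun p _ => ?_) (fun p _ => ?_)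
    · rw [ivnPhi_apply]
      positivity
    · rw [add_comm]
      exact Real.add_one_le_exp _
  refine h4.trans ?_
  rw [← Real.exp_sum]
  refine Real.exp_le_exp.mpr ?_
  have h5 : ∑ p ∈ (primorial N).primeFactors, ivnPhi p ≤
      ∑ n ∈ Ioc 1 N, ((n : ℝ) * ((n : ℝ) - 1))⁻¹ := by
    have h6 : ∀ p ∈ (primorial N).primeFactors, p ∈ Ioc 1 N := by
      intro p hp
      have hpp := Nat.prime_of_mem_primeFactors hp
      rw [mem_Ioc]
      refine ⟨hpp.one_lt, ?_⟩
      have hd := Nat.dvd_of_mem_primeFactors hp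
      unfold primorial at hd
      rw [Prime.dvd_finsetProd_iff hpp.prime] at hd
      obtain ⟨q, hq, hpq⟩ := hd
      rw [mem_filter, mem_range] at hq
      have := (Nat.prime_dvd_prime_iff_eq hpp hq.2).mp hpq
      omega
    calc ∑ p ∈ (primorial N).primeFactors, ivnPhi p
        = ∑ p ∈ (primorial N).primeFactors, ((p : ℝ) * ((p : ℝ) - 1))⁻¹ := by
          refine sum_congr rfl (fun p hp => ?_)
          have hpp := Nat.prime_of_mem_primeFactors hp
          rw [ivnPhi_apply, Nat.totient_prime hpp, Nat.cast_sub hpp.one_lt.le, Nat.cast_one]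
      _ ≤ ∑ n ∈ Ioc 1 N, ((n : ℝ) * ((n : ℝ) - 1))⁻¹ := by
          refine sum_le_sum_of_subset_of_nonneg h6 (fun n hn _ => ?_)
          rw [mem_Ioc] at hn
          have : (1 : ℝ) < n := by exact_mod_cast hn.1
          have h7 : (0 : ℝ) < n := by linarith
          have h8 : (0 : ℝ) < (n : ℝ) - 1 := by linarith
          positivity
  refine h5.trans ?_
  rcases Nat.eq_zero_or_pos N with h0 | hpos
  · subst h0
    simp
  have h9 : ∀ M : ℕ, 1 ≤ M → ∑ n ∈ Ioc 1 M, ((n : ℝ) * ((n : ℝ) - 1))⁻¹ = 1 - (M : ℝ)⁻¹ := by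
    intro M hM
    induction M, hM using Nat.le_induction with
    | base => simp
    | succ M hM ih =>
      rw [sum_Ioc_succ_top hM, ih]
      have hM0 : (0 : ℝ) < M := by exact_mod_cast hM
      push_cast
      rw [add_sub_cancel_right]
      have hM1 : (M : ℝ) + 1 ≠ 0 := by positivity
      field_simp
      ring
  rw [h9 N hpos]
  have : (0 : ℝ) ≤ (N : ℝ)⁻¹ := by positivity
  linarith

private lemma harm_le (N : ℕ) : ∑ m ∈ Icc 1 N, ((m : ℝ))⁻¹ ≤ 1 + Real.log N := by
  have h := harmonic_le_one_add_log N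
  rw [harmonic_eq_sum_Icc] at h
  push_cast at h
  exact h

/-- exchange of summations -/
private lemma swap_sum {N : ℕ} (A : Finset ℕ) (hA : A ⊆ Icc 1 N) :
    ∑ a ∈ A, ((Nat.totient a : ℝ))⁻¹ ≤
      ∑ e ∈ Icc 1 N, gw e * ∑ a ∈ A.filter (fun a => e ∣ a), (1 : ℝ) / a := by
  calc ∑ a ∈ A, ((Nat.totient a : ℝ))⁻¹
      ≤ ∑ a ∈ A, (a : ℝ)⁻¹ * ∑ d ∈ a.divisors, gw d := by
        refine sum_le_sum (fun a ha => inv_phi_eq ?_)
        exact (mem_Icc.mp (hA ha)).1
    _ = ∑ a ∈ A, ∑ e ∈ Icc 1 N, (if e ∣ a then gw e * (1 / (a : ℝ)) else 0) := by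
        refine sum_congr rfl (fun a ha => ?_)
        have ha1 := mem_Icc.mp (hA ha)
        rw [← sum_filter, mul_sum]
        refine sum_congr ?_ (fun e _ => by ring)
        ext e
        rw [Nat.mem_divisors, mem_filter, mem_Icc]
        constructor
        · rintro ⟨h1, h2⟩
          exact ⟨⟨Nat.pos_of_dvd_of_pos h1 ha1.1, (Nat.le_of_dvd ha1.1 h1).trans ha1.2⟩, h1⟩
        · rintro ⟨_, h1⟩
          exact ⟨h1, by omega⟩
    _ = ∑ e ∈ Icc 1 N, gw e * ∑ a ∈ A.filter (fun a => e ∣ a), (1 : ℝ) / a := by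
        rw [sum_comm]
        refine sum_congr rfl (fun e _ => ?_)
        rw [mul_sum, sum_filter]

/-- `∑_{d ≤ N} 1/φ(d) ≤ e (1 + log N)` -/
private lemma sum_inv_phi {N : ℕ} (hN : 1 ≤ N) :
    ∑ d ∈ Icc 1 N, ((Nat.totient d : ℝ))⁻¹ ≤ Real.exp 1 * (1 + Real.log N) := by
  have hlog : 0 ≤ 1 + Real.log N := by
    have : 0 ≤ Real.log (N : ℝ) := Real.log_natCast_nonneg N
    linarith
  refine (swap_sum (Icc 1 N) (Subset.refl _)).trans ?_
  have h1 : ∀ e ∈ Icc 1 N, gw e * ∑ a ∈ (Icc 1 N).filter (fun a => e ∣ a), (1 : ℝ) / a ≤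
      gw e / e * (1 + Real.log N) := by
    intro e he
    rw [mem_Icc] at he
    have he0 : (0 : ℝ) < e := by exact_mod_cast he.1
    have h2 : ∑ a ∈ (Icc 1 N).filter (fun a => e ∣ a), (1 : ℝ) / a ≤
        ∑ m ∈ Icc 1 N, (e : ℝ)⁻¹ * ((m : ℝ))⁻¹ := by
      calc ∑ a ∈ (Icc 1 N).filter (fun a => e ∣ a), (1 : ℝ) / a
          ≤ ∑ a ∈ (Icc 1 N).image (fun m => e * m), (1 : ℝ) / a := by
            refine sum_le_sum_of_subset_of_nonneg ?_ (fun a _ _ => by positivity)
            intro a ha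
            rw [mem_filter, mem_Icc] at ha
            obtain ⟨⟨ha1, ha2⟩, m, rfl⟩ := ha
            rw [mem_image]
            refine ⟨m, ?_, rfl⟩
            rw [mem_Icc]
            refine ⟨Nat.pos_of_mul_pos_left ha1, ?_⟩
            exact (Nat.le_mul_of_pos_left m he.1).trans ha2
        _ = ∑ m ∈ Icc 1 N, (e : ℝ)⁻¹ * ((m : ℝ))⁻¹ := by
            rw [sum_image (fun a _ b _ hab => Nat.eq_of_mul_eq_mul_left he.1 hab)]
            refine sum_congr rfl (fun m _ => ?_)
            push_cast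
            rw [one_div, mul_inv]
    have h3 : ∑ m ∈ Icc 1 N, (e : ℝ)⁻¹ * ((m : ℝ))⁻¹ ≤ (e : ℝ)⁻¹ * (1 + Real.log N) := by
      rw [← mul_sum]
      exact mul_le_mul_of_nonneg_left (harm_le N) (by positivity)
    calc gw e * ∑ a ∈ (Icc 1 N).filter (fun a => e ∣ a), (1 : ℝ) / a
        ≤ gw e * ((e : ℝ)⁻¹ * (1 + Real.log N)) :=
          mul_le_mul_of_nonneg_left (h2.trans h3) (gw_nonneg e)
      _ = gw e / e * (1 + Real.log N) := by rw [div_eq_mul_inv]; ring
  refine (sum_le_sum h1).trans ?_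
  rw [← sum_mul]
  exact mul_le_mul_of_nonneg_right (sum_gw_div N) hlog

theorem phi_sum : ∃ C : ℝ, 0 < C ∧ ∀ D s α : ℕ, 2 ≤ D → 1 ≤ s → s ≤ D → α.Coprime s →
    ∑ a ∈ (Ioc (D ^ 2) (D ^ 3)).filter (fun a => a ≡ α [MOD s]), (1 : ℝ) / Nat.totient a ≤
      C * Real.log D / s := by
  refine ⟨6 * Real.exp 1, by positivity, ?_⟩
  intro D s α hD hs hsD hco
  have hD0 : (0 : ℝ) < D := by positivity
  have hs0 : (0 : ℝ) < s := by exact_mod_cast hs
  have hlog2 : Real.log 2 ≤ Real.log D := Real.log_le_log (by norm_num) (by exact_mod_cast hD)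
  have hlogD : 0 < Real.log D := by
    have := Real.log_two_gt_d9
    linarith
  set A := (Ioc (D ^ 2) (D ^ 3)).filter (fun a => a ≡ α [MOD s]) with hAdef
  have hA : A ⊆ Icc 1 (D ^ 3) := by
    intro a ha
    rw [hAdef, mem_filter, mem_Ioc] at ha
    rw [mem_Icc]
    exact ⟨by omega, ha.1.2⟩
  have h1 : ∀ e ∈ Icc 1 (D ^ 3), ∑ a ∈ A.filter (fun a => e ∣ a), (1 : ℝ) / a ≤
      Real.log D / (e * s) + 1 / (D : ℝ) ^ 2 := by
    intro e he
    rw [mem_Icc] at he
    have he0 : (0 : ℝ) < e := by exact_mod_cast he.1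
    by_cases hes : s.Coprime e
    · obtain ⟨β, hβ1, hβ2⟩ := Nat.chineseRemainder hes α 0
      have hset : A.filter (fun a => e ∣ a) =
          (Ioc (D ^ 2) (D ^ 3)).filter (fun a => a ≡ β [MOD (s * e)]) := by
        ext a
        rw [hAdef, mem_filter, mem_filter, mem_filter]
        constructor
        · rintro ⟨⟨h2, h3⟩, h4⟩
          refine ⟨h2, (Nat.modEq_and_modEq_iff_modEq_mul hes).mp ⟨h3.trans hβ1.symm, ?_⟩⟩
          exact ((Nat.modEq_zero_iff_dvd).mpr h4).trans hβ2.symm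
        · rintro ⟨h2, h3⟩
          obtain ⟨h4, h5⟩ := (Nat.modEq_and_modEq_iff_modEq_mul hes).mpr h3
          exact ⟨⟨h2, h4.trans hβ1⟩, (Nat.modEq_zero_iff_dvd).mp (h5.trans hβ2)⟩
      rw [hset]
      have hDD : D ^ 2 ≤ D ^ 3 := Nat.pow_le_pow_right (by omega) (by norm_num)
      have h2 := class_sum_le (A := D ^ 2) (A' := D ^ 3) (m := s * e) β
        (Nat.one_le_pow _ _ (by omega)) hDD (Nat.mul_pos hs he.1)
      refine h2.trans (le_of_eq ?_)
      have h3 : ((D ^ 3 : ℕ) : ℝ) / ((D ^ 2 : ℕ) : ℝ) = D := by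
        push_cast
        field_simp
      rw [h3]
      push_cast
      rw [mul_comm (s : ℝ) (e : ℝ)]
    · have hempty : A.filter (fun a => e ∣ a) = ∅ := by
        rw [filter_eq_empty_iff]
        intro a ha hea
        rw [hAdef, mem_filter] at ha
        apply hes
        rw [Nat.coprime_iff_gcd_eq_one]
        by_contra hg
        obtain ⟨p, hp, hpg⟩ := Nat.exists_prime_and_dvd hg
        have hps : p ∣ s := hpg.trans (Nat.gcd_dvd_left _ _)
        have hpe : p ∣ e := hpg.trans (Nat.gcd_dvd_right _ _)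
        have hpa : p ∣ a := hpe.trans hea
        have hpα : p ∣ α := ((ha.2.dvd_iff hps)).mp hpa
        have := Nat.eq_one_of_dvd_coprimes hco hpα hps
        exact hp.one_lt.ne' this
      rw [hempty, sum_empty]
      positivity
  have h2 : ∑ a ∈ A, (1 : ℝ) / Nat.totient a = ∑ a ∈ A, ((Nat.totient a : ℝ))⁻¹ :=
    sum_congr rfl (fun a _ => one_div _)
  rw [h2]
  refine (swap_sum A hA).trans ?_
  have h3 : ∑ e ∈ Icc 1 (D ^ 3), gw e * ∑ a ∈ A.filter (fun a => e ∣ a), (1 : ℝ) / a ≤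
      ∑ e ∈ Icc 1 (D ^ 3), (gw e / e * (Real.log D / s) + gw e * (1 / (D : ℝ) ^ 2)) := by
    refine sum_le_sum (fun e he => ?_)
    refine (mul_le_mul_of_nonneg_left (h1 e he) (gw_nonneg e)).trans (le_of_eq ?_)
    rw [mem_Icc] at he
    have he0 : (0 : ℝ) < e := by exact_mod_cast he.1
    field_simp
  refine h3.trans ?_
  rw [sum_add_distrib, ← sum_mul, ← sum_mul]
  have hgw : ∑ e ∈ Icc 1 (D ^ 3), gw e ≤ Real.exp 1 * (1 + 3 * Real.log D) := by
    have h4 := sum_inv_phi (N := D ^ 3) (Nat.one_le_pow _ _ (by omega))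
    have h5 : Real.log ((D ^ 3 : ℕ) : ℝ) = 3 * Real.log D := by
      push_cast
      rw [Real.log_pow]
      norm_num
    rw [h5] at h4
    refine le_trans (sum_le_sum (fun e _ => ?_)) h4
    unfold gw
    split_ifs
    · exact le_refl _
    · positivity
  have hDs : 1 / (D : ℝ) ^ 2 ≤ 1 / s := by
    refine one_div_le_one_div_of_le hs0 ?_
    have h4 : (s : ℝ) ≤ D := by exact_mod_cast hsD
    have h5 : (1 : ℝ) ≤ D := by exact_mod_cast (by omega : 1 ≤ D)
    nlinarith
  have h5log : 1 + 3 * Real.log D ≤ 5 * Real.log D := by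
    have := Real.log_two_gt_d9
    linarith
  have he1 := Real.exp_pos 1
  calc (∑ i ∈ Icc 1 (D ^ 3), gw i / i) * (Real.log D / s) +
        (∑ i ∈ Icc 1 (D ^ 3), gw i) * (1 / (D : ℝ) ^ 2)
      ≤ Real.exp 1 * (Real.log D / s) + (Real.exp 1 * (5 * Real.log D)) * (1 / s) := by
        refine add_le_add ?_ ?_
        · exact mul_le_mul_of_nonneg_right (sum_gw_div _) (by positivity)
        · refine mul_le_mul (hgw.trans ?_) hDs (by positivity) (by positivity)
          exact mul_le_mul_of_nonneg_left h5log he1.le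
    _ = 6 * Real.exp 1 * Real.log D / s := by ring

end SES
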