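import Pool.Agent.Lib.MP_393cd8_nt.Defs
import Pool.Agent.Lib.MP_393cd8_nt.PhiSum

/-!
# Module I: upper bound for the mass of the triples
-/

set_option autoImplicit false

namespace SES

open Finset

private lemma mu_harm (D : ℕ) (hD : 2 ≤ D) :
    ∑ s ∈ Icc 1 D, (1 : ℝ) / s ≤ 3 * Real.log D := by
  have h1 := harmonic_le_one_add_log D
  have h2 : ((harmonic D : ℚ) : ℝ) = ∑ s ∈ Icc 1 D, (1 : ℝ) / s := by
    rw [harmonic_eq_sum_Icc]
    push_cast
    exact Finset.sum_congr rfl fun s _ => (one_div _).symm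
  rw [h2] at h1
  have h3 : Real.log 2 ≤ Real.log D :=
    Real.log_le_log (by norm_num) (by exact_mod_cast hD)
  have h4 := Real.log_two_gt_d9
  linarith

theorem mass_up : ∃ C : ℝ, 0 < C ∧ ∀ K l D n : ℕ, 2 ≤ D →
    ∑ t ∈ MS K l D n, (1 : ℝ) / ((Nat.totient t.2.1 : ℝ) * Nat.totient t.2.2) ≤
      C * Real.log D ^ 3 := by
  obtain ⟨C₀, hC₀, hphi⟩ := phi_sum
  refine ⟨3 * C₀ ^ 2, by positivity, fun K l D n hD => ?_⟩
  have hL : 0 < Real.log D := Real.log_pos (by exact_mod_cast hD)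
  -- the inner sum
  have hin : ∀ s ∈ SS K D, ∀ c ∈ AS K l D,
      ∑ a ∈ AS K l D, (if a.Coprime c ∧ s.Coprime (a * c) ∧ s ∣ n * c + a then
        (1 : ℝ) / ((Nat.totient a : ℝ) * Nat.totient c) else 0) ≤
      1 / (Nat.totient c : ℝ) * (C₀ * Real.log D / s) := by
    intro s hs c hc
    have hs1 : 1 ≤ s ∧ s ≤ D := mem_Icc.1 (mem_filter.1 hs).1
    rw [← Finset.sum_filter]
    rcases (filter (fun a => a.Coprime c ∧ s.Coprime (a * c) ∧ s ∣ n * c + a)
      (AS K l D)).eq_empty_or_nonempty with h0 | ⟨a₀, h0⟩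
    · rw [h0, sum_empty]
      positivity
    · obtain ⟨-, -, h2, h3⟩ := mem_filter.1 h0
      have hcop : a₀.Coprime s := (Nat.Coprime.coprime_dvd_right (dvd_mul_right a₀ c) h2).symm
      have hle := hphi D s a₀ hD hs1.1 hs1.2 hcop
      calc ∑ a ∈ filter (fun a => a.Coprime c ∧ s.Coprime (a * c) ∧ s ∣ n * c + a) (AS K l D),
            (1 : ℝ) / ((Nat.totient a : ℝ) * Nat.totient c)
          = 1 / (Nat.totient c : ℝ) * ∑ a ∈ filter (fun a => a.Coprime c ∧ s.Coprime (a * c) ∧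
              s ∣ n * c + a) (AS K l D), (1 : ℝ) / Nat.totient a := by
            rw [mul_sum]
            refine sum_congr rfl fun a _ => ?_
            rw [one_div_mul_one_div, mul_comm (Nat.totient c : ℝ)]
        _ ≤ 1 / (Nat.totient c : ℝ) * ∑ a ∈ (Ioc (D ^ 2) (D ^ 3)).filter
              (fun a => a ≡ a₀ [MOD s]), (1 : ℝ) / Nat.totient a := by
            refine mul_le_mul_of_nonneg_left ?_ (by positivity)
            refine sum_le_sum_of_subset_of_nonneg ?_ (fun _ _ _ => by positivity)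
            intro a ha
            obtain ⟨ha1, -, -, ha2⟩ := mem_filter.1 ha
            refine mem_filter.2 ⟨(mem_filter.1 ha1).1, ?_⟩
            have h4 : n * c + a ≡ n * c + a₀ [MOD s] :=
              (Nat.modEq_zero_iff_dvd.2 ha2).trans (Nat.modEq_zero_iff_dvd.2 h3).symm
            exact Nat.ModEq.add_left_cancel' (n * c) h4
        _ ≤ _ := mul_le_mul_of_nonneg_left hle (by positivity)
  -- the sum over c
  have hmid : ∑ c ∈ AS K l D, 1 / (Nat.totient c : ℝ) ≤ C₀ * Real.log D := by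
    have h1 := hphi D 1 1 hD le_rfl (by omega) (Nat.coprime_one_right 1)
    rw [Nat.cast_one, div_one] at h1
    refine le_trans (sum_le_sum_of_subset_of_nonneg ?_ (fun _ _ _ => by positivity)) h1
    intro a ha
    exact mem_filter.2 ⟨(mem_filter.1 ha).1, Nat.modEq_one⟩
  have hout : ∑ s ∈ SS K D, (1 : ℝ) / s ≤ 3 * Real.log D :=
    le_trans (sum_le_sum_of_subset_of_nonneg (filter_subset _ _) (fun _ _ _ => by positivity))
      (mu_harm D hD)
  have hsplit : ∑ t ∈ MS K l D n, (1 : ℝ) / ((Nat.totient t.2.1 : ℝ) * Nat.totient t.2.2) =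
      ∑ s ∈ SS K D, ∑ c ∈ AS K l D, ∑ a ∈ AS K l D,
        (if a.Coprime c ∧ s.Coprime (a * c) ∧ s ∣ n * c + a then
          (1 : ℝ) / ((Nat.totient a : ℝ) * Nat.totient c) else 0) := by
    unfold MS
    rw [sum_filter, sum_product]
    refine sum_congr rfl fun s _ => ?_
    rw [sum_product, sum_comm]
  rw [hsplit]
  calc _ ≤ ∑ s ∈ SS K D, ∑ c ∈ AS K l D, 1 / (Nat.totient c : ℝ) * (C₀ * Real.log D / s) :=
        sum_le_sum fun s hs => sum_le_sum fun c hc => hin s hs c hc
    _ = (∑ s ∈ SS K D, (1 : ℝ) / s) * (C₀ * Real.log D *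
          ∑ c ∈ AS K l D, 1 / (Nat.totient c : ℝ)) := by
        rw [sum_mul]
        refine sum_congr rfl fun s _ => ?_
        rw [mul_sum, mul_sum]
        refine sum_congr rfl fun c _ => ?_
        ring
    _ ≤ (3 * Real.log D) * (C₀ * Real.log D * (C₀ * Real.log D)) := by
        refine mul_le_mul hout (mul_le_mul_of_nonneg_left hmid (by positivity)) ?_ (by positivity)
        exact mul_nonneg (by positivity) (sum_nonneg fun _ _ => by positivity)
    _ = 3 * C₀ ^ 2 * Real.log D ^ 3 := by ring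

end SES
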