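import Pool.Agent.Lib.MP_393cd8_nt.MassLow
import Pool.Agent.Lib.MP_393cd8_nt.MassUp

/-!
# Module J: bounds for the conditional expectation `mu`
-/

set_option autoImplicit false

namespace SES

open Finset

private lemma mem_AS {K l D a : ℕ} : a ∈ AS K l D ↔
    (D ^ 2 < a ∧ a ≤ D ^ 3) ∧ a ≡ 1 [MOD K.factorial] ∧ ¬ l ∣ a := by
  unfold AS
  rw [mem_filter, mem_Ioc]

private lemma mem_SS {K D s : ℕ} : s ∈ SS K D ↔ (1 ≤ s ∧ s ≤ D) ∧ s ≡ 1 [MOD K.factorial] := by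
  unfold SS
  rw [mem_filter, mem_Icc]

private lemma coprime_of_modEq_one {s k : ℕ} (h : s ≡ 1 [MOD k]) : s.Coprime k := by
  have := h.gcd_eq
  rw [Nat.gcd_one_left] at this
  exact this

private lemma dvd_iff {m q s : ℕ} :
    m ∣ q * s + 1 ↔ s.Coprime m ∧ (q : ZMod m) = -(s : ZMod m)⁻¹ := by
  constructor
  · intro h
    have h1 : s.Coprime m := by
      have h2 : Nat.gcd s m ∣ 1 := by
        have h3 : Nat.gcd s m ∣ q * s + 1 := (Nat.gcd_dvd_right s m).trans h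
        have h4 : Nat.gcd s m ∣ q * s := (Nat.gcd_dvd_left s m).mul_left q
        exact (Nat.dvd_add_right h4).mp h3
      exact Nat.dvd_one.mp h2
    refine ⟨h1, ?_⟩
    have h2 : ((q * s + 1 : ℕ) : ZMod m) = 0 := (ZMod.natCast_eq_zero_iff _ _).mpr h
    push_cast at h2
    have h3 := ZMod.coe_mul_inv_eq_one s h1
    have h4 : (q : ZMod m) * (s : ZMod m) = -1 := eq_neg_of_add_eq_zero_left h2
    calc (q : ZMod m) = q * ((s : ZMod m) * (s : ZMod m)⁻¹) := by rw [h3, mul_one]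
      _ = (q * s) * (s : ZMod m)⁻¹ := by ring
      _ = -(s : ZMod m)⁻¹ := by rw [h4]; ring
  · rintro ⟨h1, h2⟩
    have h3 := ZMod.coe_mul_inv_eq_one s h1
    have h4 : ((q * s + 1 : ℕ) : ZMod m) = 0 := by
      push_cast
      rw [h2]
      calc -(s : ZMod m)⁻¹ * s + 1 = -((s : ZMod m) * (s : ZMod m)⁻¹) + 1 := by ring
        _ = 0 := by rw [h3]; ring
    exact (ZMod.natCast_eq_zero_iff _ _).mp h4

private lemma cond_iff {k K l D n q : ℕ} (hk : 0 < k) (hK : k ≤ K) {t : ℕ × ℕ × ℕ}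
    (ht : t ∈ SS K D ×ˢ (AS K l D ×ˢ AS K l D)) :
    ((t.2.1.Coprime t.2.2 ∧ k * t.2.1 * t.2.2 ∣ q * t.1 + 1) ∧ t.1 ∣ n * t.2.2 + t.2.1) ↔
      ((t.2.1.Coprime t.2.2 ∧ t.1.Coprime (t.2.1 * t.2.2) ∧ t.1 ∣ n * t.2.2 + t.2.1) ∧
        ((q : ℕ) : ZMod (k * (t.2.1 * t.2.2))) = -(t.1 : ZMod (k * (t.2.1 * t.2.2)))⁻¹) := by
  have hs : t.1 ∈ SS K D := (mem_product.mp ht).1
  have hsk : t.1.Coprime k := by
    have h1 : t.1 ≡ 1 [MOD k] := (mem_SS.mp hs).2.of_dvd (Nat.dvd_factorial hk hK)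
    exact coprime_of_modEq_one h1
  rw [mul_assoc k, dvd_iff]
  constructor
  · rintro ⟨⟨h1, h2, h3⟩, h4⟩
    exact ⟨⟨h1, Nat.Coprime.coprime_mul_left_right h2, h4⟩, h3⟩
  · rintro ⟨⟨h1, h2, h4⟩, h3⟩
    exact ⟨⟨h1, Nat.Coprime.mul_right hsk h2, h3⟩, h4⟩

/-- for `t` in `MS` the primes of the events form a residue class modulo `k * (a * c)` -/
theorem mu_eq {k K l h D n : ℕ} (hk : 0 < k) (hK : k ≤ K) : mu k K l h D n =
    ∑ t ∈ MS K l D n, rp (D ^ h) (k * (t.2.1 * t.2.2)) (-(t.1 : ZMod (k * (t.2.1 * t.2.2)))⁻¹) := by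
  classical
  have hL : mu k K l h D n = ∑ q ∈ PP h D, ∑ t ∈ SS K D ×ˢ (AS K l D ×ˢ AS K l D),
      if ((t.2.1.Coprime t.2.2 ∧ k * t.2.1 * t.2.2 ∣ q * t.1 + 1) ∧ t.1 ∣ n * t.2.2 + t.2.1)
        then (1 : ℝ) / q else 0 := by
    unfold mu
    apply sum_congr rfl
    intro q _
    rw [← sum_filter, sum_const, nsmul_eq_mul, mul_one_div]
    unfold om TT
    rw [filter_filter]
  have hR : ∑ t ∈ MS K l D n,
      rp (D ^ h) (k * (t.2.1 * t.2.2)) (-(t.1 : ZMod (k * (t.2.1 * t.2.2)))⁻¹) =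
      ∑ t ∈ SS K D ×ˢ (AS K l D ×ˢ AS K l D), ∑ q ∈ PP h D,
      if ((t.2.1.Coprime t.2.2 ∧ t.1.Coprime (t.2.1 * t.2.2) ∧ t.1 ∣ n * t.2.2 + t.2.1) ∧
        ((q : ℕ) : ZMod (k * (t.2.1 * t.2.2))) = -(t.1 : ZMod (k * (t.2.1 * t.2.2)))⁻¹)
        then (1 : ℝ) / q else 0 := by
    unfold MS
    rw [sum_filter]
    apply sum_congr rfl
    intro t _
    by_cases hc : (t.2.1.Coprime t.2.2 ∧ t.1.Coprime (t.2.1 * t.2.2) ∧ t.1 ∣ n * t.2.2 + t.2.1)
    · rw [if_pos hc]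
      unfold rp PP
      rw [← filter_filter, sum_filter]
      apply sum_congr rfl
      intro q _
      by_cases h2 : ((q : ℕ) : ZMod (k * (t.2.1 * t.2.2))) = -(t.1 : ZMod (k * (t.2.1 * t.2.2)))⁻¹
      · rw [if_pos h2, if_pos ⟨hc, h2⟩]
      · rw [if_neg h2, if_neg (fun h => h2 h.2)]
    · rw [if_neg hc]
      symm
      apply sum_eq_zero
      intro q _
      rw [if_neg (fun h => hc h.1)]
  rw [hL, hR, sum_comm]
  apply sum_congr rfl
  intro t ht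
  apply sum_congr rfl
  intro q _
  have := cond_iff (n := n) (q := q) hk hK ht
  by_cases h1 : ((t.2.1.Coprime t.2.2 ∧ k * t.2.1 * t.2.2 ∣ q * t.1 + 1) ∧ t.1 ∣ n * t.2.2 + t.2.1)
  · rw [if_pos h1, if_pos (this.mp h1)]
  · rw [if_neg h1, if_neg (fun h => h1 (this.mpr h))]

theorem mu_bounds_of (hup : RecipUpStmt) (k : ℕ) (hk : 0 < k)
    (hlow : ∀ K : ℕ, k ≤ K → RecipLowStmt k K) : MuStmt k := by
  obtain ⟨C, hC, hup⟩ := hup
  obtain ⟨δ, c, X₀, hδ, hδ1, hc, hlow⟩ := hlow (k + 24) (by omega)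
  obtain ⟨cL, D₁, hcL, hml⟩ := mass_low (k + 24) (by omega)
  obtain ⟨CU, hCU, hmu⟩ := mass_up
  have hk0 : (0 : ℝ) < k := by exact_mod_cast hk
  refine ⟨k + 24, ⌈7 / δ⌉₊ + 14, max (max D₁ X₀) (max k 2), c * cL / k, C * CU, by omega,
    by positivity, by positivity, ?_⟩
  intro D hD
  have hD1 : D₁ ≤ D := le_trans (le_trans (le_max_left _ _) (le_max_left _ _)) hD
  have hDX : X₀ ≤ D := le_trans (le_trans (le_max_right _ _) (le_max_left _ _)) hD
  have hDk : k ≤ D := le_trans (le_trans (le_max_left _ _) (le_max_right _ _)) hD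
  have hD2 : 2 ≤ D := le_trans (le_trans (le_max_right _ _) (le_max_right _ _)) hD
  set h := ⌈7 / δ⌉₊ + 14 with hh
  have hDpos : 0 < D := by omega
  have hXD : D ≤ D ^ h := Nat.le_self_pow (by omega) D
  obtain ⟨l, hl, hlK, hlow⟩ := hlow (D ^ h) (le_trans hDX hXD)
  have hhδ : (7 : ℝ) ≤ h * δ := by
    have h1 : 7 / δ ≤ (⌈7 / δ⌉₊ : ℝ) := Nat.le_ceil _
    have h2 : (7 / δ) * δ = 7 := by field_simp
    have h3 : (h : ℝ) = (⌈7 / δ⌉₊ : ℝ) + 14 := by rw [hh]; push_cast; ring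
    rw [h3]
    nlinarith
  have hpow : ((D ^ 7 : ℕ) : ℝ) ≤ ((D ^ h : ℕ) : ℝ) ^ δ := by
    have hD1' : (1 : ℝ) ≤ D := by exact_mod_cast hDpos
    push_cast
    rw [← Real.rpow_natCast (D : ℝ) h, ← Real.rpow_mul (by positivity), ← Real.rpow_natCast (D : ℝ) 7]
    apply Real.rpow_le_rpow_of_exponent_le hD1'
    exact_mod_cast hhδ
  refine ⟨l, fun n => ?_⟩
  have hmem : ∀ t ∈ MS (k + 24) l D n, t.1 ∈ SS (k + 24) D ∧ t.2.1 ∈ AS (k + 24) l D ∧
      t.2.2 ∈ AS (k + 24) l D ∧ t.2.1.Coprime t.2.2 ∧ t.1.Coprime (t.2.1 * t.2.2) := by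
    intro t ht
    unfold MS at ht
    rw [mem_filter, mem_product, mem_product] at ht
    exact ⟨ht.1.1, ht.1.2.1, ht.1.2.2, ht.2.1, ht.2.2.1⟩
  have hfacts : ∀ t ∈ MS (k + 24) l D n, 0 < t.2.1 * t.2.2 ∧
      (t.2.1 * t.2.2).Coprime (k + 24).factorial ∧ ¬ l ∣ t.2.1 * t.2.2 ∧
      k * (t.2.1 * t.2.2) ≤ D ^ 7 ∧ 0 < t.2.1 ∧ 0 < t.2.2 ∧
      IsUnit (-(t.1 : ZMod (k * (t.2.1 * t.2.2)))⁻¹) := by
    intro t ht
    obtain ⟨hs, ha, hc, _, hsc⟩ := hmem t ht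
    rw [mem_AS] at ha hc
    rw [mem_SS] at hs
    have ha0 : 0 < t.2.1 := by omega
    have hc0 : 0 < t.2.2 := by omega
    refine ⟨Nat.mul_pos ha0 hc0, ?_, ?_, ?_, ha0, hc0, ?_⟩
    · exact Nat.Coprime.mul_left (coprime_of_modEq_one ha.2.1) (coprime_of_modEq_one hc.2.1)
    · intro h1
      rcases hl.dvd_mul.mp h1 with h2 | h2
      · exact ha.2.2 h2
      · exact hc.2.2 h2
    · calc k * (t.2.1 * t.2.2) ≤ D * (D ^ 3 * D ^ 3) :=
          Nat.mul_le_mul hDk (Nat.mul_le_mul ha.1.2 hc.1.2)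
        _ = D ^ 7 := by ring
    · have hsk : t.1.Coprime k := by
        have h1 : t.1 ≡ 1 [MOD k] := hs.2.of_dvd (Nat.dvd_factorial hk (by omega))
        exact coprime_of_modEq_one h1
      have h1 := ZMod.coe_mul_inv_eq_one t.1 (Nat.Coprime.mul_right hsk hsc)
      apply IsUnit.neg
      exact IsUnit.of_mul_eq_one (t.1 : ZMod (k * (t.2.1 * t.2.2))) ((mul_comm _ _).trans h1)
  rw [mu_eq hk (by omega : k ≤ k + 24)]
  constructor
  · intro hsp
    have h1 := hml D l n hD1 hl hlK hsp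
    calc c * cL / k * Real.log D ^ 3 = c / k * (cL * Real.log D ^ 3) := by ring
      _ ≤ c / k * ∑ t ∈ MS (k + 24) l D n, (1 : ℝ) / ((t.2.1 : ℝ) * t.2.2) :=
          mul_le_mul_of_nonneg_left h1 (by positivity)
      _ = ∑ t ∈ MS (k + 24) l D n, c / k * ((1 : ℝ) / ((t.2.1 : ℝ) * t.2.2)) := by rw [mul_sum]
      _ ≤ _ := by
        apply sum_le_sum
        intro t ht
        obtain ⟨h2, h3, h4, h5, ha0, hc0, h6⟩ := hfacts t ht
        have h7 : ((k * (t.2.1 * t.2.2) : ℕ) : ℝ) ≤ ((D ^ h : ℕ) : ℝ) ^ δ :=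
          le_trans (by exact_mod_cast h5) hpow
        have h8 := hlow (t.2.1 * t.2.2) h2 h3 h4 h7 _ h6
        refine le_trans ?_ h8
        have ha0' : (0 : ℝ) < t.2.1 := by exact_mod_cast ha0
        have hc0' : (0 : ℝ) < t.2.2 := by exact_mod_cast hc0
        have h9 : (0 : ℝ) < Nat.totient (k * (t.2.1 * t.2.2)) := by
          exact_mod_cast Nat.totient_pos.mpr (Nat.mul_pos hk h2)
        have h10 : (Nat.totient (k * (t.2.1 * t.2.2)) : ℝ) ≤ k * (t.2.1 * t.2.2) := by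
          exact_mod_cast Nat.totient_le _
        rw [show c / k * ((1 : ℝ) / ((t.2.1 : ℝ) * t.2.2)) = c / (k * (t.2.1 * t.2.2)) by
          field_simp]
        exact div_le_div_of_nonneg_left hc.le h9 h10
  · have h1 := hmu (k + 24) l D n hD2
    calc _ ≤ ∑ t ∈ MS (k + 24) l D n,
          C * ((1 : ℝ) / ((Nat.totient t.2.1 : ℝ) * Nat.totient t.2.2)) := by
          apply sum_le_sum
          intro t ht
          obtain ⟨h2, h3, h4, h5, ha0, hc0, h6⟩ := hfacts t ht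
          have h7 : (k * (t.2.1 * t.2.2)) ^ 2 ≤ D ^ h := by
            calc (k * (t.2.1 * t.2.2)) ^ 2 ≤ (D ^ 7) ^ 2 := Nat.pow_le_pow_left h5 2
              _ = D ^ 14 := by ring
              _ ≤ D ^ h := Nat.pow_le_pow_right hDpos (by omega)
          have h8 := hup (D ^ h) (k * (t.2.1 * t.2.2)) (le_trans hD2 hXD) (Nat.mul_pos hk h2) h7 _ h6
          refine le_trans h8 ?_
          rw [mul_one_div]
          have h9 : Nat.totient t.2.1 * Nat.totient t.2.2 ≤ Nat.totient (k * (t.2.1 * t.2.2)) := by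
            calc Nat.totient t.2.1 * Nat.totient t.2.2 ≤ Nat.totient (t.2.1 * t.2.2) :=
                  Nat.totient_super_multiplicative _ _
              _ = 1 * Nat.totient (t.2.1 * t.2.2) := (one_mul _).symm
              _ ≤ Nat.totient k * Nat.totient (t.2.1 * t.2.2) :=
                  Nat.mul_le_mul_right _ (Nat.totient_pos.mpr hk)
              _ ≤ _ := Nat.totient_super_multiplicative _ _
          have h10 : (0 : ℝ) < (Nat.totient t.2.1 : ℝ) * Nat.totient t.2.2 := by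
            exact_mod_cast Nat.mul_pos (Nat.totient_pos.mpr ha0) (Nat.totient_pos.mpr hc0)
          apply div_le_div_of_nonneg_left hC.le h10
          exact_mod_cast h9
      _ = C * ∑ t ∈ MS (k + 24) l D n,
          (1 : ℝ) / ((Nat.totient t.2.1 : ℝ) * Nat.totient t.2.2) := by rw [mul_sum]
      _ ≤ C * (CU * Real.log D ^ 3) := mul_le_mul_of_nonneg_left h1 hC.le
      _ = C * CU * Real.log D ^ 3 := by ring

end SES
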