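import Pool.Agent.Lib.MP_393cd8_nt.Defs
import Pool.Agent.Lib.Linnik.NEStmt

/-!
# Module C: moduli `k * t` away from one large prime are not exceptional
-/

set_option autoImplicit false

namespace SES

open Finset

theorem neOff_of (h3 : Lnk.NEofNonExc) (h4 : Lnk.ExcUnique)
    (h5 : ∀ k : ℕ, 0 < k → ∃ y₁ : ℝ, ∀ y : ℝ, y₁ ≤ y →
      ∀ χ : DirichletCharacter ℂ k, ¬ Lnk.Exc (1 / 2) y χ)
    (k K : ℕ) (hk : 0 < k) (hK : k ≤ K) : NEOffStmt k K := by
  obtain ⟨ε₀, hε0, hε1, hu⟩ := h4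
  obtain ⟨C, hC, hne⟩ := h3 ε₀ hε0
  obtain ⟨y₁, hy₁⟩ := h5 k hk
  refine ⟨C, max 2 (max y₁ k), hC, le_max_left _ _, fun Q hQ => ?_⟩
  have hQ2 : 2 ≤ Q := (le_max_left _ _).trans hQ
  have hQ1 : y₁ ≤ Q := (le_max_left _ _).trans ((le_max_right _ _).trans hQ)
  have hQk : (k : ℝ) ≤ Q := (le_max_right _ _).trans ((le_max_right _ _).trans hQ)
  have hQ8 : Q ≤ Q ^ 8 := by
    calc Q = Q ^ 1 := (pow_one Q).symm
      _ ≤ Q ^ 8 := pow_le_pow_right₀ (by linarith) (by norm_num)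
  by_cases hA : ∀ t : ℕ, 0 < t → t.Coprime K.factorial → 8 * ((k * t : ℕ) : ℝ) ^ 2 ≤ Q →
      ∀ χ : DirichletCharacter ℂ (k * t), ¬ Lnk.Exc ε₀ (Q ^ 8) χ
  · obtain ⟨l, hl, hlp⟩ := Nat.exists_infinite_primes (K + 1)
    exact ⟨l, hlp, hl, fun t ht htK _ htQ =>
      hne Q hQ2 (k * t) (Nat.mul_pos hk ht) (hA t ht htK htQ)⟩
  · push Not at hA
    obtain ⟨t₁, ht₁, htK₁, htQ₁, χ₁, hχ₁⟩ := hA
    have hm₁ : 0 < k * t₁ := Nat.mul_pos hk ht₁
    have hne₁ : NeZero (k * t₁) := ⟨hm₁.ne'⟩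
    have hmy₁ : ((k * t₁ : ℕ) : ℝ) ≤ Q ^ 8 := by
      have h6 : (1 : ℝ) ≤ ((k * t₁ : ℕ) : ℝ) := by exact_mod_cast hm₁
      nlinarith
    by_cases hB : ∃ l : ℕ, l.Prime ∧ K < l ∧ l ∣ χ₁.conductor
    · obtain ⟨l, hlp, hKl, hlc⟩ := hB
      refine ⟨l, hlp, hKl, fun t ht htK hlt htQ => ?_⟩
      have hm : 0 < k * t := Nat.mul_pos hk ht
      refine hne Q hQ2 (k * t) hm fun χ hχ => ?_
      have hN : 0 < (k * t) * (k * t₁) := Nat.mul_pos hm hm₁
      have hneN : NeZero ((k * t) * (k * t₁)) := ⟨hN.ne'⟩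
      have hd : k * t ∣ (k * t) * (k * t₁) := Nat.dvd_mul_right _ _
      have hd₁ : k * t₁ ∣ (k * t) * (k * t₁) := Nat.dvd_mul_left _ _
      have hNQ : 8 * (((k * t) * (k * t₁) : ℕ) : ℝ) ≤ Q := by
        rw [Nat.cast_mul]
        nlinarith [sq_nonneg (((k * t : ℕ) : ℝ) - ((k * t₁ : ℕ) : ℝ))]
      have hNy : (((k * t) * (k * t₁) : ℕ) : ℝ) ≤ Q ^ 8 := by
        have h6 : (0 : ℝ) ≤ (((k * t) * (k * t₁) : ℕ) : ℝ) := Nat.cast_nonneg _
        linarith
      have h6 : DirichletCharacter.changeLevel hd χ = DirichletCharacter.changeLevel hd₁ χ₁ :=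
        hu Q hQ2 _ hN hNQ _ _ ((Lnk.exc_changeLevel hd hN hNy χ).2 hχ)
          ((Lnk.exc_changeLevel hd₁ hN hNy χ₁).2 hχ₁)
      have h7 : χ.conductor = χ₁.conductor := by
        rw [← DirichletCharacter.conductor_changeLevel χ hd, h6,
          DirichletCharacter.conductor_changeLevel χ₁ hd₁]
      have h8 : l ∣ k * t := by
        refine hlc.trans ?_
        rw [← h7]
        exact DirichletCharacter.conductor_dvd_level χ
      rcases (Nat.Prime.dvd_mul hlp).1 h8 with h9 | h9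
      · have := Nat.le_of_dvd hk h9
        omega
      · exact hlt h9
    · exfalso
      push Not at hB
      have hc0 : χ₁.conductor ≠ 0 := DirichletCharacter.conductor_ne_zero χ₁
      have hcop : Nat.Coprime χ₁.conductor t₁ := by
        refine Nat.coprime_of_dvd fun p hp hpc hpt => ?_
        have h6 : p ≤ K := by
          by_contra h7
          exact hB p hp (not_le.1 h7) hpc
        have h7 : p ∣ K.factorial := (Nat.Prime.dvd_factorial hp).2 h6
        have h8 : p ∣ Nat.gcd t₁ K.factorial := Nat.dvd_gcd hpt h7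
        rw [htK₁] at h8
        exact hp.one_lt.ne' (Nat.dvd_one.1 h8)
      have hck : χ₁.conductor ∣ k :=
        hcop.dvd_of_dvd_mul_right (DirichletCharacter.conductor_dvd_level χ₁)
      have h9 : Lnk.Exc ε₀ (Q ^ 8) χ₁.primitiveCharacter := by
        rw [← Lnk.exc_changeLevel (DirichletCharacter.conductor_dvd_level χ₁) hm₁ hmy₁,
          DirichletCharacter.changeLevel_primitiveCharacter]
        exact hχ₁
      have h10 : Lnk.Exc ε₀ (Q ^ 8)
          (DirichletCharacter.changeLevel hck χ₁.primitiveCharacter) :=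
        (Lnk.exc_changeLevel hck hk (hQk.trans hQ8) _).2 h9
      exact hy₁ (Q ^ 8) (hQ1.trans hQ8) _ (Lnk.exc_mono hε1 h10)

end SES
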