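import Pool.Agent.Lib.MP_393cd8_nt.RecipPc

/-!
# Module D2: lower bound for the sum of the reciprocals of the primes in a progression
-/

set_option autoImplicit false

namespace SES

open Finset

theorem recip_low_of (hL : Lnk.LinnikStmt) (hBT : Lnk.BTq) (k K : ℕ) (hk : 0 < k)
    (hNE : NEOffStmt k K) : RecipLowStmt k K := by
  obtain ⟨C, Q₀, hC, hQ₀, hNE⟩ := hNE
  obtain ⟨δ, c, x₀, hδ0, hδ1, hc, hx₀, hL⟩ := hL C hC
  obtain ⟨CB, hCB, hBT⟩ := hBT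
  obtain ⟨c', X₁, hc', hR⟩ := recip_of_pc c CB hc hCB
  have hev : ∀ᶠ X : ℕ in Filter.atTop, (X₁ ≤ X ∧ 2 ≤ X) ∧ x₀ ≤ (X : ℝ) ∧ Q₀ ≤ (X : ℝ) ^ δ ∧
      8 ≤ (X : ℝ) ^ (δ / 2) := by
    refine ((Filter.eventually_ge_atTop X₁).and (Filter.eventually_ge_atTop 2)).and
      ((tendsto_natCast_atTop_atTop.eventually_ge_atTop x₀).and ?_)
    exact (((tendsto_rpow_atTop hδ0).comp tendsto_natCast_atTop_atTop).eventually_ge_atTop Q₀).and
      (((tendsto_rpow_atTop (by positivity : 0 < δ / 2)).comp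
        tendsto_natCast_atTop_atTop).eventually_ge_atTop 8)
  obtain ⟨X₀, hX₀⟩ := Filter.eventually_atTop.1 hev
  refine ⟨δ / 4, c', X₀, by positivity, by linarith, hc', ?_⟩
  intro X hX
  obtain ⟨⟨hX1, hX2⟩, hXx, hXQ, hX8⟩ := hX₀ X hX
  have hXr2 : (2 : ℝ) ≤ X := by exact_mod_cast hX2
  have hXr0 : (0 : ℝ) < X := by linarith
  have hXr1 : (1 : ℝ) ≤ X := by linarith
  obtain ⟨l, hl, hKl, hl2⟩ := hNE ((X : ℝ) ^ δ) hXQ
  refine ⟨l, hl, hKl, ?_⟩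
  intro t ht htK hlt hkt b hb
  have hm0 : 0 < k * t := Nat.mul_pos hk ht
  have hsq : ((k * t : ℕ) : ℝ) ^ 2 ≤ (X : ℝ) ^ (δ / 2) := by
    calc ((k * t : ℕ) : ℝ) ^ 2 ≤ ((X : ℝ) ^ (δ / 4)) ^ 2 :=
          pow_le_pow_left₀ (Nat.cast_nonneg _) hkt 2
      _ = (X : ℝ) ^ (δ / 2) := by
        rw [← Real.rpow_natCast ((X : ℝ) ^ (δ / 4)) 2, ← Real.rpow_mul hXr0.le]
        congr 1
        push_cast
        ring
  have hsqQ : ((k * t : ℕ) : ℝ) ^ 2 ≤ (X : ℝ) ^ δ :=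
    hsq.trans (Real.rpow_le_rpow_of_exponent_le hXr1 (by linarith))
  have hsqX : ((k * t : ℕ) : ℝ) ^ 2 ≤ (X : ℝ) := by
    refine hsq.trans ?_
    calc (X : ℝ) ^ (δ / 2) ≤ (X : ℝ) ^ (1 : ℝ) :=
          Real.rpow_le_rpow_of_exponent_le hXr1 (by linarith)
      _ = X := Real.rpow_one _
  have h8 : 8 * ((k * t : ℕ) : ℝ) ^ 2 ≤ (X : ℝ) ^ δ := by
    calc 8 * ((k * t : ℕ) : ℝ) ^ 2 ≤ (X : ℝ) ^ (δ / 2) * (X : ℝ) ^ (δ / 2) :=
          mul_le_mul hX8 hsq (by positivity) (by positivity)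
      _ = (X : ℝ) ^ δ := by rw [← Real.rpow_add hXr0]; congr 1; ring
  have hne := hl2 t ht htK hlt h8
  refine hR X (k * t) b hX1 hm0 ?_ ?_
  · intro x' hx' hx'2
    have hx'0 : 0 < x' := by linarith
    refine hL x' (hXx.trans hx') ((X : ℝ) ^ δ) ?_ ?_ (k * t) hm0 hsqQ hne b hb
    · calc x' ^ (δ / 2) ≤ ((X : ℝ) ^ 2) ^ (δ / 2) :=
            Real.rpow_le_rpow hx'0.le hx'2 (by positivity)
        _ = (X : ℝ) ^ δ := by
          rw [← Real.rpow_natCast (X : ℝ) 2, ← Real.rpow_mul hXr0.le]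
          congr 1
          push_cast
          ring
    · exact Real.rpow_le_rpow hXr0.le hx' hδ0.le
  · have h1 := hBT (k * t) b 0 X hm0 hb le_rfl hXr2 hsqX
    have h2 : Lnk.pc (k * t) b X =
        ((Finset.Ioc ⌊(0 : ℝ)⌋₊ ⌊(0 : ℝ) + X⌋₊).filter
          (fun p : ℕ => p.Prime ∧ ((p : ℕ) : ZMod (k * t)) = b)).card := by
      unfold Lnk.pc
      rw [Nat.floor_zero, zero_add]
      rfl
    rw [h2]
    exact h1

end SES
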