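import Pool.Agent.Lib.MP_393cd8_nt.Defs

/-!
# Module E: upper bound for the sum of the reciprocals of the primes in a progression
-/

set_option autoImplicit false

namespace SES

open Finset

open Classical in
/-- the terms of `rp` -/
private noncomputable def gE (m : ℕ) (b : ZMod m) (q : ℕ) : ℝ :=
  if q.Prime ∧ ((q : ℕ) : ZMod m) = b then (1 : ℝ) / q else 0

private theorem rp_eq (X m : ℕ) (b : ZMod m) : rp X m b = ∑ q ∈ Ioc X (X ^ 2), gE m b q := by
  classical
  unfold rp gE
  rw [Finset.sum_filter]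

private theorem gE_nonneg (m : ℕ) (b : ZMod m) (q : ℕ) : 0 ≤ gE m b q := by
  unfold gE
  split_ifs
  · positivity
  · exact le_refl _

/-- one dyadic block -/
private theorem block_le {C : ℝ} (hC : 0 < C)
    (hBT : ∀ (q : ℕ) (a : ZMod q) (u v : ℝ), 0 < q → IsUnit a → 0 ≤ u →
      2 ≤ v → (q : ℝ) ^ 2 ≤ v →
        (((Finset.Ioc ⌊u⌋₊ ⌊u + v⌋₊).filter
          (fun p : ℕ => p.Prime ∧ ((p : ℕ) : ZMod q) = a)).card : ℝ) ≤
          C * v / (Nat.totient q * Real.log v))
    {X m : ℕ} (hX : 2 ≤ X) (hm : 0 < m) (hmX : m ^ 2 ≤ X) {b : ZMod m} (hb : IsUnit b)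
    {Y : ℕ} (hY : X ≤ Y) :
    ∑ q ∈ Ioc Y (2 * Y), gE m b q ≤ C / (Nat.totient m * Real.log X) := by
  classical
  have hX' : (2 : ℝ) ≤ X := by exact_mod_cast hX
  have hY' : (X : ℝ) ≤ Y := by exact_mod_cast hY
  have hY0 : (0 : ℝ) < Y := by linarith
  have hlX : 0 < Real.log X := Real.log_pos (by linarith)
  have hlY : Real.log X ≤ Real.log Y := Real.log_le_log (by linarith) hY'
  have hφ : (0 : ℝ) < Nat.totient m := by exact_mod_cast Nat.totient_pos.2 hm
  have h1 := hBT m b Y Y hm hb hY0.le (by linarith) (by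
    have : ((m ^ 2 : ℕ) : ℝ) ≤ X := by exact_mod_cast hmX
    push_cast at this
    linarith)
  have h2 : (Y : ℝ) + Y = ((2 * Y : ℕ) : ℝ) := by push_cast; ring
  rw [h2, Nat.floor_natCast, Nat.floor_natCast] at h1
  have h3 : ∑ q ∈ Ioc Y (2 * Y), gE m b q ≤
      ((Finset.Ioc Y (2 * Y)).filter
        (fun p : ℕ => p.Prime ∧ ((p : ℕ) : ZMod m) = b)).card * (1 / (Y : ℝ)) := by
    unfold gE
    rw [← Finset.sum_filter, ← nsmul_eq_mul]
    apply Finset.sum_le_card_nsmul
    intro q hq
    rw [Finset.mem_filter, Finset.mem_Ioc] at hq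
    apply one_div_le_one_div_of_le hY0
    exact_mod_cast hq.1.1.le
  refine h3.trans ?_
  have h4 := mul_le_mul_of_nonneg_right h1 (by positivity : (0 : ℝ) ≤ 1 / Y)
  refine h4.trans ?_
  have h5 : C * Y / (Nat.totient m * Real.log Y) * (1 / (Y : ℝ)) =
      C / (Nat.totient m * Real.log Y) := by
    field_simp
  rw [h5]
  apply div_le_div_of_nonneg_left hC.le (by positivity)
  exact mul_le_mul_of_nonneg_left hlY hφ.le

theorem recip_up_of (hBT : Lnk.BTq) : RecipUpStmt := by
  obtain ⟨C, hC, hBT⟩ := hBT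
  refine ⟨3 * C, by positivity, ?_⟩
  intro X m hX hm hmX b hb
  have hX' : (2 : ℝ) ≤ X := by exact_mod_cast hX
  have hlX : 0 < Real.log X := Real.log_pos (by linarith)
  have hφ : (0 : ℝ) < Nat.totient m := by exact_mod_cast Nat.totient_pos.2 hm
  have h1 : ∀ T : ℕ, ∑ q ∈ Ioc X (2 ^ T * X), gE m b q ≤
      T * (C / (Nat.totient m * Real.log X)) := by
    intro T
    induction T with
    | zero => simp
    | succ T ih =>
      have h2 : X ≤ 2 ^ T * X := Nat.le_mul_of_pos_left X (by positivity)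
      have h3 : 2 ^ (T + 1) * X = 2 * (2 ^ T * X) := by ring
      have h4 : 2 ^ T * X ≤ 2 * (2 ^ T * X) := by omega
      rw [h3, ← Finset.sum_Ioc_consecutive _ h2 h4]
      have h5 := block_le hC hBT hX hm hmX hb h2
      push_cast
      linarith
  set T := Nat.log 2 X + 1 with hT
  have h2 : X < 2 ^ T := Nat.lt_pow_succ_log_self (by norm_num) X
  have h3 : X ^ 2 ≤ 2 ^ T * X := by
    rw [pow_two]
    exact Nat.mul_le_mul_right X h2.le
  have h4 : rp X m b ≤ ∑ q ∈ Ioc X (2 ^ T * X), gE m b q := by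
    rw [rp_eq]
    apply Finset.sum_le_sum_of_subset_of_nonneg
    · exact Finset.Ioc_subset_Ioc_right h3
    · intro q _ _
      exact gE_nonneg m b q
  refine h4.trans ((h1 T).trans ?_)
  have h5 : (T : ℝ) * Real.log 2 ≤ 2 * Real.log X := by
    have h6 : 2 ^ (Nat.log 2 X) ≤ X := Nat.pow_log_le_self 2 (by omega)
    have h7 : (Nat.log 2 X : ℝ) * Real.log 2 ≤ Real.log X := by
      rw [← Real.log_pow]
      apply Real.log_le_log (by positivity)
      exact_mod_cast h6
    have h8 : Real.log 2 ≤ Real.log X := Real.log_le_log (by norm_num) hX'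
    rw [hT]
    push_cast
    linarith
  have h6 : (0.6931471803 : ℝ) < Real.log 2 := Real.log_two_gt_d9
  have h7 : (T : ℝ) ≤ 3 * Real.log X := by
    by_contra hcon
    rw [not_le] at hcon
    have : 3 * Real.log X * Real.log 2 < T * Real.log 2 :=
      mul_lt_mul_of_pos_right hcon (by linarith)
    nlinarith
  have h8 : (T : ℝ) * (C / (Nat.totient m * Real.log X)) =
      (T / Real.log X) * (C / Nat.totient m) := by
    field_simp
  rw [h8, mul_div_assoc]
  apply mul_le_mul_of_nonneg_right _ (by positivity)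
  rw [div_le_iff₀ hlX]
  exact h7

end SES
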