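import Pool.Agent.Lib.MP_393cd8_nt.Excl
import Pool.Agent.Lib.MP_393cd8_nt.CrtProd
import Pool.Agent.Lib.MP_393cd8_nt.IntervalDisc
import Pool.Agent.Lib.MP_393cd8_nt.Bonf

/-!
# Module P: the sieve bound
-/

set_option autoImplicit false

namespace SES

open Finset

private lemma sv_mem_PP {h D q : ℕ} (hD : 2 ≤ D) (hh : 7 ≤ h) (hq : q ∈ PP h D) :
    q.Prime ∧ D < q := by
  unfold PP at hq
  rw [Finset.mem_filter, Finset.mem_Ioc] at hq
  refine ⟨hq.2, lt_of_le_of_lt ?_ hq.1.1⟩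
  calc D = D ^ 1 := (pow_one D).symm
    _ ≤ D ^ h := Nat.pow_le_pow_right (by omega) (by omega)

private lemma sv_EV {k K l h D : ℕ} {e : ℕ × ℕ × ℕ × ℕ} (he : e ∈ EV k K l h D) :
    e.1 ∈ PP h D ∧ 1 ≤ e.2.1 ∧ e.2.1 ≤ D ∧ k * e.2.2.1 * e.2.2.2 ∣ e.1 * e.2.1 + 1 := by
  unfold EV at he
  rw [Finset.mem_filter, Finset.mem_product, Finset.mem_product] at he
  obtain ⟨⟨h1, h2, -⟩, h4⟩ := he
  unfold SS at h2
  rw [Finset.mem_filter, Finset.mem_Icc] at h2
  unfold TT at h4
  rw [Finset.mem_filter] at h4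
  exact ⟨h1, h2.1.1, h2.1.2, h4.2.2⟩

private lemma sv_hd_iff {k K l h D : ℕ} (hD : 2 ≤ D) (hh : 7 ≤ h) {e : ℕ × ℕ × ℕ × ℕ}
    (he : e ∈ EV k K l h D) :
    ∃ r : ℕ, ∀ n : ℕ, Hd n e ↔ n ≡ r [MOD e.1 * e.2.1] := by
  obtain ⟨h1, h2, h3, h4⟩ := sv_EV he
  obtain ⟨hq, hqD⟩ := sv_mem_PP hD hh h1
  have hm : 0 < e.1 * e.2.1 := Nat.mul_pos hq.pos h2
  have hne : NeZero (e.1 * e.2.1) := ⟨hm.ne'⟩
  have hc : Nat.Coprime e.2.2.2 (e.1 * e.2.1) := by
    have h5 : e.2.2.2 ∣ e.1 * e.2.1 + 1 := (Dvd.intro_left _ rfl).trans h4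
    have h6 : Nat.gcd e.2.2.2 (e.1 * e.2.1) ∣ 1 :=
      (Nat.dvd_add_right (Nat.gcd_dvd_right _ _)).1 ((Nat.gcd_dvd_left _ _).trans h5)
    exact Nat.dvd_one.1 h6
  have hinv := ZMod.coe_mul_inv_eq_one e.2.2.2 hc
  refine ⟨(-(e.2.2.1 : ZMod (e.1 * e.2.1)) * (e.2.2.2 : ZMod (e.1 * e.2.1))⁻¹).val, fun n => ?_⟩
  unfold Hd
  rw [← ZMod.natCast_eq_natCast_iff, ZMod.natCast_zmod_val, ← ZMod.natCast_eq_zero_iff]
  push_cast
  constructor
  · intro h5
    have h6 : (n : ZMod (e.1 * e.2.1)) =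
        (n * e.2.2.2 + e.2.2.1 : ZMod (e.1 * e.2.1)) * (e.2.2.2 : ZMod (e.1 * e.2.1))⁻¹ -
          e.2.2.1 * (e.2.2.2 : ZMod (e.1 * e.2.1))⁻¹ := by
      rw [add_mul, mul_assoc, hinv]
      ring
    rw [h5, zero_mul, zero_sub] at h6
    rw [h6]
    ring
  · intro h5
    rw [h5]
    have : -(e.2.2.1 : ZMod (e.1 * e.2.1)) * (e.2.2.2 : ZMod (e.1 * e.2.1))⁻¹ *
        (e.2.2.2 : ZMod (e.1 * e.2.1)) + (e.2.2.1 : ZMod (e.1 * e.2.1)) =
        -(e.2.2.1 : ZMod (e.1 * e.2.1)) * ((e.2.2.2 : ZMod (e.1 * e.2.1)) *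
          (e.2.2.2 : ZMod (e.1 * e.2.1))⁻¹) + (e.2.2.1 : ZMod (e.1 * e.2.1)) := by ring
    rw [this, hinv]
    ring

private lemma sv_primorial_dvd {w D : ℕ} (hw : w ≤ D) : primorial w ∣ D.factorial := by
  unfold primorial
  refine Finset.prod_primes_dvd _ (fun p hp => ?_) (fun p hp => ?_)
  · exact (Finset.mem_filter.1 hp).2.prime
  · rw [Finset.mem_filter, Finset.mem_range] at hp
    exact Nat.dvd_factorial hp.2.pos (by omega)

private lemma sv_coprime_congr {n g W : ℕ} (h : n ≡ g [MOD W]) : n.Coprime W ↔ g.Coprime W := by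
  unfold Nat.Coprime
  rw [h.gcd_eq]

/-- discrepancy of the conditions for `J` -/
private lemma sv_disc {k K l h D : ℕ} (hD : 2 ≤ D) (hh : 7 ≤ h) (w N : ℕ)
    (hw : w ≤ D) (J : Finset (ℕ × ℕ × ℕ × ℕ)) (hJ : J ⊆ EV k K l h D) :
    |(((range N).filter (fun n => n.Coprime (primorial w) ∧ ∀ e ∈ J, Hd n e)).card : ℝ) -
      (N : ℝ) / ((D.factorial * ∏ q ∈ PP h D, q : ℕ) : ℝ) *
        ((range (D.factorial * ∏ q ∈ PP h D, q)).filter
          (fun n => n.Coprime (primorial w) ∧ ∀ e ∈ J, Hd n e)).card| ≤ primorial w := by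
  set M := D.factorial * ∏ q ∈ PP h D, q with hM
  have hM0 : 0 < M := Nat.mul_pos (Nat.factorial_pos D)
    (Finset.prod_pos fun q hq => (sv_mem_PP hD hh hq).1.pos)
  have hW0 : 0 < primorial w := primorial_pos w
  -- residues
  have hr : ∃ ρ : ℕ × ℕ × ℕ × ℕ → ℕ, ∀ e ∈ J, ∀ n : ℕ, Hd n e ↔ n ≡ ρ e [MOD e.1 * e.2.1] := by
    classical
    refine ⟨fun e => if he : e ∈ EV k K l h D then (sv_hd_iff hD hh he).choose else 0,
      fun e he n => ?_⟩
    have he' := hJ he
    simp only [he', dite_true]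
    exact (sv_hd_iff hD hh he').choose_spec n
  obtain ⟨ρ, hρ⟩ := hr
  set m : Option (ℕ × ℕ × ℕ × ℕ) → ℕ := fun o => o.elim (primorial w) (fun e => e.1 * e.2.1)
    with hm
  set rr : ℕ → Option (ℕ × ℕ × ℕ × ℕ) → ℕ := fun g o => o.elim g ρ with hrr
  have hmM : ∀ i ∈ insertNone J, m i ∣ M := by
    rw [Finset.forall_mem_insertNone]
    refine ⟨(sv_primorial_dvd hw).trans (Dvd.intro _ rfl), fun e he => ?_⟩
    obtain ⟨h1, h2, h3, -⟩ := sv_EV (hJ he)
    change e.1 * e.2.1 ∣ M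
    rw [hM, mul_comm]
    exact Nat.mul_dvd_mul (Nat.dvd_factorial h2 h3) (Finset.dvd_prod_of_mem _ h1)
  have hfib : ∀ X : ℕ, ((range X).filter
      (fun n => n.Coprime (primorial w) ∧ ∀ e ∈ J, Hd n e)).card =
      ∑ g ∈ (range (primorial w)).filter (fun g => g.Coprime (primorial w)),
        ((range X).filter (fun n => ∀ i ∈ insertNone J, n ≡ rr g i [MOD m i])).card := by
    intro X
    rw [Finset.card_eq_sum_card_fiberwise (f := fun n => n % primorial w)
      (t := (range (primorial w)).filter (fun g => g.Coprime (primorial w)))]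
    · refine Finset.sum_congr rfl fun g hg => ?_
      rw [Finset.mem_filter, Finset.mem_range] at hg
      congr 1
      ext n
      rw [Finset.mem_filter, Finset.mem_filter, Finset.mem_filter, Finset.forall_mem_insertNone]
      have hmod : n % primorial w = g ↔ n ≡ g [MOD primorial w] := by
        unfold Nat.ModEq
        rw [Nat.mod_eq_of_lt hg.1]
      constructor
      · rintro ⟨⟨h1, h2, h3⟩, h4⟩
        exact ⟨h1, hmod.1 h4, fun e he => (hρ e he n).1 (h3 e he)⟩
      · rintro ⟨h1, h2, h3⟩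
        have h2' := hmod.2 h2
        refine ⟨⟨h1, ?_, fun e he => (hρ e he n).2 (h3 e he)⟩, h2'⟩
        exact (sv_coprime_congr h2).2 hg.2
    · intro n hn
      have hn' := (Finset.mem_filter.1 (Finset.mem_coe.1 hn)).2
      refine Finset.mem_coe.2 (Finset.mem_filter.2 ⟨Finset.mem_range.2 (Nat.mod_lt _ hW0), ?_⟩)
      exact (sv_coprime_congr (Nat.mod_modEq n (primorial w))).2 hn'.1
  rw [hfib N, hfib M]
  push_cast
  rw [Finset.mul_sum, ← Finset.sum_sub_distrib]
  refine (Finset.abs_sum_le_sum_abs _ _).trans ?_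
  calc ∑ g ∈ (range (primorial w)).filter (fun g => g.Coprime (primorial w)),
        |(((range N).filter (fun n => ∀ i ∈ insertNone J, n ≡ rr g i [MOD m i])).card : ℝ) -
          (N : ℝ) / (M : ℝ) *
            ((range M).filter (fun n => ∀ i ∈ insertNone J, n ≡ rr g i [MOD m i])).card|
      ≤ ∑ g ∈ (range (primorial w)).filter (fun g => g.Coprime (primorial w)), (1 : ℝ) := by
        refine Finset.sum_le_sum fun g _ => ?_
        exact interval_disc (insertNone J) m (rr g) M N hM0 hmM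
    _ = (((range (primorial w)).filter (fun g => g.Coprime (primorial w))).card : ℝ) := by simp
    _ ≤ primorial w := by
        have := Finset.card_filter_le (range (primorial w)) (fun g => g.Coprime (primorial w))
        rw [Finset.card_range] at this
        exact_mod_cast this

private lemma sv_choose (Z r : ℕ) : ((Z.choose (2 * r) : ℕ) : ℝ) ≤ 9 ^ Z / 64 ^ r := by
  rw [le_div_iff₀ (by positivity)]
  have h1 : Z.choose (2 * r) * 8 ^ (2 * r) ≤ 9 ^ Z := by
    rcases le_or_gt (2 * r) Z with h | h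
    · have h2 : (9 : ℕ) ^ Z = (8 + 1) ^ Z := by norm_num
      rw [h2, add_pow]
      have h3 := Finset.single_le_sum (f := fun m => (8 : ℕ) ^ m * 1 ^ (Z - m) * Z.choose m)
        (s := range (Z + 1)) (fun _ _ => Nat.zero_le _)
        (Finset.mem_range.2 (show 2 * r < Z + 1 by omega))
      simp only [one_pow, mul_one] at h3 ⊢
      rw [mul_comm]
      exact h3
    · rw [Nat.choose_eq_zero_of_lt h]
      simp
  have h4 : (8 : ℕ) ^ (2 * r) = 64 ^ r := by
    rw [pow_mul]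
    norm_num
  rw [h4] at h1
  exact_mod_cast h1

/-- the terms of one residue class modulo `D !` -/
private lemma sv_class {k K l h D : ℕ} (hk : 0 < k) (hD : 2 ≤ D) (hh : 7 ≤ h) (r n₀ : ℕ) :
    ∑ n ∈ (range (D.factorial * ∏ q ∈ PP h D, q)).filter (fun n => n ≡ n₀ [MOD D.factorial]),
        ((if ∀ e ∈ EV k K l h D, ¬ Hd n e then (1 : ℝ) else 0) +
          ((((EV k K l h D).filter (Hd n)).card.choose (2 * r) : ℕ) : ℝ)) ≤
      ((∏ q ∈ PP h D, q : ℕ) : ℝ) *
        (Real.exp (-(mu k K l h D n₀)) + Real.exp (8 * mu k K l h D n₀) / 64 ^ r) := by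
  have hP : ∀ q ∈ PP h D, q.Prime ∧ q.Coprime D.factorial := by
    intro q hq
    obtain ⟨h1, h2⟩ := sv_mem_PP hD hh hq
    refine ⟨h1, (Nat.Prime.coprime_iff_not_dvd h1).2 fun h3 => ?_⟩
    have := (Nat.Prime.dvd_factorial h1).1 h3
    omega
  have h0 := crt_prod (PP h D) D.factorial (Nat.factorial_pos D) hP (RS k K l D n₀) 0 n₀
  have h9 := crt_prod (PP h D) D.factorial (Nat.factorial_pos D) hP (RS k K l D n₀) 9 n₀
  have hterm : ∀ n ∈ (range (D.factorial * ∏ q ∈ PP h D, q)).filter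
      (fun n => n ≡ n₀ [MOD D.factorial]),
      ((if ∀ e ∈ EV k K l h D, ¬ Hd n e then (1 : ℝ) else 0) +
          ((((EV k K l h D).filter (Hd n)).card.choose (2 * r) : ℕ) : ℝ)) ≤
        (0 : ℝ) ^ ((PP h D).filter (fun q => (n : ZMod q) ∈ RS k K l D n₀ q)).card +
          (9 : ℝ) ^ ((PP h D).filter (fun q => (n : ZMod q) ∈ RS k K l D n₀ q)).card / 64 ^ r := by
    intro n hn
    have hn' := (Finset.mem_filter.1 hn).2
    have hc := card_hd (K := K) (l := l) hk hD hh hn'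
    rw [← hc]
    refine add_le_add ?_ (sv_choose _ r)
    by_cases hz : ∀ e ∈ EV k K l h D, ¬ Hd n e
    · rw [if_pos hz]
      have : (EV k K l h D).filter (Hd n) = ∅ := by
        rw [Finset.filter_eq_empty_iff]
        intro e he
        exact hz e he
      rw [this]
      simp
    · rw [if_neg hz]
      positivity
  refine (Finset.sum_le_sum hterm).trans ?_
  rw [Finset.sum_add_distrib, ← Finset.sum_div, h0, h9, mul_add, ← mul_div_assoc]
  have hom : ∀ q ∈ PP h D, ((RS k K l D n₀ q).card : ℝ) = om k K l D n₀ q := fun q hq => by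
    rw [card_RS hk hD hh hq]
  have e0 : ∏ q ∈ PP h D, ((q : ℝ) + (0 - 1) * ((RS k K l D n₀ q).card : ℝ)) ≤
      ((∏ q ∈ PP h D, q : ℕ) : ℝ) * Real.exp (-(mu k K l h D n₀)) := by
    unfold mu
    rw [← Finset.sum_neg_distrib, Real.exp_sum]
    push_cast
    rw [← Finset.prod_mul_distrib]
    refine Finset.prod_le_prod (fun q hq => ?_) (fun q hq => ?_)
    · have hq1 := (hP q hq).1
      have : NeZero q := ⟨hq1.ne_zero⟩
      have h5 := Finset.card_le_univ (RS k K l D n₀ q)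
      rw [ZMod.card] at h5
      have h6 : ((RS k K l D n₀ q).card : ℝ) ≤ q := by exact_mod_cast h5
      linarith
    · rw [hom q hq]
      have hq0 : (0 : ℝ) < q := by exact_mod_cast (hP q hq).1.pos
      have h7 := Real.one_sub_le_exp_neg ((om k K l D n₀ q : ℝ) / q)
      calc (q : ℝ) + (0 - 1) * (om k K l D n₀ q : ℝ) =
            q * (1 - (om k K l D n₀ q : ℝ) / q) := by
            field_simp
            ring
        _ ≤ q * Real.exp (-((om k K l D n₀ q : ℝ) / q)) := mul_le_mul_of_nonneg_left h7 hq0.le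
  have e9 : ∏ q ∈ PP h D, ((q : ℝ) + (9 - 1) * ((RS k K l D n₀ q).card : ℝ)) ≤
      ((∏ q ∈ PP h D, q : ℕ) : ℝ) * Real.exp (8 * mu k K l h D n₀) := by
    unfold mu
    rw [Finset.mul_sum, Real.exp_sum]
    push_cast
    rw [← Finset.prod_mul_distrib]
    refine Finset.prod_le_prod (fun q hq => by positivity) (fun q hq => ?_)
    rw [hom q hq]
    have hq0 : (0 : ℝ) < q := by exact_mod_cast (hP q hq).1.pos
    have h7 := Real.add_one_le_exp (8 * ((om k K l D n₀ q : ℝ) / q))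
    calc (q : ℝ) + (9 - 1) * (om k K l D n₀ q : ℝ) =
          q * (8 * ((om k K l D n₀ q : ℝ) / q) + 1) := by
          field_simp
          ring
      _ ≤ q * Real.exp (8 * ((om k K l D n₀ q : ℝ) / q)) :=
          mul_le_mul_of_nonneg_left h7 hq0.le
  exact add_le_add e0 (div_le_div_of_nonneg_right e9 (by positivity))

theorem sieve_bound {k K l h D : ℕ} (hk : 0 < k) (hD : 2 ≤ D) (hh : 7 ≤ h) (w r N : ℕ)
    (hw : w ≤ D) :
    (((range N).filter (fun n => n.Coprime (primorial w) ∧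
        ∀ e ∈ EV k K l h D, ¬ Hd n e)).card : ℝ) ≤
      (N : ℝ) / D.factorial * ∑ n ∈ (range D.factorial).filter (fun n => n.Coprime (primorial w)),
        (Real.exp (-(mu k K l h D n)) + Real.exp (8 * mu k K l h D n) / 64 ^ r) +
      (primorial w : ℝ) * (1 + ((EV k K l h D).card : ℝ)) ^ (2 * r) := by
  have hb := bonf (EV k K l h D) (fun n e => Hd n e) (fun n : ℕ => n.Coprime (primorial w))
    (D.factorial * ∏ q ∈ PP h D, q) N r (primorial w) (fun J hJ => sv_disc hD hh w N hw J hJ)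
  refine hb.trans (add_le_add ?_ le_rfl)
  have hF0 : (0 : ℝ) < D.factorial := by exact_mod_cast Nat.factorial_pos D
  have hQ0' : 0 < ∏ q ∈ PP h D, q := Finset.prod_pos fun q hq => (sv_mem_PP hD hh hq).1.pos
  have hQ0 : (0 : ℝ) < ((∏ q ∈ PP h D, q : ℕ) : ℝ) := by exact_mod_cast hQ0'
  have hsplit : ∑ n ∈ (range (D.factorial * ∏ q ∈ PP h D, q)).filter
      (fun n => n.Coprime (primorial w)),
        ((if ∀ e ∈ EV k K l h D, ¬ Hd n e then (1 : ℝ) else 0) +
          ((((EV k K l h D).filter (Hd n)).card.choose (2 * r) : ℕ) : ℝ)) =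
      ∑ n₀ ∈ (range D.factorial).filter (fun n => n.Coprime (primorial w)),
        ∑ n ∈ (range (D.factorial * ∏ q ∈ PP h D, q)).filter
          (fun n => n ≡ n₀ [MOD D.factorial]),
        ((if ∀ e ∈ EV k K l h D, ¬ Hd n e then (1 : ℝ) else 0) +
          ((((EV k K l h D).filter (Hd n)).card.choose (2 * r) : ℕ) : ℝ)) := by
    have hco : ∀ n n₀ : ℕ, n ≡ n₀ [MOD D.factorial] →
        (n.Coprime (primorial w) ↔ n₀.Coprime (primorial w)) := fun n n₀ hn =>
      sv_coprime_congr (hn.of_dvd (sv_primorial_dvd hw))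
    rw [← Finset.sum_fiberwise_of_maps_to (g := fun n => n % D.factorial)
      (t := (range D.factorial).filter (fun n => n.Coprime (primorial w)))]
    · refine Finset.sum_congr rfl fun n₀ hn₀ => ?_
      rw [Finset.mem_filter, Finset.mem_range] at hn₀
      refine Finset.sum_congr ?_ fun _ _ => rfl
      ext n
      rw [Finset.mem_filter, Finset.mem_filter, Finset.mem_filter]
      have hmod : n % D.factorial = n₀ ↔ n ≡ n₀ [MOD D.factorial] := by
        unfold Nat.ModEq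
        rw [Nat.mod_eq_of_lt hn₀.1]
      constructor
      · rintro ⟨⟨h1, h2⟩, h3⟩
        exact ⟨h1, hmod.1 h3⟩
      · rintro ⟨h1, h2⟩
        exact ⟨⟨h1, (hco n n₀ h2).2 hn₀.2⟩, hmod.2 h2⟩
    · intro n hn
      have hn' := (Finset.mem_filter.1 hn).2
      refine Finset.mem_filter.2 ⟨Finset.mem_range.2 (Nat.mod_lt _ (Nat.factorial_pos D)), ?_⟩
      exact (hco _ _ (Nat.mod_modEq n D.factorial)).2 hn'
  have hle := Finset.sum_le_sum (fun n₀ (_ : n₀ ∈ (range D.factorial).filter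
    (fun n => n.Coprime (primorial w))) => sv_class (K := K) (l := l) hk hD hh r n₀)
  rw [← Finset.mul_sum] at hle
  calc (N : ℝ) / ((D.factorial * ∏ q ∈ PP h D, q : ℕ) : ℝ) *
        ∑ n ∈ (range (D.factorial * ∏ q ∈ PP h D, q)).filter
          (fun n => n.Coprime (primorial w)),
        ((if ∀ e ∈ EV k K l h D, ¬ Hd n e then (1 : ℝ) else 0) +
          ((((EV k K l h D).filter (Hd n)).card.choose (2 * r) : ℕ) : ℝ))
      ≤ (N : ℝ) / ((D.factorial * ∏ q ∈ PP h D, q : ℕ) : ℝ) *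
          (((∏ q ∈ PP h D, q : ℕ) : ℝ) *
          ∑ n ∈ (range D.factorial).filter (fun n => n.Coprime (primorial w)),
          (Real.exp (-(mu k K l h D n)) + Real.exp (8 * mu k K l h D n) / 64 ^ r)) := by
        rw [hsplit]
        exact mul_le_mul_of_nonneg_left hle (by positivity)
    _ = (N : ℝ) / D.factorial *
          ∑ n ∈ (range D.factorial).filter (fun n => n.Coprime (primorial w)),
          (Real.exp (-(mu k K l h D n)) + Real.exp (8 * mu k K l h D n) / 64 ^ r) := by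
        rw [← mul_assoc]
        congr 1
        rw [Nat.cast_mul]
        field_simp

end SES
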