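import Pool.Agent.Lib.MP_393cd8_nt.Ident
import Pool.Agent.Lib.MP_393cd8_nt.BadDensity
import Pool.Agent.Lib.MP_393cd8_nt.Sieve

/-!
# Module Q: the theorem for numbers without small prime factors
-/

set_option autoImplicit false

namespace SES

open Finset

lemma card_EV_le (k K l h D : ℕ) : (EV k K l h D).card ≤ D ^ (2 * h + 7) := by
  unfold EV
  refine (card_filter_le _ _).trans ?_
  rw [card_product, card_product, card_product]
  have h1 : (PP h D).card ≤ (D ^ h) ^ 2 := by
    unfold PP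
    refine (card_filter_le _ _).trans ?_
    rw [Nat.card_Ioc]; omega
  have h2 : (SS K D).card ≤ D := by
    refine (card_filter_le _ _).trans ?_
    simp
  have h3 : (AS K l D).card ≤ D ^ 3 := by
    refine (card_filter_le _ _).trans ?_
    rw [Nat.card_Ioc]; omega
  calc (PP h D).card * ((SS K D).card * ((AS K l D).card * (AS K l D).card))
      ≤ (D ^ h) ^ 2 * (D * (D ^ 3 * D ^ 3)) := by gcongr
    _ = D ^ (2 * h + 7) := by ring

lemma mu_nonneg (k K l h D n : ℕ) : 0 ≤ mu k K l h D n :=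
  sum_nonneg fun _ _ => by positivity

lemma exp_le_64_pow (r : ℕ) : Real.exp (4 * r) ≤ (64 : ℝ) ^ r := by
  rw [mul_comm, Real.exp_nat_mul]
  refine pow_le_pow_left₀ (Real.exp_pos _).le ?_ r
  have h1 : Real.exp 4 = Real.exp 1 ^ 4 := by
    rw [← Real.exp_nat_mul]; norm_num
  rw [h1]
  have h2 := Real.exp_one_lt_d9
  have h3 : Real.exp 1 ≤ 2.72 := by linarith
  calc Real.exp 1 ^ 4 ≤ (2.72 : ℝ) ^ 4 := pow_le_pow_left₀ (Real.exp_pos _).le h3 4
    _ ≤ 64 := by norm_num

/-- the sieve bound after inserting bounds for `mu` -/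
lemma rough_aux {k K l h D w r N : ℕ} (hk : 0 < k) (hD : 2 ≤ D) (hh : 7 ≤ h) (hw1 : 1 ≤ w)
    (hw : w ≤ D) {A : ℝ} (hA : 0 ≤ A)
    (hgood : ∀ n, sp D n ≤ 1 / 4 →
      Real.exp (-(mu k K l h D n)) + Real.exp (8 * mu k K l h D n) / 64 ^ r ≤ A)
    (hbad : ∀ n, Real.exp (-(mu k K l h D n)) + Real.exp (8 * mu k K l h D n) / 64 ^ r ≤ 2) :
    (((range N).filter (fun n => n.Coprime (primorial w) ∧
        ∀ e ∈ EV k K l h D, ¬ Hd n e)).card : ℝ) ≤
      N * (A + 2 * Real.exp (2 - (w : ℝ) / 4)) +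
      (primorial w : ℝ) * (1 + ((EV k K l h D).card : ℝ)) ^ (2 * r) := by
  refine (sieve_bound hk hD hh w r N hw).trans ?_
  refine add_le_add ?_ le_rfl
  have hDf : (0 : ℝ) < D.factorial := by exact_mod_cast D.factorial_pos
  set f : ℕ → ℝ := fun n =>
    Real.exp (-(mu k K l h D n)) + Real.exp (8 * mu k K l h D n) / 64 ^ r with hf
  have hf0 : ∀ n, 0 ≤ f n := fun n => by positivity
  set S := (range D.factorial).filter (fun n => n.Coprime (primorial w)) with hS
  have h1 : ∑ n ∈ S, f n ≤ D.factorial * A +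
      2 * (D.factorial * Real.exp (2 - (w : ℝ) / 4)) := by
    rw [← sum_filter_add_sum_filter_not S (fun n => sp D n ≤ 1 / 4)]
    refine add_le_add ?_ ?_
    · calc ∑ n ∈ S.filter (fun n => sp D n ≤ 1 / 4), f n
          ≤ ∑ n ∈ S.filter (fun n => sp D n ≤ 1 / 4), A :=
            sum_le_sum fun n hn => hgood n (mem_filter.1 hn).2
        _ = (S.filter (fun n => sp D n ≤ 1 / 4)).card * A := by rw [sum_const, nsmul_eq_mul]
        _ ≤ D.factorial * A := by
            refine mul_le_mul_of_nonneg_right ?_ hA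
            have h2 : (S.filter (fun n => sp D n ≤ 1 / 4)).card ≤ D.factorial := by
              refine (card_filter_le _ _).trans ((card_filter_le _ _).trans ?_)
              rw [card_range]
            exact_mod_cast h2
    · calc ∑ n ∈ S.filter (fun n => ¬ sp D n ≤ 1 / 4), f n
          ≤ ∑ n ∈ S.filter (fun n => ¬ sp D n ≤ 1 / 4), (2 : ℝ) :=
            sum_le_sum fun n hn => hbad n
        _ = 2 * (S.filter (fun n => ¬ sp D n ≤ 1 / 4)).card := by
            rw [sum_const, nsmul_eq_mul, mul_comm]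
        _ ≤ 2 * (D.factorial * Real.exp (2 - (w : ℝ) / 4)) := by
            refine mul_le_mul_of_nonneg_left ?_ (by norm_num)
            refine le_trans ?_ (bad_density hw1 hw)
            rw [hS, filter_filter]
            simp only [not_le]
            exact le_of_eq rfl
  calc (N : ℝ) / D.factorial * ∑ n ∈ S, f n
      ≤ (N : ℝ) / D.factorial * (D.factorial * A +
      2 * (D.factorial * Real.exp (2 - (w : ℝ) / 4))) := by gcongr
    _ = N * (A + 2 * Real.exp (2 - (w : ℝ) / 4)) := by field_simp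

lemma coprime_primorial {n w : ℕ} (hn : ∀ p : ℕ, p.Prime → p ∣ n → w < p) :
    n.Coprime (primorial w) := by
  refine Nat.Coprime.symm (Nat.coprime_of_dvd fun p hp hpw hpn => ?_)
  have h1 := hn p hp hpn
  unfold primorial at hpw
  obtain ⟨q, hq, hpq⟩ := (Prime.dvd_finsetProd_iff hp.prime _).1 hpw
  rw [mem_filter, mem_range] at hq
  rw [(Nat.prime_dvd_prime_iff_eq hp hq.2).1 hpq] at h1
  omega

theorem rough_of (k : ℕ) (hk : 0 < k) (hmu : MuStmt k) : RoughStmt k := by
  classical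
  obtain ⟨K, h, D₁, c₁, c₂, hh, hc₁, hc₂, H⟩ := hmu
  set c : ℝ := min c₁ 1 / 2 with hc
  have hc0 : 0 < c := by positivity
  have hcc₁ : 2 * c ≤ c₁ := by rw [hc]; linarith [min_le_left c₁ 1]
  have hc1 : 2 * c ≤ 1 := by rw [hc]; linarith [min_le_right c₁ 1]
  set C : ℝ := 8 + (4 * h + 16) * (2 * c₂ + 1) with hC
  have hC0 : 0 < C := by positivity
  have hL : Filter.Tendsto (fun D : ℕ => Real.log D) Filter.atTop Filter.atTop :=
    Real.tendsto_log_atTop.comp tendsto_natCast_atTop_atTop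
  have hev : ∀ᶠ D : ℕ in Filter.atTop, 3 ≤ Real.log D ∧ 10 ≤ Real.exp (c * Real.log D ^ 3) ∧
      4 * Real.log D ^ 3 + 9 ≤ D := by
    refine (hL.eventually_ge_atTop 3).and (Filter.Eventually.and ?_ ?_)
    · have h1 : Filter.Tendsto (fun D : ℕ => Real.exp (c * Real.log D ^ 3)) Filter.atTop
          Filter.atTop :=
        Real.tendsto_exp_atTop.comp
          (((Filter.tendsto_pow_atTop (by norm_num)).comp hL).const_mul_atTop hc0)
      exact h1.eventually_ge_atTop 10
    · have h1 : (fun D : ℝ => 4 * Real.log D ^ 3) =o[Filter.atTop] (fun D : ℝ => D) := by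
        have := (isLittleO_log_rpow_atTop (r := (1 / 3 : ℝ)) (by norm_num)).pow (n := 3)
          (by norm_num)
        refine (this.const_mul_left 4).congr' (Filter.EventuallyEq.rfl) ?_
        filter_upwards [Filter.eventually_ge_atTop 0] with x hx
        rw [← Real.rpow_natCast, ← Real.rpow_mul hx]
        norm_num
      have h2 : (fun D : ℝ => 4 * Real.log D ^ 3 + 9) =o[Filter.atTop] (fun D : ℝ => D) := by
        refine h1.add ?_
        exact Asymptotics.isLittleO_const_id_atTop 9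
      have h3 := (h2.bound (by norm_num : (0 : ℝ) < 1))
      have h4 := tendsto_natCast_atTop_atTop.eventually (h3.and (Filter.eventually_ge_atTop 0))
      filter_upwards [h4] with D hD
      obtain ⟨h5, h6⟩ := hD
      rw [one_mul, Real.norm_eq_abs, Real.norm_eq_abs, abs_of_nonneg h6] at h5
      exact (le_abs_self _).trans h5
  obtain ⟨D₂, hD₂⟩ := Filter.eventually_atTop.1 hev
  refine ⟨c, C, max (max D₁ D₂) 2, hc0, hC0, fun D N hD hN => ?_⟩
  have hDD₁ : D₁ ≤ D := le_trans (le_trans (le_max_left _ _) (le_max_left _ _)) hD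
  have hDD₂ : D₂ ≤ D := le_trans (le_trans (le_max_right _ _) (le_max_left _ _)) hD
  have hD2 : 2 ≤ D := le_trans (le_max_right _ _) hD
  obtain ⟨hL3, h10, hwD⟩ := hD₂ D hDD₂
  obtain ⟨l, hl⟩ := H D hDD₁
  set L : ℝ := Real.log D with hLdef
  have hD0 : (0 : ℝ) < D := by exact_mod_cast (by omega : 0 < D)
  have hexpL : Real.exp L = D := Real.exp_log hD0
  set w : ℕ := ⌈4 * L ^ 3 + 8⌉₊ with hw
  set r : ℕ := ⌈(8 * c₂ + 1) * L ^ 3 / 4⌉₊ with hr
  have hL0 : 0 ≤ L := by linarith
  have hw1 : 4 * L ^ 3 + 8 ≤ w := Nat.le_ceil _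
  have hw2 : (w : ℝ) < 4 * L ^ 3 + 8 + 1 := Nat.ceil_lt_add_one (by positivity)
  have hr1 : (8 * c₂ + 1) * L ^ 3 / 4 ≤ r := Nat.le_ceil _
  have hr2 : (r : ℝ) < (8 * c₂ + 1) * L ^ 3 / 4 + 1 := Nat.ceil_lt_add_one (by positivity)
  have hL27 : 27 ≤ L ^ 3 := by
    calc (27 : ℝ) = 3 ^ 3 := by norm_num
      _ ≤ L ^ 3 := pow_le_pow_left₀ (by norm_num) hL3 3
  have hwleD : w ≤ D := by
    have : (w : ℝ) ≤ D := by linarith
    exact_mod_cast this
  have hw0 : 1 ≤ w := by
    have : (1 : ℝ) ≤ w := by linarith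
    exact_mod_cast this
  have h64 : Real.exp (8 * (c₂ * L ^ 3)) / 64 ^ r ≤ Real.exp (-L ^ 3) := by
    rw [div_le_iff₀ (by positivity)]
    calc Real.exp (8 * (c₂ * L ^ 3)) = Real.exp (-L ^ 3) * Real.exp ((8 * c₂ + 1) * L ^ 3) := by
          rw [← Real.exp_add]; ring_nf
      _ ≤ Real.exp (-L ^ 3) * Real.exp (4 * r) := by
          refine mul_le_mul_of_nonneg_left (Real.exp_le_exp.2 (by linarith)) (Real.exp_pos _).le
      _ ≤ Real.exp (-L ^ 3) * 64 ^ r := by
          gcongr
          exact exp_le_64_pow r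
  have hsecond : ∀ n, Real.exp (8 * mu k K l h D n) / 64 ^ r ≤ Real.exp (-L ^ 3) := fun n => by
    refine le_trans ?_ h64
    have := (hl n).2
    gcongr
  have hE1 : Real.exp (-L ^ 3) ≤ 1 := by
    rw [Real.exp_le_one_iff]
    have : 0 ≤ L ^ 3 := by positivity
    linarith
  have hE2 : Real.exp (-L ^ 3) ≤ Real.exp (-(2 * c * L ^ 3)) := by
    rw [Real.exp_le_exp]
    have : 2 * c * L ^ 3 ≤ 1 * L ^ 3 := by gcongr
    linarith
  have key := rough_aux (N := N + 1) (r := r) hk hD2 hh hw0 hwleD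
    (A := 2 * Real.exp (-(2 * c * L ^ 3))) (by positivity)
    (fun n hn => by
      have h1 : Real.exp (-(mu k K l h D n)) ≤ Real.exp (-(2 * c * L ^ 3)) := by
        rw [Real.exp_le_exp]
        have h2 := (hl n).1 hn
        have h3 : 2 * c * L ^ 3 ≤ c₁ * L ^ 3 := by gcongr
        linarith
      linarith [hsecond n])
    (fun n => by
      have h1 : Real.exp (-(mu k K l h D n)) ≤ 1 := by
        rw [Real.exp_le_one_iff]
        linarith [mu_nonneg k K l h D n]
      linarith [hsecond n])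
  -- the exceptional numbers
  have hsub : (Icc 1 N).filter (fun n => (∀ p : ℕ, p.Prime → p ∣ n → C * L ^ 3 < p) ∧
      ¬ Short k n) ⊆ Icc 1 (D ^ (2 * h + 4)) ∪
      (range (N + 1)).filter (fun n => n.Coprime (primorial w) ∧
        ∀ e ∈ EV k K l h D, ¬ Hd n e) := by
    intro n hn
    rw [mem_filter, mem_Icc] at hn
    obtain ⟨⟨hn1, hn2⟩, hn3, hn4⟩ := hn
    rw [mem_union, mem_Icc, mem_filter, mem_range]
    rcases Nat.lt_or_ge (D ^ (2 * h + 4)) n with h1 | h1
    · right
      refine ⟨by omega, coprime_primorial fun p hp hpn => ?_, fun e he he2 => hn4 ?_⟩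
      · have h2 := hn3 p hp hpn
        have h3 : (w : ℝ) ≤ C * L ^ 3 := by
          have h4 : 8 * L ^ 3 ≤ C * L ^ 3 := by
            gcongr
            rw [hC]
            have : 0 ≤ (4 * (h : ℝ) + 16) * (2 * c₂ + 1) := by positivity
            linarith
          linarith
        have h5 : (w : ℝ) < p := by linarith
        exact_mod_cast h5
      · exact short_of_hd hk hD2 (by omega) h1 he he2
    · left
      exact ⟨hn1, h1⟩
  have hcard := card_le_card hsub
  have hcard2 : (((Icc 1 N).filter (fun n => (∀ p : ℕ, p.Prime → p ∣ n → C * L ^ 3 < p) ∧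
      ¬ Short k n)).card : ℝ) ≤ (D : ℝ) ^ (2 * h + 4) +
      ((range (N + 1)).filter (fun n => n.Coprime (primorial w) ∧
        ∀ e ∈ EV k K l h D, ¬ Hd n e)).card := by
    have h1 := hcard.trans (card_union_le _ _)
    rw [Nat.card_Icc, Nat.add_sub_cancel] at h1
    exact_mod_cast h1
  -- numerical estimates
  have hL4 : L ^ 3 ≤ L ^ 4 / 3 := by
    have : L ^ 4 = L ^ 3 * L := by ring
    rw [this]
    nlinarith
  have hL4' : (81 : ℝ) ≤ L ^ 4 := by linarith
  have hLL4 : L ≤ L ^ 4 := by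
    have h1 : L ^ 4 = L * L ^ 3 := by ring
    rw [h1]
    nlinarith
  have hrL : (r : ℝ) ≤ (2 * c₂ + 1) * L ^ 3 := by nlinarith
  have hN0 : (1 : ℝ) ≤ N := le_trans (Real.one_le_exp (by positivity)) hN
  have hNE : Real.exp ((C - 1) * L ^ 4) ≤ N * Real.exp (-(2 * c * L ^ 3)) := by
    calc Real.exp ((C - 1) * L ^ 4) ≤ Real.exp (C * L ^ 4 + -(2 * c * L ^ 3)) := by
          rw [Real.exp_le_exp]
          have h1 : 2 * c * L ^ 3 ≤ 1 * L ^ 3 := by gcongr
          linarith
      _ = Real.exp (C * L ^ 4) * Real.exp (-(2 * c * L ^ 3)) := Real.exp_add _ _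
      _ ≤ N * Real.exp (-(2 * c * L ^ 3)) := by gcongr
  have hT1 : (D : ℝ) ^ (2 * h + 4) ≤ Real.exp ((C - 1) * L ^ 4) := by
    rw [← hexpL, ← Real.exp_nat_mul, Real.exp_le_exp]
    have h1 : ((2 * h + 4 : ℕ) : ℝ) ≤ C - 1 := by
      rw [hC]; push_cast
      have h2 : (4 * (h : ℝ) + 16) * 1 ≤ (4 * h + 16) * (2 * c₂ + 1) := by
        gcongr
        linarith
      have h3 : (0 : ℝ) ≤ h := by positivity
      linarith
    exact mul_le_mul h1 hLL4 hL0 (le_trans (by positivity) h1)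
  have hT2 : (primorial w : ℝ) * (1 + ((EV k K l h D).card : ℝ)) ^ (2 * r) ≤
      Real.exp ((C - 1) * L ^ 4) := by
    have h1 : (primorial w : ℝ) ≤ Real.exp (2 * w) := by
      calc (primorial w : ℝ) ≤ ((4 ^ w : ℕ) : ℝ) := by exact_mod_cast primorial_le_four_pow w
        _ = (4 : ℝ) ^ w := by push_cast; rfl
        _ ≤ Real.exp 2 ^ w := by
            refine pow_le_pow_left₀ (by norm_num) ?_ w
            have h2 : Real.exp 2 = Real.exp 1 ^ 2 := by rw [← Real.exp_nat_mul]; norm_num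
            rw [h2]
            have h3 := Real.exp_one_gt_d9
            nlinarith
        _ = Real.exp (2 * w) := by rw [← Real.exp_nat_mul]; ring_nf
    have h2 : 1 + ((EV k K l h D).card : ℝ) ≤ Real.exp ((2 * h + 8) * L) := by
      have h3 : ((EV k K l h D).card : ℝ) ≤ (D : ℝ) ^ (2 * h + 7) := by
        exact_mod_cast card_EV_le k K l h D
      have h4 : (1 : ℝ) ≤ (D : ℝ) ^ (2 * h + 7) :=
        one_le_pow₀ (by exact_mod_cast (by omega : 1 ≤ D))
      have h5 : Real.exp ((2 * h + 8) * L) = (D : ℝ) ^ (2 * h + 8) := by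
        rw [← hexpL, ← Real.exp_nat_mul]; push_cast; rfl
      rw [h5, show 2 * h + 8 = (2 * h + 7) + 1 by ring, pow_succ]
      have h6 : (2 : ℝ) ≤ D := by exact_mod_cast hD2
      nlinarith
    calc (primorial w : ℝ) * (1 + ((EV k K l h D).card : ℝ)) ^ (2 * r)
        ≤ Real.exp (2 * w) * Real.exp ((2 * h + 8) * L) ^ (2 * r) := by gcongr
      _ = Real.exp (2 * w + (2 * r) * ((2 * h + 8) * L)) := by
          rw [← Real.exp_nat_mul, ← Real.exp_add]; push_cast; rfl
      _ ≤ Real.exp ((C - 1) * L ^ 4) := by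
          rw [Real.exp_le_exp]
          have h3 : (2 * (r : ℝ)) * ((2 * h + 8) * L) ≤
              (2 * ((2 * c₂ + 1) * L ^ 3)) * ((2 * h + 8) * L) := by gcongr
          have h4 : (2 * ((2 * c₂ + 1) * L ^ 3)) * ((2 * h + 8) * L) =
              (4 * h + 16) * (2 * c₂ + 1) * L ^ 4 := by ring
          have h5 : (C - 1) * L ^ 4 = 7 * L ^ 4 + (4 * h + 16) * (2 * c₂ + 1) * L ^ 4 := by
            rw [hC]; ring
          rw [h5]
          linarith
  have hexpw : Real.exp (2 - (w : ℝ) / 4) ≤ Real.exp (-(2 * c * L ^ 3)) := by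
    refine le_trans ?_ hE2
    rw [Real.exp_le_exp]
    linarith
  have hfin : (((Icc 1 N).filter (fun n => (∀ p : ℕ, p.Prime → p ∣ n → C * L ^ 3 < p) ∧
      ¬ Short k n)).card : ℝ) ≤ 10 * (N * Real.exp (-(2 * c * L ^ 3))) := by
    have h1 : ((N + 1 : ℕ) : ℝ) * (2 * Real.exp (-(2 * c * L ^ 3)) +
        2 * Real.exp (2 - (w : ℝ) / 4)) ≤ (2 * N) * (4 * Real.exp (-(2 * c * L ^ 3))) := by
      push_cast
      gcongr
      · linarith
      · linarith
    linarith
  refine hfin.trans ?_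
  have hlast : Real.exp (c * L ^ 3) * (N * Real.exp (-(2 * c * L ^ 3))) =
      N * Real.exp (-(c * L ^ 3)) := by
    rw [mul_left_comm, ← Real.exp_add]
    ring_nf
  rw [← hlast]
  gcongr

end SES
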