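import Pool.Agent.Lib.MP_393cd8_nt.NotExcK
import Pool.Agent.Lib.MP_393cd8_nt.NEOff
import Pool.Agent.Lib.MP_393cd8_nt.RecipUp
import Pool.Agent.Lib.MP_393cd8_nt.RecipLow
import Pool.Agent.Lib.MP_393cd8_nt.MuBounds
import Pool.Agent.Lib.MP_393cd8_nt.Rough
import Pool.Agent.Lib.MP_393cd8_nt.Final
import Pool.Agent.Lib.Linnik.Main

/-!
# The exceptional set for three unit fractions
-/

set_option autoImplicit false

namespace SES

open Finset

open scoped Classical in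
theorem main (k : ℕ) (hk : 0 < k) : ∃ c C : ℝ, 0 < c ∧ 0 < C ∧ ∀ N : ℕ, 2 ≤ N →
    (((Icc 1 N).filter (fun n => ¬ Short k n)).card : ℝ) ≤
      C * N * Real.exp (-(c * Real.log N ^ (3 / 4 : ℝ))) :=
  final_of k (rough_of k hk (mu_bounds_of (recip_up_of Lnk.btq) k hk
    (fun K hK => recip_low_of Lnk.linnikStmt Lnk.btq k K hk
      (neOff_of (Lnk.neOfNonExc Lnk.zBound Lnk.zOne) (Lnk.excUnique Lnk.zBound Lnk.zOne)
        notExcK k K hk hK))))

end SES
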