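import Pool.Agent.Lib.MP_393cd8_nt.Defs
import Pool.Agent.Lib.MP_393cd8_nt.ClassSum

/-!
# Module H: lower bound for the mass of the triples
-/

set_option autoImplicit false

namespace SES

open Finset

/-- the interval -/
private def mI (K D : ℕ) : Finset ℕ :=
  (Ioc (D ^ 2) (D ^ 3)).filter (fun a => a ≡ 1 [MOD K.factorial])

/-- all triples `(s, a, c)` with `s ∣ n c + a` -/
private def mT (K D n : ℕ) : Finset (ℕ × ℕ × ℕ) :=
  (SS K D ×ˢ (mI K D ×ˢ mI K D)).filter (fun t => t.1 ∣ n * t.2.2 + t.2.1)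

/-- triples with divisibility conditions -/
private def mR (K D n d e f : ℕ) : Finset (ℕ × ℕ × ℕ) :=
  (mT K D n).filter (fun t => d ∣ t.1 ∧ e ∣ t.2.2 ∧ f ∣ t.2.1 ∧ f.Coprime t.1)

private lemma m_cop {K s d : ℕ} (hs : s ≡ 1 [MOD K.factorial]) (hd : d ∣ s) :
    d.Coprime K.factorial := by
  have h1 : s.Coprime K.factorial := by
    unfold Nat.Coprime
    rw [hs.gcd_eq]
    simp
  exact h1.coprime_dvd_left hd

private lemma m_prime {K s p : ℕ} (hs : s ≡ 1 [MOD K.factorial]) (hp : p.Prime) (hd : p ∣ s) :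
    K < p := by
  by_contra h
  have h1 := (Nat.Prime.coprime_iff_not_dvd hp).1 (m_cop hs hd)
  exact h1 (Nat.dvd_factorial hp.pos (not_lt.1 h))

/-- upper bound for `a` -/
private lemma m_up {K D s f n c : ℕ} (hD : 1 ≤ D) (hs : s ≡ 1 [MOD K.factorial]) (hs0 : 1 ≤ s)
    (hf0 : 1 ≤ f) (hfs : f.Coprime s) :
    ∑ a ∈ (mI K D).filter (fun a => f ∣ a ∧ s ∣ n * c + a), (1 : ℝ) / a ≤
      Real.log D / K.factorial / (s * f) + 1 / (D : ℝ) ^ 2 := by
  have hD0 : (0 : ℝ) < D := by exact_mod_cast hD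
  have hB : 0 < K.factorial := Nat.factorial_pos K
  have hL : 0 ≤ Real.log D := Real.log_natCast_nonneg D
  rcases ((mI K D).filter (fun a => f ∣ a ∧ s ∣ n * c + a)).eq_empty_or_nonempty with h | ⟨α, hα⟩
  · rw [h, Finset.sum_empty]
    positivity
  · rw [Finset.mem_filter] at hα
    obtain ⟨hα1, hα2, hα3⟩ := hα
    have hα4 : α ≡ 1 [MOD K.factorial] := (Finset.mem_filter.1 hα1).2
    have hfB : f.Coprime K.factorial := m_cop hα4 hα2
    have hsB : s.Coprime K.factorial := m_cop hs (dvd_refl s)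
    have hsub : (mI K D).filter (fun a => f ∣ a ∧ s ∣ n * c + a) ⊆
        (Ioc (D ^ 2) (D ^ 3)).filter (fun a => a ≡ α [MOD (K.factorial * (s * f))]) := by
      intro a ha
      rw [Finset.mem_filter] at ha
      obtain ⟨ha1, ha2, ha3⟩ := ha
      have ha4 := Finset.mem_filter.1 ha1
      rw [Finset.mem_filter]
      refine ⟨ha4.1, ?_⟩
      have e1 : a ≡ α [MOD K.factorial] := ha4.2.trans hα4.symm
      have e2 : a ≡ α [MOD f] :=
        ((Nat.modEq_zero_iff_dvd.2 ha2).trans (Nat.modEq_zero_iff_dvd.2 hα2).symm)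
      have e3 : a ≡ α [MOD s] :=
        Nat.ModEq.add_left_cancel' (n * c)
          ((Nat.modEq_zero_iff_dvd.2 ha3).trans (Nat.modEq_zero_iff_dvd.2 hα3).symm)
      have e4 : a ≡ α [MOD s * f] :=
        (Nat.modEq_and_modEq_iff_modEq_mul hfs.symm).1 ⟨e3, e2⟩
      exact (Nat.modEq_and_modEq_iff_modEq_mul
        (Nat.Coprime.mul_right hsB.symm hfB.symm)).1 ⟨e1, e4⟩
    refine (Finset.sum_le_sum_of_subset_of_nonneg hsub fun _ _ _ => by positivity).trans ?_
    have h1 := class_sum_le (A := D ^ 2) (A' := D ^ 3) (m := K.factorial * (s * f)) α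
      (Nat.one_le_pow _ _ hD) (Nat.pow_le_pow_right hD (by norm_num))
      (Nat.mul_pos hB (Nat.mul_pos hs0 hf0))
    refine h1.trans (le_of_eq ?_)
    have h2 : ((D ^ 3 : ℕ) : ℝ) / ((D ^ 2 : ℕ) : ℝ) = D := by
      push_cast
      field_simp
    rw [h2]
    push_cast
    rw [div_div]

/-- lower bound for `a` -/
private lemma m_low {K D s n c : ℕ} (hD : 1 ≤ D) (hs : s ≡ 1 [MOD K.factorial]) (hs0 : 1 ≤ s) :
    Real.log D / K.factorial / s - 1 / (D : ℝ) ^ 2 ≤
      ∑ a ∈ (mI K D).filter (fun a => s ∣ n * c + a), (1 : ℝ) / a := by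
  have hD0 : (0 : ℝ) < D := by exact_mod_cast hD
  have hB : 0 < K.factorial := Nat.factorial_pos K
  have hsB : s.Coprime K.factorial := m_cop hs (dvd_refl s)
  -- `β = - n c` modulo `s`
  obtain ⟨β, hβ⟩ : ∃ β, s ∣ n * c + β := by
    refine ⟨(s - 1) * (n * c), ?_⟩
    have : n * c + (s - 1) * (n * c) = s * (n * c) := by
      obtain ⟨s', rfl⟩ : ∃ s', s = s' + 1 := ⟨s - 1, by omega⟩
      simp only [Nat.add_sub_cancel]
      ring
    rw [this]
    exact Dvd.intro _ rfl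
  obtain ⟨α, hα1, hα2⟩ := Nat.chineseRemainder hsB β 1
  have hsub : (Ioc (D ^ 2) (D ^ 3)).filter (fun a => a ≡ α [MOD (K.factorial * s)]) ⊆
      (mI K D).filter (fun a => s ∣ n * c + a) := by
    intro a ha
    rw [Finset.mem_filter] at ha
    obtain ⟨ha1, ha2⟩ := ha
    rw [Finset.mem_filter]
    have e1 : a ≡ α [MOD K.factorial] := ha2.of_mul_right _
    have e2 : a ≡ α [MOD s] := ha2.of_mul_left _
    refine ⟨Finset.mem_filter.2 ⟨ha1, e1.trans hα2⟩, ?_⟩
    have e3 : n * c + a ≡ n * c + β [MOD s] := Nat.ModEq.add_left _ (e2.trans hα1)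
    exact Nat.modEq_zero_iff_dvd.1 (e3.trans (Nat.modEq_zero_iff_dvd.2 hβ))
  refine le_trans ?_ (Finset.sum_le_sum_of_subset_of_nonneg hsub fun _ _ _ => by positivity)
  have h1 := le_class_sum (A := D ^ 2) (A' := D ^ 3) (m := K.factorial * s) α
    (Nat.one_le_pow _ _ hD) (Nat.pow_le_pow_right hD (by norm_num))
    (Nat.mul_pos hB hs0)
  refine le_trans (le_of_eq ?_) h1
  have h2 : ((D ^ 3 : ℕ) : ℝ) / ((D ^ 2 : ℕ) : ℝ) = D := by
    push_cast
    field_simp
  rw [h2]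
  push_cast
  rw [div_div]

/-- the sum over `s` -/
private lemma m_S1 {K D d : ℕ} (hD : 1 ≤ D) (hd : 1 ≤ d) :
    ∑ s ∈ (SS K D).filter (fun s => d ∣ s), (1 : ℝ) / s ≤
      (2 + Real.log D / K.factorial) / d := by
  have hD0 : (0 : ℝ) < D := by exact_mod_cast hD
  have hd0 : (0 : ℝ) < d := by exact_mod_cast hd
  have hB : 0 < K.factorial := Nat.factorial_pos K
  have hB0 : (0 : ℝ) < K.factorial := by exact_mod_cast hB
  have hL : 0 ≤ Real.log D := Real.log_natCast_nonneg D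
  rcases ((SS K D).filter (fun s => d ∣ s)).eq_empty_or_nonempty with h | ⟨α, hα⟩
  · rw [h, Finset.sum_empty]
    positivity
  · rw [Finset.mem_filter] at hα
    obtain ⟨hα1, hα2⟩ := hα
    have hα3 := Finset.mem_filter.1 hα1
    have hα4 := Finset.mem_Icc.1 hα3.1
    have hdD : d ≤ D := (Nat.le_of_dvd (by omega) hα2).trans hα4.2
    have hdB : d.Coprime K.factorial := m_cop hα3.2 hα2
    have hsub : (SS K D).filter (fun s => d ∣ s) ⊆
        insert d ((Ioc d D).filter (fun a => a ≡ α [MOD (K.factorial * d)])) := by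
      intro s hs
      rw [Finset.mem_filter] at hs
      obtain ⟨hs1, hs2⟩ := hs
      have hs3 := Finset.mem_filter.1 hs1
      have hs4 := Finset.mem_Icc.1 hs3.1
      rw [Finset.mem_insert, Finset.mem_filter, Finset.mem_Ioc]
      rcases (Nat.le_of_dvd (by omega) hs2).eq_or_lt with h | h
      · left
        exact h.symm
      · right
        refine ⟨⟨h, hs4.2⟩, ?_⟩
        refine (Nat.modEq_and_modEq_iff_modEq_mul hdB.symm).1 ⟨hs3.2.trans hα3.2.symm, ?_⟩
        exact ((Nat.modEq_zero_iff_dvd.2 hs2).trans (Nat.modEq_zero_iff_dvd.2 hα2).symm)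
    refine (Finset.sum_le_sum_of_subset_of_nonneg hsub fun _ _ _ => by positivity).trans ?_
    rw [Finset.sum_insert (by simp)]
    have h1 := class_sum_le (A := d) (A' := D) (m := K.factorial * d) α hd hdD
      (Nat.mul_pos hB hd)
    have h2 : Real.log ((D : ℝ) / d) ≤ Real.log D := by
      apply Real.log_le_log (by positivity)
      exact div_le_self hD0.le (by exact_mod_cast hd)
    have h3 : Real.log ((D : ℝ) / d) / ((K.factorial * d : ℕ) : ℝ) ≤
        Real.log D / K.factorial / d := by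
      push_cast
      rw [div_div]
      exact div_le_div_of_nonneg_right h2 (by positivity)
    calc (1 : ℝ) / d + ∑ s ∈ (Ioc d D).filter (fun a => a ≡ α [MOD (K.factorial * d)]), (1 : ℝ) / s
        ≤ 1 / d + (Real.log D / K.factorial / d + 1 / d) := by linarith
      _ = (2 + Real.log D / K.factorial) / d := by ring

/-- lower bound for the sum over `s` -/
private lemma m_S0 {K D : ℕ} (hD : 1 ≤ D) :
    Real.log D / K.factorial ≤ ∑ s ∈ SS K D, (1 : ℝ) / s := by
  have hB : 0 < K.factorial := Nat.factorial_pos K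
  have h1 := le_class_sum (A := 1) (A' := D) (m := K.factorial) 1 le_rfl hD hB
  have hsub : insert 1 ((Ioc 1 D).filter (fun a => a ≡ 1 [MOD K.factorial])) ⊆ SS K D := by
    intro s hs
    rw [Finset.mem_insert, Finset.mem_filter, Finset.mem_Ioc] at hs
    unfold SS
    rw [Finset.mem_filter, Finset.mem_Icc]
    rcases hs with hs | ⟨h2, h3⟩
    · subst hs
      exact ⟨⟨le_rfl, hD⟩, Nat.ModEq.refl 1⟩
    · exact ⟨⟨by omega, h2.2⟩, h3⟩
  refine le_trans ?_ (Finset.sum_le_sum_of_subset_of_nonneg hsub fun _ _ _ => by positivity)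
  rw [Finset.sum_insert (by simp)]
  simp only [Nat.cast_one, div_one] at h1 ⊢
  linarith

/-- counting `s` -/
private lemma m_S2 {K D d : ℕ} :
    (((SS K D).filter (fun s => d ∣ s)).card : ℝ) ≤ D / d := by
  have hsub : (SS K D).filter (fun s => d ∣ s) ⊆ (Ioc 0 D).filter (fun s => d ∣ s) := by
    intro s hs
    rw [Finset.mem_filter] at hs ⊢
    refine ⟨?_, hs.2⟩
    have h1 := Finset.mem_Icc.1 (Finset.mem_filter.1 hs.1).1
    exact Finset.mem_Ioc.2 ⟨by omega, h1.2⟩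
  have h1 := Finset.card_le_card hsub
  rw [Nat.Ioc_filter_dvd_card_eq_div] at h1
  calc (((SS K D).filter (fun s => d ∣ s)).card : ℝ) ≤ ((D / d : ℕ) : ℝ) := by exact_mod_cast h1
    _ ≤ D / d := Nat.cast_div_le

/-- the sum over `c` -/
private lemma m_c {K D e : ℕ} (hD : 1 ≤ D) (he : 1 ≤ e) :
    ∑ c ∈ (mI K D).filter (fun c => e ∣ c), (1 : ℝ) / c ≤
      Real.log D / K.factorial / e + 1 / (D : ℝ) ^ 2 := by
  have h := m_up (K := K) (D := D) (s := 1) (f := e) (n := 0) (c := 0) hD (Nat.ModEq.refl 1)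
    le_rfl he (Nat.coprime_one_right e)
  have h1 : (mI K D).filter (fun a => e ∣ a ∧ 1 ∣ 0 * 0 + a) =
      (mI K D).filter (fun c => e ∣ c) := by
    apply Finset.filter_congr
    intro a _
    simp
  rw [h1] at h
  simpa using h

private lemma m_U {K D n d e f : ℕ} (hD : 1 ≤ D) (he : 1 ≤ e) (hd : 1 ≤ d) (hf : 1 ≤ f) :
    ∑ t ∈ mR K D n d e f, (1 : ℝ) / ((t.2.1 : ℝ) * t.2.2) ≤
      (Real.log D / K.factorial * (2 + Real.log D / K.factorial) / f + 1 / D) / d *
        (Real.log D / K.factorial / e + 1 / (D : ℝ) ^ 2) := by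
  have hD0 : (0 : ℝ) < D := by exact_mod_cast hD
  have hd0 : (0 : ℝ) < d := by exact_mod_cast hd
  have hf0 : (0 : ℝ) < f := by exact_mod_cast hf
  have he0 : (0 : ℝ) < e := by exact_mod_cast he
  have hx : 0 ≤ Real.log D / K.factorial := div_nonneg (Real.log_natCast_nonneg D) (by positivity)
  set x := Real.log D / K.factorial with hxdef
  set W := x / e + 1 / (D : ℝ) ^ 2 with hW
  have hW0 : 0 ≤ W := by positivity
  unfold mR mT
  rw [Finset.filter_filter, Finset.sum_filter, Finset.sum_product]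
  have hs : ∀ s ∈ SS K D, ∑ y ∈ mI K D ×ˢ mI K D,
      (if (s, y).1 ∣ n * (s, y).2.2 + (s, y).2.1 ∧ d ∣ (s, y).1 ∧ e ∣ (s, y).2.2 ∧
        f ∣ (s, y).2.1 ∧ f.Coprime (s, y).1 then
        (1 : ℝ) / (((s, y).2.1 : ℝ) * ((s, y).2.2 : ℝ)) else 0) ≤
      if d ∣ s then (x / (s * f) + 1 / (D : ℝ) ^ 2) * W else 0 := by
    intro s hs
    have hs1 := Finset.mem_filter.1 hs
    have hs2 := Finset.mem_Icc.1 hs1.1
    by_cases hds : d ∣ s
    · rw [if_pos hds]
      by_cases hfs : f.Coprime s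
      · rw [Finset.sum_product_right]
        have hs0 : (0 : ℝ) < s := by exact_mod_cast hs2.1
        calc ∑ c ∈ mI K D, ∑ a ∈ mI K D, (if s ∣ n * c + a ∧ d ∣ s ∧ e ∣ c ∧ f ∣ a ∧
              f.Coprime s then (1 : ℝ) / ((a : ℝ) * (c : ℝ)) else 0)
            ≤ ∑ c ∈ mI K D, (if e ∣ c then (x / (s * f) + 1 / (D : ℝ) ^ 2) * (1 / c) else 0) := by
              refine Finset.sum_le_sum fun c _ => ?_
              by_cases hec : e ∣ c
              · rw [if_pos hec]
                calc ∑ a ∈ mI K D, (if s ∣ n * c + a ∧ d ∣ s ∧ e ∣ c ∧ f ∣ a ∧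
                      f.Coprime s then (1 : ℝ) / ((a : ℝ) * (c : ℝ)) else 0)
                    = (∑ a ∈ (mI K D).filter (fun a => f ∣ a ∧ s ∣ n * c + a), (1 : ℝ) / a) *
                      (1 / c) := by
                      rw [Finset.sum_filter, Finset.sum_mul]
                      refine Finset.sum_congr rfl fun a _ => ?_
                      by_cases h1 : f ∣ a ∧ s ∣ n * c + a
                      · rw [if_pos h1, if_pos ⟨h1.2, hds, hec, h1.1, hfs⟩]
                        rw [one_div_mul_one_div]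
                      · rw [if_neg h1, if_neg (fun h2 => h1 ⟨h2.2.2.2.1, h2.1⟩), zero_mul]
                  _ ≤ (x / (s * f) + 1 / (D : ℝ) ^ 2) * (1 / c) := by
                      refine mul_le_mul_of_nonneg_right ?_ (by positivity)
                      exact m_up hD hs1.2 hs2.1 hf hfs
              · rw [if_neg hec]
                refine le_of_eq (Finset.sum_eq_zero fun a _ => if_neg fun h => hec h.2.2.1)
          _ = (x / (s * f) + 1 / (D : ℝ) ^ 2) *
                ∑ c ∈ (mI K D).filter (fun c => e ∣ c), (1 : ℝ) / c := by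
              rw [Finset.sum_filter, Finset.mul_sum]
              refine Finset.sum_congr rfl fun c _ => ?_
              by_cases hec : e ∣ c
              · rw [if_pos hec, if_pos hec]
              · rw [if_neg hec, if_neg hec, mul_zero]
          _ ≤ (x / (s * f) + 1 / (D : ℝ) ^ 2) * W :=
              mul_le_mul_of_nonneg_left (m_c hD he) (by positivity)
      · refine le_trans (le_of_eq (Finset.sum_eq_zero fun y _ => if_neg fun h => hfs h.2.2.2.2)) ?_
        positivity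
    · rw [if_neg hds]
      exact le_of_eq (Finset.sum_eq_zero fun y _ => if_neg fun h => hds h.2.1)
  refine (Finset.sum_le_sum hs).trans ?_
  rw [← Finset.sum_filter, ← Finset.sum_mul]
  refine mul_le_mul_of_nonneg_right ?_ hW0
  rw [Finset.sum_add_distrib, Finset.sum_const, nsmul_eq_mul]
  have h1 := m_S1 (K := K) hD hd
  have h2 := m_S2 (K := K) (D := D) (d := d)
  have h3 : ∑ s ∈ (SS K D).filter (fun s => d ∣ s), x / ((s : ℝ) * f) =
      x / f * ∑ s ∈ (SS K D).filter (fun s => d ∣ s), (1 : ℝ) / s := by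
    rw [Finset.mul_sum]
    refine Finset.sum_congr rfl fun s _ => ?_
    rw [div_mul_div_comm, mul_one, mul_comm (s : ℝ)]
  rw [h3]
  calc x / f * ∑ s ∈ (SS K D).filter (fun s => d ∣ s), (1 : ℝ) / s +
        (((SS K D).filter (fun s => d ∣ s)).card : ℝ) * (1 / (D : ℝ) ^ 2)
      ≤ x / f * ((2 + x) / d) + (D / d) * (1 / (D : ℝ) ^ 2) := by
        refine add_le_add (mul_le_mul_of_nonneg_left h1 (by positivity))
          (mul_le_mul_of_nonneg_right h2 (by positivity))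
    _ = (x * (2 + x) / f + 1 / D) / d := by
        field_simp

/-- the total mass -/
private lemma m_all {K D n : ℕ} (hD : 1 ≤ D) (hx1 : 1 ≤ Real.log D / K.factorial) :
    (Real.log D / K.factorial - 1) * ((Real.log D / K.factorial) ^ 2 - 1) ≤
      ∑ t ∈ mT K D n, (1 : ℝ) / ((t.2.1 : ℝ) * t.2.2) := by
  have hD0 : (0 : ℝ) < D := by exact_mod_cast hD
  have hD1 : (1 : ℝ) ≤ D := by exact_mod_cast hD
  set x := Real.log D / K.factorial with hxdef
  have hDi : 1 / (D : ℝ) ^ 2 ≤ 1 := by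
    rw [div_le_one (by positivity)]
    exact one_le_pow₀ hD1
  unfold mT
  rw [Finset.sum_filter, Finset.sum_product]
  have hc0 : x - 1 / (D : ℝ) ^ 2 ≤ ∑ c ∈ mI K D, (1 : ℝ) / c := by
    have h := m_low (K := K) (D := D) (s := 1) (n := 0) (c := 0) hD (Nat.ModEq.refl 1) le_rfl
    have h1 : (mI K D).filter (fun a => 1 ∣ 0 * 0 + a) = mI K D := by
      apply Finset.filter_true_of_mem
      intro a _
      simp
    rw [h1] at h
    simpa using h
  have hs : ∀ s ∈ SS K D, (x / s - 1 / (D : ℝ) ^ 2) * (x - 1 / (D : ℝ) ^ 2) ≤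
      ∑ y ∈ mI K D ×ˢ mI K D,
      (if (s, y).1 ∣ n * (s, y).2.2 + (s, y).2.1 then
        (1 : ℝ) / (((s, y).2.1 : ℝ) * ((s, y).2.2 : ℝ)) else 0) := by
    intro s hs
    have hs1 := Finset.mem_filter.1 hs
    have hs2 := Finset.mem_Icc.1 hs1.1
    have hs0 : (0 : ℝ) < s := by exact_mod_cast hs2.1
    have hsD : (s : ℝ) ≤ D := by exact_mod_cast hs2.2
    rw [Finset.sum_product_right]
    have h5 : 0 ≤ x / s - 1 / (D : ℝ) ^ 2 := by
      rw [sub_nonneg, div_le_div_iff₀ (by positivity) hs0]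
      nlinarith
    calc (x / s - 1 / (D : ℝ) ^ 2) * (x - 1 / (D : ℝ) ^ 2)
        ≤ (x / s - 1 / (D : ℝ) ^ 2) * ∑ c ∈ mI K D, (1 : ℝ) / c :=
          mul_le_mul_of_nonneg_left hc0 h5
      _ = ∑ c ∈ mI K D, (x / s - 1 / (D : ℝ) ^ 2) * (1 / c) := by rw [Finset.mul_sum]
      _ ≤ ∑ c ∈ mI K D, ∑ a ∈ mI K D,
            (if s ∣ n * c + a then (1 : ℝ) / ((a : ℝ) * (c : ℝ)) else 0) := by
          refine Finset.sum_le_sum fun c _ => ?_
          have h6 : ∑ a ∈ mI K D, (if s ∣ n * c + a then (1 : ℝ) / ((a : ℝ) * (c : ℝ)) else 0) =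
              (∑ a ∈ (mI K D).filter (fun a => s ∣ n * c + a), (1 : ℝ) / a) * (1 / c) := by
            rw [Finset.sum_filter, Finset.sum_mul]
            refine Finset.sum_congr rfl fun a _ => ?_
            by_cases h1 : s ∣ n * c + a
            · rw [if_pos h1, if_pos h1, one_div_mul_one_div]
            · rw [if_neg h1, if_neg h1, zero_mul]
          rw [h6]
          exact mul_le_mul_of_nonneg_right (m_low hD hs1.2 hs2.1) (by positivity)
  refine le_trans ?_ (Finset.sum_le_sum hs)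
  rw [← Finset.sum_mul, Finset.sum_sub_distrib, Finset.sum_const, nsmul_eq_mul]
  have h3 : ∑ s ∈ SS K D, x / (s : ℝ) = x * ∑ s ∈ SS K D, (1 : ℝ) / s := by
    rw [Finset.mul_sum]
    refine Finset.sum_congr rfl fun s _ => ?_
    rw [mul_one_div]
  rw [h3]
  have h0 := m_S0 (K := K) hD
  have hcard : ((SS K D).card : ℝ) ≤ D := by
    have := m_S2 (K := K) (D := D) (d := 1)
    simpa using this
  have h7 : ((SS K D).card : ℝ) * (1 / (D : ℝ) ^ 2) ≤ 1 := by
    calc ((SS K D).card : ℝ) * (1 / (D : ℝ) ^ 2) ≤ D * (1 / (D : ℝ) ^ 2) :=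
          mul_le_mul_of_nonneg_right hcard (by positivity)
      _ = 1 / D := by field_simp
      _ ≤ 1 := by
          rw [div_le_one hD0]
          exact hD1
  have h8 : x ^ 2 - 1 ≤ x * ∑ s ∈ SS K D, (1 : ℝ) / s -
      ((SS K D).card : ℝ) * (1 / (D : ℝ) ^ 2) := by
    have : x * x ≤ x * ∑ s ∈ SS K D, (1 : ℝ) / s := mul_le_mul_of_nonneg_left h0 (by linarith)
    nlinarith
  calc (x - 1) * (x ^ 2 - 1) = (x ^ 2 - 1) * (x - 1) := by ring
    _ ≤ (x ^ 2 - 1) * (x - 1 / (D : ℝ) ^ 2) :=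
        mul_le_mul_of_nonneg_left (by linarith) (by nlinarith)
    _ ≤ (x * ∑ s ∈ SS K D, (1 : ℝ) / s - ((SS K D).card : ℝ) * (1 / (D : ℝ) ^ 2)) *
          (x - 1 / (D : ℝ) ^ 2) := mul_le_mul_of_nonneg_right h8 (by linarith)

private lemma m_cover {K D n l : ℕ} (hl : l.Prime) {t : ℕ × ℕ × ℕ} (ht : t ∈ mT K D n) :
    t ∈ MS K l D n ∨
      t ∈ ((Icc 1 D).filter (fun p => p.Prime ∧ p ∣ n)).biUnion (fun p => mR K D n p 1 1) ∨
      t ∈ (Ioc K D).biUnion (fun p => mR K D n p p 1) ∨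
      t ∈ (Ioc K (D ^ 3)).biUnion (fun p => mR K D n 1 p p) ∨
      t ∈ mR K D n 1 l 1 ∨ t ∈ mR K D n 1 1 l := by
  by_contra hcon
  simp only [not_or, Finset.mem_biUnion, not_exists, not_and] at hcon
  obtain ⟨h0, h1, h2, h3, h4, h5⟩ := hcon
  have ht' := ht
  unfold mT at ht'
  rw [Finset.mem_filter, Finset.mem_product, Finset.mem_product] at ht'
  obtain ⟨⟨hs, ha, hc⟩, hdiv⟩ := ht'
  have hs1 := Finset.mem_filter.1 hs
  have hs2 := Finset.mem_Icc.1 hs1.1
  have ha1 := Finset.mem_filter.1 ha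
  have ha2 := Finset.mem_Ioc.1 ha1.1
  have hc1 := Finset.mem_filter.1 hc
  have hR : ∀ d e f : ℕ, t ∈ mR K D n d e f ↔
      d ∣ t.1 ∧ e ∣ t.2.2 ∧ f ∣ t.2.1 ∧ f.Coprime t.1 := by
    intro d e f
    unfold mR
    rw [Finset.mem_filter]
    exact ⟨fun h => h.2, fun h => ⟨ht, h⟩⟩
  have hA : ∀ p : ℕ, p.Prime → p ∣ t.1 → ¬ p ∣ n := by
    intro p hp hps hpn
    have hpD : p ≤ D := (Nat.le_of_dvd (by omega) hps).trans hs2.2
    refine h1 p (Finset.mem_filter.2 ⟨Finset.mem_Icc.2 ⟨hp.one_le, hpD⟩, hp, hpn⟩) ?_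
    exact (hR p 1 1).2 ⟨hps, one_dvd _, one_dvd _, Nat.coprime_one_left _⟩
  have hB : ∀ p : ℕ, p.Prime → p ∣ t.1 → ¬ p ∣ t.2.2 := by
    intro p hp hps hpc
    have hpD : p ≤ D := (Nat.le_of_dvd (by omega) hps).trans hs2.2
    refine h2 p (Finset.mem_Ioc.2 ⟨m_prime hs1.2 hp hps, hpD⟩) ?_
    exact (hR p p 1).2 ⟨hps, hpc, one_dvd _, Nat.coprime_one_left _⟩
  have hC : ∀ p : ℕ, p.Prime → p ∣ t.1 → ¬ p ∣ t.2.1 := by
    intro p hp hps hpa
    have h6 : p ∣ n * t.2.2 := (Nat.dvd_add_left hpa).1 (hps.trans hdiv)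
    rcases (Nat.Prime.dvd_mul hp).1 h6 with h7 | h7
    · exact hA p hp hps h7
    · exact hB p hp hps h7
  have hDD : ∀ p : ℕ, p.Prime → p ∣ t.2.1 → ¬ p ∣ t.2.2 := by
    intro p hp hpa hpc
    have hps : ¬ p ∣ t.1 := fun h => hC p hp h hpa
    have hpD : p ≤ D ^ 3 := (Nat.le_of_dvd (by omega) hpa).trans ha2.2
    refine h3 p (Finset.mem_Ioc.2 ⟨m_prime ha1.2 hp hpa, hpD⟩) ?_
    exact (hR 1 p p).2 ⟨one_dvd _, hpc, hpa, (Nat.Prime.coprime_iff_not_dvd hp).2 hps⟩
  have hE : ¬ l ∣ t.2.2 := fun h =>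
    h4 ((hR 1 l 1).2 ⟨one_dvd _, h, one_dvd _, Nat.coprime_one_left _⟩)
  have hF : ¬ l ∣ t.2.1 := fun h => by
    have hps : ¬ l ∣ t.1 := fun h' => hC l hl h' h
    exact h5 ((hR 1 1 l).2 ⟨one_dvd _, one_dvd _, h, (Nat.Prime.coprime_iff_not_dvd hl).2 hps⟩)
  apply h0
  unfold MS
  rw [Finset.mem_filter, Finset.mem_product, Finset.mem_product]
  refine ⟨⟨hs, ?_, ?_⟩, ?_, ?_, hdiv⟩
  · unfold AS
    exact Finset.mem_filter.2 ⟨ha1.1, ha1.2, hF⟩
  · unfold AS
    exact Finset.mem_filter.2 ⟨hc1.1, hc1.2, hE⟩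
  · exact Nat.coprime_of_dvd fun p hp hpa => hDD p hp hpa
  · refine Nat.Coprime.mul_right ?_ ?_
    · exact Nat.coprime_of_dvd fun p hp hps => hC p hp hps
    · exact Nat.coprime_of_dvd fun p hp hps => hB p hp hps

private lemma m_biUnion {ι : Type*} (P : Finset ι) (R : ι → Finset (ℕ × ℕ × ℕ))
    (F : ℕ × ℕ × ℕ → ℝ) (hF : ∀ t, 0 ≤ F t) :
    ∑ t ∈ P.biUnion R, F t ≤ ∑ p ∈ P, ∑ t ∈ R p, F t := by
  classical
  induction P using Finset.induction_on with
  | empty => simp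
  | insert a s ha ih =>
    rw [Finset.biUnion_insert, Finset.sum_insert ha]
    have h1 := Finset.sum_union_inter (s₁ := R a) (s₂ := s.biUnion R) (f := F)
    have h2 : 0 ≤ ∑ t ∈ R a ∩ s.biUnion R, F t := Finset.sum_nonneg fun t _ => hF t
    linarith

private lemma m_union (A B : Finset (ℕ × ℕ × ℕ)) (F : ℕ × ℕ × ℕ → ℝ) (hF : ∀ t, 0 ≤ F t) :
    ∑ t ∈ A ∪ B, F t ≤ ∑ t ∈ A, F t + ∑ t ∈ B, F t := by
  have h1 := Finset.sum_union_inter (s₁ := A) (s₂ := B) (f := F)
  have h2 : 0 ≤ ∑ t ∈ A ∩ B, F t := Finset.sum_nonneg fun t _ => hF t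
  linarith

private lemma m_poly {x : ℝ} (hx : 100 ≤ x) :
    x ^ 3 / 4 + ((x + 1) ^ 3 / 4 + 2 * ((x + 1) ^ 2 * (x / 24 + 1)) +
      (x ^ 2 * (2 + x) / 24 + x ^ 2 + 5) + ((x ^ 2 + 2 * x) / 24 + 1) * (x + 1)) ≤
      (x - 1) * (x ^ 2 - 1) := by
  obtain ⟨z, hz, rfl⟩ : ∃ z : ℝ, 0 ≤ z ∧ x = 100 + z := ⟨x - 100, by linarith, by ring⟩
  nlinarith [mul_nonneg hz hz, mul_nonneg (mul_nonneg hz hz) hz]

theorem mass_low (K : ℕ) (hK : 24 ≤ K) : ∃ (c : ℝ) (D₀ : ℕ), 0 < c ∧ ∀ D l n : ℕ, D₀ ≤ D →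
    l.Prime → K < l → sp D n ≤ 1 / 4 →
      c * Real.log D ^ 3 ≤ ∑ t ∈ MS K l D n, (1 : ℝ) / ((t.2.1 : ℝ) * t.2.2) := by
  have hB : (0 : ℝ) < K.factorial := by exact_mod_cast Nat.factorial_pos K
  set B : ℝ := (K.factorial : ℝ) with hBdef
  refine ⟨1 / (4 * B ^ 3), max (K + 1) ⌈Real.exp (B * (100 + 12 * B))⌉₊, by positivity,
    fun D l n hD hl hKl hsp => ?_⟩
  have hDK : K + 1 ≤ D := (le_max_left _ _).trans hD
  have hDe : Real.exp (B * (100 + 12 * B)) ≤ D := by
    refine (Nat.le_ceil _).trans ?_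
    exact_mod_cast (le_max_right _ _).trans hD
  have hD1 : 1 ≤ D := by omega
  have hD0 : (0 : ℝ) < D := by exact_mod_cast hD1
  have hD1' : (1 : ℝ) ≤ D := by exact_mod_cast hD1
  have hLB : B * (100 + 12 * B) ≤ Real.log D := by
    rw [Real.le_log_iff_exp_le hD0]
    exact hDe
  set x : ℝ := Real.log D / B with hx
  have hxx : 100 + 12 * B ≤ x := by
    rw [hx, le_div_iff₀ hB]
    linarith
  have hx100 : 100 ≤ x := by linarith
  have hx0 : 0 ≤ x := by linarith
  have hLx : Real.log D = B * x := by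
    rw [hx]
    field_simp
  have hB1 : (1 : ℝ) ≤ B := by
    rw [hBdef]
    exact_mod_cast Nat.factorial_pos K
  have hLD : Real.log D ≤ D := (Real.log_le_sub_one_of_pos hD0).trans (by linarith)
  have hxL : x ≤ Real.log D := by
    rw [hLx]
    nlinarith
  have hxD : x ≤ D := hxL.trans hLD
  have hK0 : (0 : ℝ) < K := by
    have : 0 < K := by omega
    exact_mod_cast this
  have hK24 : (24 : ℝ) ≤ K := by exact_mod_cast hK
  have hKl' : (K : ℝ) ≤ l := by exact_mod_cast hKl.le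
  have hl0 : (0 : ℝ) < l := by linarith
  have hi1 : 1 / (D : ℝ) ≤ 1 := by rw [div_le_one hD0]; exact hD1'
  have hi2 : 1 / (D : ℝ) ^ 2 ≤ 1 := by
    rw [div_le_one (by positivity)]
    exact one_le_pow₀ hD1'
  set F : ℕ × ℕ × ℕ → ℝ := fun t => (1 : ℝ) / ((t.2.1 : ℝ) * t.2.2) with hF
  have hF0 : ∀ t, 0 ≤ F t := fun t => by positivity
  -- cover
  have hcov : mT K D n ⊆ MS K l D n ∪
      (((Icc 1 D).filter (fun p => p.Prime ∧ p ∣ n)).biUnion (fun p => mR K D n p 1 1) ∪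
      ((Ioc K D).biUnion (fun p => mR K D n p p 1) ∪
      ((Ioc K (D ^ 3)).biUnion (fun p => mR K D n 1 p p) ∪
      (mR K D n 1 l 1 ∪ mR K D n 1 1 l)))) := by
    intro t ht
    simp only [Finset.mem_union]
    exact m_cover hl ht
  have hsum := Finset.sum_le_sum_of_subset_of_nonneg hcov (fun t _ _ => hF0 t) (f := F)
  have u1 := m_union (MS K l D n)
    (((Icc 1 D).filter (fun p => p.Prime ∧ p ∣ n)).biUnion (fun p => mR K D n p 1 1) ∪
      ((Ioc K D).biUnion (fun p => mR K D n p p 1) ∪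
      ((Ioc K (D ^ 3)).biUnion (fun p => mR K D n 1 p p) ∪
      (mR K D n 1 l 1 ∪ mR K D n 1 1 l)))) F hF0
  have u2 := m_union
    (((Icc 1 D).filter (fun p => p.Prime ∧ p ∣ n)).biUnion (fun p => mR K D n p 1 1))
      ((Ioc K D).biUnion (fun p => mR K D n p p 1) ∪
      ((Ioc K (D ^ 3)).biUnion (fun p => mR K D n 1 p p) ∪
      (mR K D n 1 l 1 ∪ mR K D n 1 1 l))) F hF0
  have u3 := m_union ((Ioc K D).biUnion (fun p => mR K D n p p 1))
      ((Ioc K (D ^ 3)).biUnion (fun p => mR K D n 1 p p) ∪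
      (mR K D n 1 l 1 ∪ mR K D n 1 1 l)) F hF0
  have u4 := m_union ((Ioc K (D ^ 3)).biUnion (fun p => mR K D n 1 p p))
      (mR K D n 1 l 1 ∪ mR K D n 1 1 l) F hF0
  have u5 := m_union (mR K D n 1 l 1) (mR K D n 1 1 l) F hF0
  have b1 := m_biUnion ((Icc 1 D).filter (fun p => p.Prime ∧ p ∣ n)) (fun p => mR K D n p 1 1) F hF0
  have b2 := m_biUnion (Ioc K D) (fun p => mR K D n p p 1) F hF0
  have b3 := m_biUnion (Ioc K (D ^ 3)) (fun p => mR K D n 1 p p) F hF0
  have hall := m_all (K := K) (n := n) hD1 (by linarith)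
  -- the bounds
  have hy : x * (2 + x) / ((1 : ℕ) : ℝ) + 1 / D ≤ (x + 1) ^ 2 := by
    rw [Nat.cast_one, div_one]
    nlinarith
  have c1 : ∑ p ∈ (Icc 1 D).filter (fun p => p.Prime ∧ p ∣ n), ∑ t ∈ mR K D n p 1 1, F t ≤
      (x + 1) ^ 3 / 4 := by
    calc ∑ p ∈ (Icc 1 D).filter (fun p => p.Prime ∧ p ∣ n), ∑ t ∈ mR K D n p 1 1, F t
        ≤ ∑ p ∈ (Icc 1 D).filter (fun p => p.Prime ∧ p ∣ n), (1 : ℝ) / p * (x + 1) ^ 3 := by
          refine Finset.sum_le_sum fun p hp => ?_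
          have hp1 := Finset.mem_Icc.1 (Finset.mem_filter.1 hp).1
          refine (m_U (K := K) (n := n) hD1 (le_refl 1) hp1.1 (le_refl 1)).trans ?_
          rw [← hBdef, ← hx]
          have hp0 : (0 : ℝ) < p := by exact_mod_cast hp1.1
          calc (x * (2 + x) / ((1 : ℕ) : ℝ) + 1 / D) / p * (x / ((1 : ℕ) : ℝ) + 1 / (D : ℝ) ^ 2)
              ≤ (x + 1) ^ 2 / p * (x + 1) := by
                refine mul_le_mul (div_le_div_of_nonneg_right hy hp0.le) ?_ (by positivity)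
                  (by positivity)
                rw [Nat.cast_one, div_one]
                linarith
            _ = 1 / p * (x + 1) ^ 3 := by ring
      _ = sp D n * (x + 1) ^ 3 := by
          rw [← Finset.sum_mul]
          rfl
      _ ≤ 1 / 4 * (x + 1) ^ 3 := mul_le_mul_of_nonneg_right hsp (by positivity)
      _ = (x + 1) ^ 3 / 4 := by ring
  have sq : ∀ X : ℕ, K ≤ X → ∑ p ∈ Ioc K X, ((p : ℝ) ^ 2)⁻¹ ≤ 1 / 24 := by
    intro X hX
    have h1 := sum_Ioc_inv_sq_le_sub (α := ℝ) (show K ≠ 0 by omega) hX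
    have h2 : (K : ℝ)⁻¹ ≤ 1 / 24 := by
      rw [inv_eq_one_div]
      exact one_div_le_one_div_of_le (by norm_num) hK24
    have h3 : (0 : ℝ) ≤ (X : ℝ)⁻¹ := by positivity
    linarith
  have c2 : ∑ p ∈ Ioc K D, ∑ t ∈ mR K D n p p 1, F t ≤ (x + 1) ^ 2 * (x / 24 + 1) := by
    calc ∑ p ∈ Ioc K D, ∑ t ∈ mR K D n p p 1, F t
        ≤ ∑ p ∈ Ioc K D, ((x + 1) ^ 2 * x * ((p : ℝ) ^ 2)⁻¹ + (x + 1) ^ 2 * (1 / D)) := by
          refine Finset.sum_le_sum fun p hp => ?_
          have hp1 : 1 ≤ p := by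
            have := (Finset.mem_Ioc.1 hp).1
            omega
          refine (m_U (K := K) (n := n) hD1 hp1 hp1 (le_refl 1)).trans ?_
          rw [← hBdef, ← hx]
          have hp0 : (0 : ℝ) < p := by exact_mod_cast hp1
          have hp1' : (1 : ℝ) ≤ p := by exact_mod_cast hp1
          calc (x * (2 + x) / ((1 : ℕ) : ℝ) + 1 / D) / p * (x / p + 1 / (D : ℝ) ^ 2)
              ≤ (x + 1) ^ 2 / p * (x / p + 1 / (D : ℝ) ^ 2) := by
                refine mul_le_mul_of_nonneg_right (div_le_div_of_nonneg_right hy hp0.le)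
                  (by positivity)
            _ = (x + 1) ^ 2 * x * ((p : ℝ) ^ 2)⁻¹ + (x + 1) ^ 2 * (1 / p * (1 / (D : ℝ) ^ 2)) := by
                field_simp
            _ ≤ (x + 1) ^ 2 * x * ((p : ℝ) ^ 2)⁻¹ + (x + 1) ^ 2 * (1 / D) := by
                refine add_le_add le_rfl (mul_le_mul_of_nonneg_left ?_ (by positivity))
                rw [one_div_mul_one_div]
                apply one_div_le_one_div_of_le hD0
                nlinarith
      _ = (x + 1) ^ 2 * x * ∑ p ∈ Ioc K D, ((p : ℝ) ^ 2)⁻¹ +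
            ((Ioc K D).card : ℝ) * ((x + 1) ^ 2 * (1 / D)) := by
          rw [Finset.sum_add_distrib, ← Finset.mul_sum, Finset.sum_const, nsmul_eq_mul]
      _ ≤ (x + 1) ^ 2 * x * (1 / 24) + (D : ℝ) * ((x + 1) ^ 2 * (1 / D)) := by
          refine add_le_add (mul_le_mul_of_nonneg_left (sq D (by omega)) (by positivity))
            (mul_le_mul_of_nonneg_right ?_ (by positivity))
          rw [Nat.card_Ioc]
          exact_mod_cast Nat.sub_le D K
      _ = (x + 1) ^ 2 * (x / 24 + 1) := by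
          field_simp
  have c3 : ∑ p ∈ Ioc K (D ^ 3), ∑ t ∈ mR K D n 1 p p, F t ≤
      x ^ 2 * (2 + x) / 24 + x ^ 2 + 5 := by
    have hKD3 : K ≤ D ^ 3 := by
      calc K ≤ D := by omega
        _ = D ^ 1 := (pow_one D).symm
        _ ≤ D ^ 3 := Nat.pow_le_pow_right hD1 (by norm_num)
    have harm : ∑ p ∈ Ioc K (D ^ 3), (1 : ℝ) / p ≤ 3 * Real.log D + 1 := by
      have h1 := class_sum_le (A := K) (A' := D ^ 3) (m := 1) 0 (by omega) hKD3 le_rfl
      have h2 : (Ioc K (D ^ 3)).filter (fun a => a ≡ 0 [MOD 1]) = Ioc K (D ^ 3) :=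
        Finset.filter_true_of_mem fun a _ => Nat.modEq_one
      rw [h2] at h1
      refine h1.trans ?_
      rw [Nat.cast_one, div_one]
      have h3 : Real.log (((D ^ 3 : ℕ) : ℝ) / K) ≤ 3 * Real.log D := by
        have h4 : (3 : ℝ) * Real.log D = Real.log ((D : ℝ) ^ 3) := by
          rw [Real.log_pow]
          norm_num
        rw [h4]
        apply Real.log_le_log (by positivity)
        push_cast
        exact div_le_self (by positivity) (by linarith)
      have h5 : (1 : ℝ) / K ≤ 1 := by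
        rw [div_le_one hK0]
        linarith
      linarith
    calc ∑ p ∈ Ioc K (D ^ 3), ∑ t ∈ mR K D n 1 p p, F t
        ≤ ∑ p ∈ Ioc K (D ^ 3), (x ^ 2 * (2 + x) * ((p : ℝ) ^ 2)⁻¹ + 4 * (1 / p) +
            1 / (D : ℝ) ^ 3) := by
          refine Finset.sum_le_sum fun p hp => ?_
          have hp1 : 1 ≤ p := by
            have := (Finset.mem_Ioc.1 hp).1
            omega
          refine (m_U (K := K) (n := n) hD1 hp1 (le_refl 1) hp1).trans ?_
          rw [← hBdef, ← hx]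
          have hp0 : (0 : ℝ) < p := by exact_mod_cast hp1
          have e1 : (x * (2 + x) / p + 1 / D) / ((1 : ℕ) : ℝ) * (x / p + 1 / (D : ℝ) ^ 2) =
              x ^ 2 * (2 + x) * ((p : ℝ) ^ 2)⁻¹ +
                (x * (2 + x) / (D : ℝ) ^ 2 + x / D) * (1 / p) + 1 / (D : ℝ) ^ 3 := by
            rw [Nat.cast_one, div_one]
            field_simp
            ring
          rw [e1]
          refine add_le_add (add_le_add le_rfl (mul_le_mul_of_nonneg_right ?_ (by positivity)))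
            le_rfl
          have e2 : x / D ≤ 1 := by
            rw [div_le_one hD0]
            exact hxD
          have e3 : x * (2 + x) / (D : ℝ) ^ 2 ≤ 3 := by
            rw [div_le_iff₀ (by positivity)]
            nlinarith
          linarith
      _ = x ^ 2 * (2 + x) * ∑ p ∈ Ioc K (D ^ 3), ((p : ℝ) ^ 2)⁻¹ +
            4 * ∑ p ∈ Ioc K (D ^ 3), (1 : ℝ) / p +
            ((Ioc K (D ^ 3)).card : ℝ) * (1 / (D : ℝ) ^ 3) := by
          rw [Finset.sum_add_distrib, Finset.sum_add_distrib, ← Finset.mul_sum, ← Finset.mul_sum,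
            Finset.sum_const, nsmul_eq_mul]
      _ ≤ x ^ 2 * (2 + x) * (1 / 24) + 4 * (3 * Real.log D + 1) +
            ((D : ℝ) ^ 3) * (1 / (D : ℝ) ^ 3) := by
          refine add_le_add (add_le_add
            (mul_le_mul_of_nonneg_left (sq (D ^ 3) hKD3) (by positivity))
            (mul_le_mul_of_nonneg_left harm (by norm_num)))
            (mul_le_mul_of_nonneg_right ?_ (by positivity))
          rw [Nat.card_Ioc]
          exact_mod_cast Nat.sub_le (D ^ 3) K
      _ = x ^ 2 * (2 + x) / 24 + 12 * B * x + 5 := by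
          rw [hLx]
          field_simp
          ring
      _ ≤ x ^ 2 * (2 + x) / 24 + x ^ 2 + 5 := by
          nlinarith
  have hxl : x / l ≤ x / 24 := div_le_div_of_nonneg_left hx0 (by norm_num) (by linarith)
  have c4 : ∑ t ∈ mR K D n 1 l 1, F t ≤ (x + 1) ^ 2 * (x / 24 + 1) := by
    refine (m_U (K := K) (n := n) hD1 hl.one_le (le_refl 1) (le_refl 1)).trans ?_
    rw [← hBdef, ← hx]
    calc (x * (2 + x) / ((1 : ℕ) : ℝ) + 1 / D) / ((1 : ℕ) : ℝ) * (x / l + 1 / (D : ℝ) ^ 2)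
        ≤ (x + 1) ^ 2 / ((1 : ℕ) : ℝ) * (x / 24 + 1) := by
          refine mul_le_mul (div_le_div_of_nonneg_right hy (by norm_num)) (by linarith)
            (by positivity) (by positivity)
      _ = (x + 1) ^ 2 * (x / 24 + 1) := by
          rw [Nat.cast_one, div_one]
  have c5 : ∑ t ∈ mR K D n 1 1 l, F t ≤ ((x ^ 2 + 2 * x) / 24 + 1) * (x + 1) := by
    refine (m_U (K := K) (n := n) hD1 (le_refl 1) (le_refl 1) hl.one_le).trans ?_
    rw [← hBdef, ← hx]
    calc (x * (2 + x) / l + 1 / D) / ((1 : ℕ) : ℝ) * (x / ((1 : ℕ) : ℝ) + 1 / (D : ℝ) ^ 2)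
        ≤ ((x ^ 2 + 2 * x) / 24 + 1) * (x + 1) := by
          rw [Nat.cast_one, div_one, div_one]
          refine mul_le_mul ?_ (by linarith) (by positivity) (by positivity)
          refine add_le_add ?_ hi1
          have : x * (2 + x) = x ^ 2 + 2 * x := by ring
          rw [this]
          exact div_le_div_of_nonneg_left (by positivity) (by norm_num) (by linarith)
      _ = _ := rfl
  have hpoly := m_poly hx100
  have hgoal : 1 / (4 * B ^ 3) * Real.log D ^ 3 = x ^ 3 / 4 := by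
    rw [hLx]
    field_simp
  rw [hgoal]
  have hall' : (x - 1) * (x ^ 2 - 1) ≤ ∑ t ∈ mT K D n, F t := hall
  linarith

end SES
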