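import Pool.Agent.Lib.MP_393cd8_nt.CharMertens
import Pool.Agent.Lib.Linnik.NotExcFour

/-!
# Module B2: characters of a fixed modulus are not exceptional for large sifting levels
-/

set_option autoImplicit false

namespace SES

open Complex Hoh Lnk
open Pool.Agent.GapSieve (nonprime_bound)
open Finset hiding card

private lemma b2_prime_sum {r : ℕ → ℝ} (hr : ∀ n, |r n| ≤ 1) {C₁ : ℝ}
    (hr1 : ∀ N : ℕ, |∑ d ∈ Ioc 0 N, r d * ArithmeticFunction.vonMangoldt d / d| ≤ C₁) :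
    ∃ C : ℝ, 0 ≤ C ∧ ∀ N : ℕ,
      |∑ d ∈ Ioc 0 N, (if d.Prime then r d * Real.log d / d else 0)| ≤ C := by
  obtain ⟨C, hC0, hC⟩ := nonprime_bound
  have hC1 : 0 ≤ C₁ := (abs_nonneg _).trans (hr1 0)
  refine ⟨C₁ + C, by linarith, fun N => ?_⟩
  have h1 := hr1 N
  have h2 : ∑ d ∈ Ioc 0 N, (if d.Prime then r d * Real.log d / d else 0) =
      ∑ d ∈ Ioc 0 N, r d * ArithmeticFunction.vonMangoldt d / d -
      ∑ d ∈ Ioc 0 N with ¬ d.Prime, r d * ArithmeticFunction.vonMangoldt d / d := by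
    rw [sum_filter, ← sum_sub_distrib]
    refine sum_congr rfl fun d _ => ?_
    by_cases hd : d.Prime
    · rw [if_pos hd, if_neg (by simpa using hd), ArithmeticFunction.vonMangoldt_apply_prime hd,
        sub_zero]
    · rw [if_neg hd, if_pos hd, sub_self]
  have h3 : |∑ d ∈ Ioc 0 N with ¬ d.Prime, r d * ArithmeticFunction.vonMangoldt d / d| ≤ C := by
    refine (abs_sum_le_sum_abs _ _).trans (le_trans (sum_le_sum fun d _ => ?_) (hC N))
    rw [abs_div, abs_mul, abs_of_nonneg (ArithmeticFunction.vonMangoldt_nonneg (n := d)),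
      abs_of_nonneg (Nat.cast_nonneg (α := ℝ) d)]
    refine div_le_div_of_nonneg_right ?_ (Nat.cast_nonneg d)
    exact mul_le_of_le_one_left ArithmeticFunction.vonMangoldt_nonneg (hr d)
  rw [h2]
  exact (abs_sub _ _).trans (by linarith)

/-- tails of `∑ χ(p) p ^ (-1 - σ)` -/
private lemma b2_tail {r : ℕ → ℝ} (hr : ∀ n, |r n| ≤ 1) {C₁ : ℝ}
    (hr1 : ∀ N : ℕ, |∑ d ∈ Ioc 0 N, r d * ArithmeticFunction.vonMangoldt d / d| ≤ C₁) :
    ∃ C : ℝ, 0 ≤ C ∧ ∀ M : ℕ, 2 ≤ M → ∀ σ : ℝ, 0 ≤ σ → ∀ n : ℕ,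
    |∑ i ∈ range n, (if (M + 1 + i).Prime then
      r (M + 1 + i) * ((M + 1 + i : ℕ) : ℝ) ^ (-(1 + σ)) else 0)| ≤ C / Real.log M := by
  obtain ⟨C, hC0, hC⟩ := b2_prime_sum hr hr1
  refine ⟨2 * C, by linarith, fun M hM σ hσ n => ?_⟩
  have hM' : (2 : ℝ) ≤ M := by exact_mod_cast hM
  have hlM : 0 < Real.log M := Real.log_pos (by linarith)
  have hpos : ∀ i : ℕ, (0 : ℝ) < ((M + 1 + i : ℕ) : ℝ) := fun i => by positivity
  have hge : ∀ i : ℕ, (M : ℝ) ≤ ((M + 1 + i : ℕ) : ℝ) := fun i => by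
    push_cast; have : (0 : ℝ) ≤ i := by positivity
    linarith
  have hlog : ∀ i : ℕ, Real.log M ≤ Real.log ((M + 1 + i : ℕ) : ℝ) := fun i =>
    Real.log_le_log (by linarith) (hge i)
  have h1 := Pool.Agent.DigitChanges.abel
    (fun i => if (M + 1 + i).Prime then
      r (M + 1 + i) * Real.log ((M + 1 + i : ℕ) : ℝ) / ((M + 1 + i : ℕ) : ℝ) else 0)
    (fun i => ((M + 1 + i : ℕ) : ℝ) ^ (-σ) / Real.log ((M + 1 + i : ℕ) : ℝ)) (2 * C)
    (fun i => by
      have h2 : ((M + 1 + (i + 1) : ℕ) : ℝ) ^ (-σ) ≤ ((M + 1 + i : ℕ) : ℝ) ^ (-σ) := by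
        refine Real.rpow_le_rpow_of_nonpos (hpos i) ?_ (by linarith)
        push_cast; linarith
      have h3 : Real.log ((M + 1 + i : ℕ) : ℝ) ≤ Real.log ((M + 1 + (i + 1) : ℕ) : ℝ) := by
        refine Real.log_le_log (hpos i) ?_
        push_cast; linarith
      exact div_le_div₀ (Real.rpow_nonneg (hpos i).le _) h2 (hlM.trans_le (hlog i)) h3)
    (fun i => div_nonneg (Real.rpow_nonneg (hpos i).le _) (hlM.le.trans (hlog i)))
    (fun n => by
      have h2 : ∑ i ∈ range n, (if (M + 1 + i).Prime then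
          r (M + 1 + i) * Real.log ((M + 1 + i : ℕ) : ℝ) / ((M + 1 + i : ℕ) : ℝ) else 0) =
          ∑ d ∈ Ioc 0 (M + n), (if d.Prime then r d * Real.log d / d else 0) -
          ∑ d ∈ Ioc 0 M, (if d.Prime then r d * Real.log d / d else 0) := by
        rw [← sum_Ioc_consecutive _ (Nat.zero_le M) (Nat.le_add_right M n), add_sub_cancel_left,
          ← Finset.Ico_add_one_add_one_eq_Ioc, sum_Ico_eq_sum_range,
          show M + n + 1 - (M + 1) = n by omega]
      rw [h2]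
      have := hC (M + n)
      have := hC M
      exact (abs_sub _ _).trans (by linarith)) n
  have h2 : ∑ i ∈ range n, (if (M + 1 + i).Prime then
      r (M + 1 + i) * ((M + 1 + i : ℕ) : ℝ) ^ (-(1 + σ)) else 0) =
      ∑ i ∈ range n, (if (M + 1 + i).Prime then
      r (M + 1 + i) * Real.log ((M + 1 + i : ℕ) : ℝ) / ((M + 1 + i : ℕ) : ℝ) else 0) *
      (((M + 1 + i : ℕ) : ℝ) ^ (-σ) / Real.log ((M + 1 + i : ℕ) : ℝ)) := by
    refine sum_congr rfl fun i _ => ?_
    split_ifs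
    · have hl : Real.log ((M + 1 + i : ℕ) : ℝ) ≠ 0 := (hlM.trans_le (hlog i)).ne'
      have h3 : ((M + 1 + i : ℕ) : ℝ) ^ (-(1 + σ)) =
          ((M + 1 + i : ℕ) : ℝ) ^ (-σ) / ((M + 1 + i : ℕ) : ℝ) := by
        rw [show -(1 + σ) = -σ - 1 by ring, Real.rpow_sub (hpos i), Real.rpow_one]
      rw [h3]
      have := (hpos i).ne'
      field_simp
    · simp
  rw [h2]
  refine h1.trans ?_
  simp only [add_zero]
  have h4 : ((M + 1 : ℕ) : ℝ) ^ (-σ) ≤ 1 := by
    refine Real.rpow_le_one_of_one_le_of_nonpos ?_ (by linarith)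
    push_cast; linarith
  have h5 : Real.log M ≤ Real.log ((M + 1 : ℕ) : ℝ) := by simpa using hlog 0
  calc 2 * C * (((M + 1 : ℕ) : ℝ) ^ (-σ) / Real.log ((M + 1 : ℕ) : ℝ))
      = ((M + 1 : ℕ) : ℝ) ^ (-σ) * (2 * C / Real.log ((M + 1 : ℕ) : ℝ)) := by ring
    _ ≤ 1 * (2 * C / Real.log M) := by
        refine mul_le_mul h4 ?_ (div_nonneg (by linarith) (hlM.le.trans h5)) (by norm_num)
        exact div_le_div_of_nonneg_left (by linarith) hlM h5
    _ = 2 * C / Real.log M := one_mul _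

private theorem b2_single {k : ℕ} (χ : DirichletCharacter ℂ k) {r : ℕ → ℝ}
    (hr : ∀ n, |r n| ≤ 1) {C₁ : ℝ}
    (hr1 : ∀ N : ℕ, |∑ d ∈ Ioc 0 N, r d * ArithmeticFunction.vonMangoldt d / d| ≤ C₁)
    (hχr : ∀ n : ℕ, χ n = (r n : ℂ)) :
    ∀ᶠ y : ℝ in Filter.atTop, ¬ Exc (1 / 2) y χ := by
  obtain ⟨C, hC0, hC⟩ := b2_tail hr hr1
  set K : ℝ := ∑' n : ℕ, 1 / (n : ℝ) ^ (3 / 2 : ℝ) with hK
  have hKs : Summable fun n : ℕ => 1 / (n : ℝ) ^ (3 / 2 : ℝ) :=
    Real.summable_one_div_nat_rpow.2 (by norm_num)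
  have hK0 : 0 ≤ K := tsum_nonneg fun n => by positivity
  have hev : ∀ᶠ y : ℝ in Filter.atTop, 4 ≤ y ∧ C / Real.log ⌊y⌋₊ + K * y ^ (-(1 / 2) : ℝ) ≤ 1 / 2 := by
    refine (Filter.eventually_ge_atTop 4).and ?_
    have h1 : Filter.Tendsto (fun y : ℝ => C / Real.log ⌊y⌋₊) Filter.atTop (nhds 0) :=
      ((Real.tendsto_log_atTop.comp tendsto_natCast_atTop_atTop).comp
        tendsto_nat_floor_atTop).const_div_atTop C
    have h2 : Filter.Tendsto (fun y : ℝ => K * y ^ (-(1 / 2) : ℝ)) Filter.atTop (nhds (K * 0)) :=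
      (tendsto_rpow_neg_atTop (by norm_num : (0 : ℝ) < 1 / 2)).const_mul K
    have h3 := h1.add h2
    rw [mul_zero, add_zero] at h3
    exact h3.eventually_le_const (by norm_num)
  refine hev.mono fun y hy hE => ?_
  obtain ⟨-, hχ1, σ, hσ0, hσ1, hlt⟩ := hE
  obtain ⟨hy4, hsmall⟩ := hy
  have hy0 : 0 < y := by linarith
  set M := ⌊y⌋₊ with hM
  have hM2 : 2 ≤ M := Nat.le_floor (by push_cast; linarith)
  have hs : 1 < (1 + (σ : ℂ)).re := by simp [hσ0]
  have hs0 := ne_zero_of_one_lt_re hs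
  set F := i5F χ y hs0 with hF
  -- values of `F` at primes
  have hFr : ∀ n : ℕ, F n = ((r n * (n : ℝ) ^ (-(1 + σ)) * rough y n : ℝ) : ℂ) := by
    intro n
    rw [hF, i5F_apply, hχr]
    push_cast
    rw [Complex.ofReal_cpow (Nat.cast_nonneg n)]
    push_cast
    rfl
  have hF0 : ∀ n : ℕ, n.Prime → n ≤ M → F n = 0 := by
    intro n hn hnM
    rw [hFr, rough_apply, if_neg]
    · simp
    · rintro ⟨-, h1⟩
      have h2 := h1 n hn dvd_rfl
      have h3 : (n : ℝ) ≤ y := (Nat.le_floor_iff hy0.le).1 hnM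
      linarith
  have hF1 : ∀ n : ℕ, n.Prime → M < n → F n = ((r n * (n : ℝ) ^ (-(1 + σ)) : ℝ) : ℂ) := by
    intro n hn hnM
    rw [hFr, rough_apply, if_pos, mul_one]
    refine ⟨hn.ne_zero, fun p hp hpn => ?_⟩
    rw [(Nat.prime_dvd_prime_iff_eq hp hn).1 hpn]
    exact (Nat.floor_lt hy0.le).1 hnM
  have hFn : ∀ n : ℕ, n.Prime → ‖F n‖ ≤ 1 / 2 ∧
      ‖F n‖ ^ 2 ≤ y ^ (-(1 / 2) : ℝ) * (1 / (n : ℝ) ^ (3 / 2 : ℝ)) := by
    intro n hn
    rcases Nat.lt_or_ge M n with h | h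
    · have hny : y < n := (Nat.floor_lt hy0.le).1 h
      have hn0 : (0 : ℝ) < n := by linarith
      have hn1 : (1 : ℝ) ≤ n := by linarith
      have h1 : ‖F n‖ ≤ (n : ℝ) ^ (-1 : ℝ) := by
        rw [hF1 n hn h, Complex.norm_real, Real.norm_eq_abs, abs_mul,
          abs_of_nonneg (Real.rpow_nonneg hn0.le _)]
        calc |r n| * (n : ℝ) ^ (-(1 + σ)) ≤ 1 * (n : ℝ) ^ (-1 : ℝ) :=
              mul_le_mul (hr n) (Real.rpow_le_rpow_of_exponent_le hn1 (by linarith))
                (Real.rpow_nonneg hn0.le _) (by norm_num)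
          _ = _ := one_mul _
      have h2 : (n : ℝ) ^ (-1 : ℝ) ≤ 1 / 2 := by
        rw [Real.rpow_neg_one, ← one_div]
        exact one_div_le_one_div_of_le (by norm_num) (by linarith)
      refine ⟨h1.trans h2, ?_⟩
      calc ‖F n‖ ^ 2 ≤ ((n : ℝ) ^ (-1 : ℝ)) ^ 2 := pow_le_pow_left₀ (norm_nonneg _) h1 2
        _ = (n : ℝ) ^ (-(1 / 2) : ℝ) * (1 / (n : ℝ) ^ (3 / 2 : ℝ)) := by
            have e1 : (1 : ℝ) / (n : ℝ) ^ (3 / 2 : ℝ) = (n : ℝ) ^ (-(3 / 2) : ℝ) := by
              rw [Real.rpow_neg hn0.le, one_div]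
            rw [e1, ← Real.rpow_natCast, ← Real.rpow_mul hn0.le, ← Real.rpow_add hn0]
            norm_num
        _ ≤ _ := by
            refine mul_le_mul_of_nonneg_right ?_ (by positivity)
            exact Real.rpow_le_rpow_of_nonpos hy0 hny.le (by norm_num)
    · rw [hF0 n hn h, norm_zero]
      refine ⟨by norm_num, ?_⟩
      have : 0 ≤ y ^ (-(1 / 2) : ℝ) * (1 / (n : ℝ) ^ (3 / 2 : ℝ)) := by positivity
      simpa using this
  have hsumF : Summable fun n => ‖F n‖ := i5_summable χ y hs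
  have hinj : Function.Injective (fun p : Nat.Primes => (p : ℕ)) := Subtype.coe_injective
  have hsumP : Summable fun p : Nat.Primes => ‖F p‖ := hsumF.comp_injective hinj
  have hsumP' : Summable fun p : Nat.Primes => F p := hsumP.of_norm
  -- first part
  have hA : ‖∑' p : Nat.Primes, F p‖ ≤ C / Real.log M := by
    have h1 : ∑' p : Nat.Primes, F p = ∑' n : ℕ, Set.indicator {p : ℕ | p.Prime} F n :=
      tsum_subtype {p : ℕ | p.Prime} (fun n => F n)
    rw [h1]
    have h2 : Summable (Set.indicator {p : ℕ | p.Prime} (fun n => F n)) :=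
      hsumF.of_norm.indicator _
    have h3 := (Filter.tendsto_add_atTop_iff_nat (M + 1)).2 h2.hasSum.tendsto_sum_nat
    refine le_of_tendsto h3.norm (Filter.Eventually.of_forall fun n => ?_)
    have h4 : ∑ i ∈ range (n + (M + 1)), Set.indicator {p : ℕ | p.Prime} (fun n => F n) i =
        ((∑ i ∈ range n, (if (M + 1 + i).Prime then
          r (M + 1 + i) * ((M + 1 + i : ℕ) : ℝ) ^ (-(1 + σ)) else 0) : ℝ) : ℂ) := by
      rw [add_comm n (M + 1), sum_range_add, Complex.ofReal_sum]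
      have h5 : ∑ i ∈ range (M + 1), Set.indicator {p : ℕ | p.Prime} (fun n => F n) i = 0 := by
        refine sum_eq_zero fun i hi => ?_
        rw [mem_range] at hi
        by_cases hp : i.Prime
        · rw [Set.indicator_of_mem (by exact hp), hF0 i hp (by omega)]
        · rw [Set.indicator_of_notMem (by exact hp)]
      rw [h5, zero_add]
      refine sum_congr rfl fun i _ => ?_
      split_ifs with hp
      · rw [Set.indicator_of_mem (by exact hp), hF1 _ hp (by omega)]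
      · rw [Set.indicator_of_notMem (by exact hp), Complex.ofReal_zero]
    rw [h4, Complex.norm_real, Real.norm_eq_abs]
    exact hC M hM2 σ hσ0.le n
  -- second part
  have hlogb : ∀ p : Nat.Primes, ‖-Complex.log (1 - F p) - F p‖ ≤
      y ^ (-(1 / 2) : ℝ) * (1 / (p : ℝ) ^ (3 / 2 : ℝ)) := by
    intro p
    obtain ⟨h1, h2⟩ := hFn p p.2
    have h3 := Complex.norm_log_one_add_sub_self_le (z := -F p) (by rw [norm_neg]; linarith)
    rw [norm_neg] at h3
    have h4 : -Complex.log (1 - F p) - F p = -(Complex.log (1 + -F p) - -F p) := by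
      rw [sub_eq_add_neg 1 (F p)]; ring
    rw [h4, norm_neg]
    refine h3.trans (le_trans ?_ h2)
    have h5 : (1 - ‖F p‖)⁻¹ ≤ 2 := by
      rw [inv_le_comm₀ (by linarith) (by norm_num)]
      linarith
    have h6 : 0 ≤ ‖F p‖ ^ 2 := by positivity
    nlinarith
  have hKP : Summable fun p : Nat.Primes => 1 / ((p : ℕ) : ℝ) ^ (3 / 2 : ℝ) :=
    hKs.comp_injective hinj
  have hKP' : ∑' p : Nat.Primes, 1 / ((p : ℕ) : ℝ) ^ (3 / 2 : ℝ) ≤ K :=
    hKP.tsum_le_tsum_of_inj (fun p : Nat.Primes => (p : ℕ)) hinj (fun n _ => by positivity)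
      (fun p => le_rfl) hKs
  have hsumD : Summable fun p : Nat.Primes => -Complex.log (1 - F p) - F p :=
    Summable.of_norm_bounded (hKP.mul_left _) hlogb
  have hB : ‖∑' p : Nat.Primes, (-Complex.log (1 - F p) - F p)‖ ≤ K * y ^ (-(1 / 2) : ℝ) := by
    refine (tsum_of_norm_bounded (hKP.mul_left _).hasSum hlogb).trans ?_
    rw [tsum_mul_left, mul_comm]
    exact mul_le_mul_of_nonneg_right hKP' (Real.rpow_nonneg hy0.le _)
  have hW : ‖∑' p : Nat.Primes, -Complex.log (1 - F p)‖ ≤ 1 / 2 := by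
    have h1 : ∑' p : Nat.Primes, -Complex.log (1 - F p) =
        ∑' p : Nat.Primes, (-Complex.log (1 - F p) - F p) + ∑' p : Nat.Primes, F p := by
      rw [← hsumD.tsum_add hsumP']
      exact tsum_congr fun p => (sub_add_cancel _ _).symm
    rw [h1]
    refine (norm_add_le _ _).trans ?_
    linarith
  rw [i5_Zs χ y hs, Complex.norm_exp] at hlt
  have h1 : -(1 / 2 : ℝ) ≤ (∑' p : Nat.Primes, -Complex.log (1 - F p)).re := by
    have := (abs_le.1 ((Complex.abs_re_le_norm _).trans hW)).1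
    exact this
  have h2 : Real.exp (-(1 / 2 : ℝ)) ≤ Real.exp (∑' p : Nat.Primes, -Complex.log (1 - F p)).re :=
    Real.exp_le_exp.2 h1
  have h3 : (1 / 2 : ℝ) ≤ Real.exp (-(1 / 2 : ℝ)) := by
    have := Real.add_one_le_exp (-(1 / 2 : ℝ))
    linarith
  have h4 := h3.trans h2
  exact absurd hlt (not_lt.2 h4)


private lemma b2_real {k : ℕ} {χ : DirichletCharacter ℂ k} (h2 : χ ^ 2 = 1) (n : ℕ) :
    χ n = ((χ n).re : ℂ) ∧ |(χ n).re| ≤ 1 := by
  by_cases hu : IsUnit (n : ZMod k)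
  · have h3 : χ n ^ 2 = 1 := by
      have h4 : (χ ^ 2) (n : ZMod k) = (1 : DirichletCharacter ℂ k) n := by rw [h2]
      rw [MulChar.pow_apply' χ (by norm_num), MulChar.one_apply hu] at h4
      exact h4
    rcases mul_self_eq_one_iff.1 (by rw [← sq]; exact h3 : χ n * χ n = 1) with h4 | h4
    · rw [h4]; simp
    · rw [h4]; simp
  · rw [MulChar.map_nonunit χ hu]
    simp

theorem notExcK (k : ℕ) (hk : 0 < k) : ∃ y₁ : ℝ, ∀ y : ℝ, y₁ ≤ y →
    ∀ χ : DirichletCharacter ℂ k, ¬ Lnk.Exc (1 / 2) y χ := by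
  have : NeZero k := ⟨hk.ne'⟩
  have key : ∀ᶠ y : ℝ in Filter.atTop, ∀ χ : DirichletCharacter ℂ k, ¬ Lnk.Exc (1 / 2) y χ := by
    rw [Filter.eventually_all]
    intro χ
    by_cases h2 : χ ^ 2 = 1
    · by_cases h1 : χ = 1
      · exact Filter.Eventually.of_forall fun y hE => hE.2.1 h1
      · obtain ⟨C, hC⟩ := char_mertens χ h1
        refine b2_single χ (r := fun n => (χ n).re) (fun n => (b2_real h2 n).2) (C₁ := C)
          (fun N => ?_) (fun n => (b2_real h2 n).1)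
        have h3 := hC N
        have h4 : ∑ d ∈ Ioc 0 N, χ d * (ArithmeticFunction.vonMangoldt d : ℂ) / d =
            ((∑ d ∈ Ioc 0 N, (χ d).re * ArithmeticFunction.vonMangoldt d / d : ℝ) : ℂ) := by
          rw [Complex.ofReal_sum]
          refine sum_congr rfl fun d _ => ?_
          rw [(b2_real h2 d).1]
          push_cast
          simp
        rw [h4, Complex.norm_real, Real.norm_eq_abs] at h3
        exact h3
    · exact Filter.Eventually.of_forall fun y hE => h2 hE.1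
  exact Filter.eventually_atTop.1 key

end SES
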