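import Pool.Agent.Lib.MP_393cd8_nt.Defs

/-!
# Module D1: from counting functions to sums of reciprocals
-/

set_option autoImplicit false

namespace SES

open Finset

/-- telescoping: `∑_{q ≤ j ≤ M} 1/(j(j+1)) ≤ 1/q` -/
private theorem tele_le {q M : ℕ} (hq : 0 < q) :
    ∑ j ∈ Icc q M, (1 : ℝ) / ((j : ℝ) * (j + 1)) ≤ 1 / q := by
  rcases le_or_gt q M with h | h
  · have h1 : ∀ n : ℕ, q ≤ n → ∑ j ∈ Icc q n, (1 : ℝ) / ((j : ℝ) * (j + 1)) =
        1 / q - 1 / ((n : ℝ) + 1) := by
      intro n hn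
      induction n, hn using Nat.le_induction with
      | base =>
        rw [Finset.Icc_self, Finset.sum_singleton]
        have : (0 : ℝ) < q := by exact_mod_cast hq
        field_simp
        ring
      | succ n hn ih =>
        rw [← Finset.insert_Icc_right_eq_Icc_add_one (by omega), Finset.sum_insert (by simp), ih]
        have h2 : (0 : ℝ) < (n : ℝ) + 1 := by positivity
        have h3 : (0 : ℝ) < (q : ℝ) := by exact_mod_cast hq
        push_cast
        field_simp
        ring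
    rw [h1 M h]
    have : (0 : ℝ) ≤ 1 / ((M : ℝ) + 1) := by positivity
    linarith
  · rw [Finset.Icc_eq_empty (by omega), Finset.sum_empty]
    positivity

/-- the number of primes in a class in `(X, j]` -/
private theorem pc_sub {m : ℕ} (b : ZMod m) {X j : ℕ} (h : X ≤ j) :
    (((Ioc X j).filter (fun q : ℕ => q.Prime ∧ ((q : ℕ) : ZMod m) = b)).card : ℝ) =
      Lnk.pc m b j - Lnk.pc m b X := by
  classical
  unfold Lnk.pc
  rw [Nat.floor_natCast, Nat.floor_natCast]
  have h1 : (Icc 1 j).filter (fun q : ℕ => q.Prime ∧ ((q : ℕ) : ZMod m) = b) =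
      (Icc 1 X).filter (fun q : ℕ => q.Prime ∧ ((q : ℕ) : ZMod m) = b) ∪
        (Ioc X j).filter (fun q : ℕ => q.Prime ∧ ((q : ℕ) : ZMod m) = b) := by
    rw [← Finset.filter_union]
    congr 1
    ext q
    simp only [Finset.mem_union, Finset.mem_Icc, Finset.mem_Ioc]
    omega
  have h2 : Disjoint ((Icc 1 X).filter (fun q : ℕ => q.Prime ∧ ((q : ℕ) : ZMod m) = b))
      ((Ioc X j).filter (fun q : ℕ => q.Prime ∧ ((q : ℕ) : ZMod m) = b)) := by
    rw [Finset.disjoint_left]
    intro q hq hq'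
    rw [Finset.mem_filter, Finset.mem_Icc] at hq
    rw [Finset.mem_filter, Finset.mem_Ioc] at hq'
    omega
  rw [h1, Finset.card_union_of_disjoint h2]
  push_cast
  ring

/-- partial summation -/
private theorem rp_ge (X m : ℕ) (b : ZMod m) :
    ∑ j ∈ Ioc X (X ^ 2), ((Lnk.pc m b j : ℝ) - Lnk.pc m b X) * (1 / ((j : ℝ) * (j + 1))) ≤
      rp X m b := by
  classical
  have h1 : ∑ j ∈ Ioc X (X ^ 2), ((Lnk.pc m b j : ℝ) - Lnk.pc m b X) *
        (1 / ((j : ℝ) * (j + 1))) =
      ∑ j ∈ Ioc X (X ^ 2),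
        ∑ q ∈ (Ioc X (X ^ 2)).filter (fun q : ℕ => q.Prime ∧ ((q : ℕ) : ZMod m) = b),
          if q ≤ j then (1 : ℝ) / ((j : ℝ) * (j + 1)) else 0 := by
    refine Finset.sum_congr rfl fun j hj => ?_
    rw [Finset.mem_Ioc] at hj
    rw [← pc_sub b hj.1.le, ← Finset.sum_filter, Finset.sum_const, nsmul_eq_mul,
      Finset.filter_filter]
    congr 3
    ext q
    simp only [Finset.mem_filter, Finset.mem_Ioc]
    constructor
    · rintro ⟨⟨h2, h3⟩, h4⟩
      exact ⟨⟨h2, by omega⟩, h4, h3⟩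
    · rintro ⟨⟨h2, h3⟩, h4, h5⟩
      exact ⟨⟨h2, h5⟩, h4⟩
  rw [h1, Finset.sum_comm]
  unfold rp
  refine Finset.sum_le_sum fun q hq => ?_
  rw [Finset.mem_filter, Finset.mem_Ioc] at hq
  rw [← Finset.sum_filter]
  refine le_trans (Finset.sum_le_sum_of_subset_of_nonneg ?_ ?_)
    (tele_le (M := X ^ 2) (hq.2.1.pos))
  · intro j hj
    rw [Finset.mem_filter, Finset.mem_Ioc] at hj
    rw [Finset.mem_Icc]
    exact ⟨hj.2, hj.1.2⟩
  · intro j _ _
    positivity

/-- harmonic sum -/
private theorem harm_ge {X M : ℕ} (h : X ≤ M) :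
    Real.log ((M + 2 : ℝ) / (X + 2)) ≤ ∑ j ∈ Ioc X M, (1 : ℝ) / (j + 1) := by
  induction M, h using Nat.le_induction with
  | base =>
    rw [div_self (by positivity), Real.log_one]
    simp
  | succ M hM ih =>
    rw [← Finset.insert_Ioc_right_eq_Ioc_add_one (by omega), Finset.sum_insert (by simp)]
    have h1 : Real.log (((M + 1 : ℕ) + 2 : ℝ) / (X + 2)) =
        Real.log ((M + 2 : ℝ) / (X + 2)) + Real.log ((M + 3 : ℝ) / (M + 2)) := by
      rw [← Real.log_mul (by positivity) (by positivity)]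
      congr 1
      push_cast
      field_simp
      ring
    have h2 : Real.log ((M + 3 : ℝ) / (M + 2)) ≤ 1 / (((M + 1 : ℕ) : ℝ) + 1) := by
      have h3 := Real.log_le_sub_one_of_pos (show (0 : ℝ) < (M + 3 : ℝ) / (M + 2) by positivity)
      have h4 : (M + 3 : ℝ) / (M + 2) - 1 = 1 / (((M + 1 : ℕ) : ℝ) + 1) := by
        push_cast
        field_simp
        ring
      linarith
    rw [h1]
    linarith

theorem recip_of_pc (c C : ℝ) (hc : 0 < c) (hC : 0 < C) : ∃ (c' : ℝ) (X₀ : ℕ), 0 < c' ∧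
    ∀ (X m : ℕ) (b : ZMod m), X₀ ≤ X → 0 < m →
      (∀ x' : ℝ, (X : ℝ) ≤ x' → x' ≤ (X : ℝ) ^ 2 →
        c * x' / (Nat.totient m * Real.log x') ≤ Lnk.pc m b x') →
      ((Lnk.pc m b X : ℝ) ≤ C * X / (Nat.totient m * Real.log X)) →
      c' / Nat.totient m ≤ rp X m b := by
  obtain ⟨N, hN⟩ := exists_nat_gt (Real.exp (8 * C / c))
  refine ⟨c / 8, max 4 N, by positivity, ?_⟩
  intro X m b hX hm h1 h2
  have hX4 : 4 ≤ X := le_trans (le_max_left _ _) hX
  have hXN : N ≤ X := le_trans (le_max_right _ _) hX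
  have hX4' : (4 : ℝ) ≤ X := by exact_mod_cast hX4
  have hX0 : (0 : ℝ) < X := by linarith
  have hφ : (0 : ℝ) < Nat.totient m := by exact_mod_cast Nat.totient_pos.2 hm
  have hlX : 0 < Real.log X := Real.log_pos (by linarith)
  have hlC : 8 * C / c ≤ Real.log X := by
    rw [Real.le_log_iff_exp_le hX0]
    have : (N : ℝ) ≤ X := by exact_mod_cast hXN
    linarith
  refine le_trans ?_ (rp_ge X m b)
  -- lower bound for each term
  have h3 : ∀ j ∈ Ioc X (X ^ 2),
      c / (2 * (Nat.totient m * Real.log X)) * (1 / ((j : ℝ) + 1)) -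
        C * X / (Nat.totient m * Real.log X) * (1 / ((j : ℝ) * (j + 1))) ≤
      ((Lnk.pc m b j : ℝ) - Lnk.pc m b X) * (1 / ((j : ℝ) * (j + 1))) := by
    intro j hj
    rw [Finset.mem_Ioc] at hj
    have hjX : (X : ℝ) ≤ j := by exact_mod_cast hj.1.le
    have hjX2 : (j : ℝ) ≤ (X : ℝ) ^ 2 := by exact_mod_cast hj.2
    have hj0 : (0 : ℝ) < j := by linarith
    have hlj : 0 < Real.log j := Real.log_pos (by linarith)
    have hlj2 : Real.log j ≤ 2 * Real.log X := by
      have := Real.log_le_log hj0 hjX2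
      rwa [Real.log_pow, Nat.cast_ofNat] at this
    have h4 := h1 j hjX hjX2
    have h5 : c * j / (2 * (Nat.totient m * Real.log X)) ≤
        c * j / (Nat.totient m * Real.log j) := by
      apply div_le_div_of_nonneg_left (by positivity) (by positivity)
      nlinarith
    have h6 : c / (2 * (Nat.totient m * Real.log X)) * (1 / ((j : ℝ) + 1)) =
        c * j / (2 * (Nat.totient m * Real.log X)) * (1 / ((j : ℝ) * (j + 1))) := by
      field_simp
    rw [h6, ← sub_mul]
    apply mul_le_mul_of_nonneg_right _ (by positivity)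
    linarith
  refine le_trans ?_ (Finset.sum_le_sum h3)
  rw [Finset.sum_sub_distrib, ← Finset.mul_sum, ← Finset.mul_sum]
  have hXX : X ≤ X ^ 2 := Nat.le_self_pow (by norm_num) X
  -- the harmonic sum
  have h7 : Real.log X / 2 ≤ ∑ j ∈ Ioc X (X ^ 2), (1 : ℝ) / ((j : ℝ) + 1) := by
    refine le_trans ?_ (harm_ge hXX)
    have h8 : Real.log X / 2 = Real.log (Real.sqrt X) := by
      rw [Real.log_sqrt hX0.le]
    rw [h8]
    apply Real.log_le_log (Real.sqrt_pos.2 hX0)
    rw [le_div_iff₀ (by positivity)]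
    set y := Real.sqrt X with hy
    have hy0 : 0 ≤ y := Real.sqrt_nonneg _
    have hyy : y * y = X := Real.mul_self_sqrt hX0.le
    have hy2 : 2 ≤ y := by
      by_contra hcon
      rw [not_le] at hcon
      nlinarith
    have : ((X ^ 2 : ℕ) : ℝ) = (y * y) ^ 2 := by
      rw [hyy]
      push_cast
      ring
    rw [this, ← hyy]
    nlinarith [mul_nonneg hy0 hy0, mul_nonneg (mul_nonneg hy0 hy0) hy0,
      mul_nonneg (mul_nonneg hy0 hy0) (sub_nonneg.2 hy2), mul_nonneg hy0 (sub_nonneg.2 hy2)]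
  -- the telescoping sum
  have h9 : ∑ j ∈ Ioc X (X ^ 2), (1 : ℝ) / ((j : ℝ) * (j + 1)) ≤ 1 / X := by
    have h10 : Ioc X (X ^ 2) ⊆ Icc X (X ^ 2) := Finset.Ioc_subset_Icc_self
    refine le_trans (Finset.sum_le_sum_of_subset_of_nonneg h10 ?_) (tele_le (by omega))
    intro j _ _
    positivity
  have h11 : c / (2 * (Nat.totient m * Real.log X)) * (Real.log X / 2) ≤
      c / (2 * (Nat.totient m * Real.log X)) * ∑ j ∈ Ioc X (X ^ 2), (1 : ℝ) / ((j : ℝ) + 1) :=
    mul_le_mul_of_nonneg_left h7 (by positivity)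
  have h12 : C * X / (Nat.totient m * Real.log X) *
        ∑ j ∈ Ioc X (X ^ 2), (1 : ℝ) / ((j : ℝ) * (j + 1)) ≤
      C * X / (Nat.totient m * Real.log X) * (1 / X) :=
    mul_le_mul_of_nonneg_left h9 (by positivity)
  have h13 : c / (2 * (Nat.totient m * Real.log X)) * (Real.log X / 2) =
      c / 4 / Nat.totient m := by
    field_simp
    ring
  have h14 : C * X / (Nat.totient m * Real.log X) * (1 / X) =
      C / Real.log X / Nat.totient m := by
    field_simp
  have h15 : C / Real.log X ≤ c / 8 := by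
    rw [div_le_iff₀ hlX]
    rw [div_le_iff₀ hc] at hlC
    linarith
  have h16 : c / 8 / Nat.totient m ≤ c / 4 / Nat.totient m - C / Real.log X / Nat.totient m := by
    rw [← sub_div]
    apply div_le_div_of_nonneg_right _ hφ.le
    linarith
  linarith

end SES
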